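import Pool.Agent.SAQ.Pref

/-!
# Stable allocations are fixed points of a monotone sum-nonexpansive integer map

BLUEPRINT.  `tau` is additive and injective on `[0,B]^V` (digits in base `B+1`).
`pref_of`: the truncated domain with the lexicographic key (value, tau) satisfies `Pref`.  For
`exch`: M♮-concavity gives `v` with `f x + f y ≤ f x' + f y'`, in particular `f x', f y' ≠ ⊥`;
`x' v ≤ y v ≤ B`, `y' u ≤ x u ≤ B`, so `x'`, `y'` stay in the truncated domain; `tau` is additive so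
`tau x + tau y = tau x' + tau y'`, and `key x + key y ≤ key x' + key y'` in `ℝ ×ₗ ℤ`
(`Prod.Lex.toLex_le_toLex` or similar).
`hmap_imap`: `rM` and `rW` are monotone and sum-nonexpansive (`rej_mono`, `rej_sum` in each block,
`Fintype.sum_prod_type`), and `X ↦ B - X` reverses the order and keeps the sum of increments in
absolute value.
`stable_of_fix`: let `X` be a fixed point in the box, `x = chM X = X - rM X`, `Y = B - rM X`.  Then
`rW Y = B - X`, so `chW Y = Y - rW Y = X - rM X = x`, and `X + Y = B + x`.  Feasibility is clear.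
(a) every `y ≤ x_(k)` in the domain is in the truncated domain below `X_(k)` (or `Y_(k)`), so
`key y ≤ key x_(k)`, so `f y ≤ f x_(k)`; (`f y ≠ ⊥` because `f x < f y`).
(b) if `x i j < X i j` then `no_gain` for `i` gives `key y' ≤ key (x i)`, a contradiction.
So `x i j = X i j`, `Y i j = B`; if `x i j < B` then `no_gain` for `j` gives
`key y'' ≤ key (colW x j)` (`y'' i = y' j ≤ B`, so `y''` is in the truncated domain), a
contradiction.  So `x i j = B ≥ y' j`, so `y' ≤ x i` and `key y' ≤ key (x i)`, a contradiction.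
-/

set_option linter.unusedSectionVars false

namespace SAQ

section Key

variable {V : Type} [Fintype V] [DecidableEq V]

/-- The base `B + 1` number with digits `y`. -/
noncomputable def tau (B : ℕ) (y : V → ℤ) : ℤ :=
  ∑ v, y v * ((B : ℤ) + 1) ^ (Fintype.equivFin V v : ℕ)

/-- The lexicographic key: value first, then `tau`. -/
noncomputable def lkey (B : ℕ) (f : (V → ℤ) → WithBot ℝ) (y : V → ℤ) : ℝ ×ₗ ℤ :=
  toLex ((f y).unbotD 0, tau B y)

/-- The effective domain, cut off at `B`. -/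
def tdom (B : ℕ) (f : (V → ℤ) → WithBot ℝ) : Set (V → ℤ) := {y | f y ≠ ⊥ ∧ ∀ v, y v ≤ B}

omit [DecidableEq V] in
theorem tau_add (B : ℕ) (x y : V → ℤ) : tau B (x + y) = tau B x + tau B y := by
  simp [tau, add_mul, Finset.sum_add_distrib]

omit [Fintype V] [DecidableEq V] in
theorem digits_zero (b : ℤ) (n : ℕ) : ∀ z : Fin n → ℤ, (∀ i, |z i| < b) →
    ∑ i, z i * b ^ (i : ℕ) = 0 → ∀ i, z i = 0 := by
  induction n with
  | zero => intro z _ _ i; exact i.elim0
  | succ n ih =>
    intro z hz hs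
    have hb : 0 < b := lt_of_le_of_lt (abs_nonneg _) (hz 0)
    rw [Fin.sum_univ_succ] at hs
    simp only [Fin.val_zero, pow_zero, mul_one, Fin.val_succ, pow_succ] at hs
    have e1 : ∑ i : Fin n, z i.succ * (b ^ (i : ℕ) * b) = b * ∑ i : Fin n, z i.succ * b ^ (i : ℕ) := by
      rw [Finset.mul_sum]
      exact Finset.sum_congr rfl (fun i _ => by ring)
    rw [e1] at hs
    have h0 : z 0 = 0 := by
      apply Int.eq_zero_of_abs_lt_dvd (m := b) _ (hz 0)
      exact ⟨-∑ i : Fin n, z i.succ * b ^ (i : ℕ), by linarith⟩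
    rw [h0, zero_add] at hs
    have h1 := (mul_eq_zero.1 hs).resolve_left hb.ne'
    have h2 := ih (fun i => z i.succ) (fun i => hz _) h1
    intro i
    refine Fin.cases h0 (fun j => h2 j) i

omit [DecidableEq V] in
theorem tau_inj (B : ℕ) {x y : V → ℤ} (hx : ∀ v, 0 ≤ x v ∧ x v ≤ B) (hy : ∀ v, 0 ≤ y v ∧ y v ≤ B)
    (h : tau B x = tau B y) : x = y := by
  have h1 : ∑ i : Fin (Fintype.card V), (x ((Fintype.equivFin V).symm i) -
      y ((Fintype.equivFin V).symm i)) * ((B : ℤ) + 1) ^ (i : ℕ) = 0 := by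
    rw [← Equiv.sum_comp (Fintype.equivFin V)]
    simp only [Equiv.symm_apply_apply, sub_mul, Finset.sum_sub_distrib]
    rw [tau, tau] at h
    rw [h, sub_self]
  have h2 := digits_zero _ _ _ (fun i => by
    have a1 := hx ((Fintype.equivFin V).symm i)
    have a2 := hy ((Fintype.equivFin V).symm i)
    rw [abs_lt]; constructor <;> linarith) h1
  funext v
  have h3 := h2 (Fintype.equivFin V v)
  rw [Equiv.symm_apply_apply] at h3
  linarith

theorem pref_of (B : ℕ) {f : (V → ℤ) → WithBot ℝ} (hA : CondA f) (hM : MNatConcave f) :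
    Pref (tdom B f) (lkey B f) := by
  have hbox : ∀ y ∈ tdom B f, ∀ v, 0 ≤ y v ∧ y v ≤ B := fun y hy v => ⟨hA.nonneg y hy.1 v, hy.2 v⟩
  refine ⟨?_, ⟨hA.zero_mem, fun v => by simp⟩, fun y hy => hA.nonneg y hy.1, ?_, ?_, ?_⟩
  · refine (Set.finite_Icc (0 : V → ℤ) (fun _ => (B : ℤ))).subset (fun y hy => ?_)
    exact ⟨hA.nonneg y hy.1, fun v => hy.2 v⟩
  · intro y hy x hx hxy
    exact ⟨hA.hered y x hy.1 hx hxy, fun v => (hxy v).trans (hy.2 v)⟩
  · intro x hx y hy h
    have h1 : tau B x = tau B y := congrArg (fun k => (ofLex k).2) h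
    exact tau_inj B (hbox x hx) (hbox y hy) h1
  · intro x hx y hy u hu
    obtain ⟨v, hv, hle⟩ := hM x y hx.1 hy.1 u hu
    set x' := x - ev (some u) + ev v with hx'
    set y' := y + ev (some u) - ev v with hy'
    have hxy : f x + f y ≠ ⊥ := by
      rw [Ne, WithBot.add_eq_bot, not_or]; exact ⟨hx.1, hy.1⟩
    have hxy' : f x' + f y' ≠ ⊥ := fun h => hxy (le_bot_iff.1 (h ▸ hle))
    rw [Ne, WithBot.add_eq_bot, not_or] at hxy'
    have e1 : ∀ w, ev (some u) w = if w = u then 1 else 0 := fun w => by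
      simp only [ev, Option.some.injEq, eq_comm]
    have e2 : ∀ w, ev v w = 0 ∨ (ev v w = 1 ∧ x w < y w) := fun w => by
      by_cases h : v = some w
      · right; exact ⟨by simp [ev, h], hv w h⟩
      · left; simp [ev, h]
    have e3 : ∀ w, 0 ≤ ev (V := V) v w := fun w => by rw [ev]; split_ifs <;> norm_num
    have e4 : ∀ w, 0 ≤ ev (V := V) (some u) w := fun w => by rw [ev]; split_ifs <;> norm_num
    refine ⟨v, hv, ⟨hxy'.1, fun w => ?_⟩, ⟨hxy'.2, fun w => ?_⟩, ?_⟩
    · have a1 := hx.2 w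
      have a2 := hy.2 w
      have a4 := e4 w
      simp only [Pi.add_apply, Pi.sub_apply]
      rcases e2 w with h | h <;> omega
    · have a1 := hx.2 w
      have a2 := hy.2 w
      have a3 := e3 w
      simp only [Pi.add_apply, Pi.sub_apply]
      rw [e1]
      split_ifs with h
      · subst h; omega
      · omega
    · obtain ⟨a, ha⟩ := WithBot.ne_bot_iff_exists.1 hx.1
      obtain ⟨b, hb⟩ := WithBot.ne_bot_iff_exists.1 hy.1
      obtain ⟨a', ha'⟩ := WithBot.ne_bot_iff_exists.1 hxy'.1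
      obtain ⟨b', hb'⟩ := WithBot.ne_bot_iff_exists.1 hxy'.2
      rw [← ha, ← hb, ← ha', ← hb', ← WithBot.coe_add, ← WithBot.coe_add, WithBot.coe_le_coe] at hle
      rw [lkey, lkey, lkey, lkey, ← ha, ← hb, ← ha', ← hb']
      simp only [WithBot.unbotD_coe]
      rw [← toLex_add, ← toLex_add, Prod.mk_add_mk, Prod.mk_add_mk, Prod.Lex.toLex_le_toLex]
      have h5 : tau B x + tau B y = tau B x' + tau B y' := by
        rw [← tau_add, ← tau_add]
        congr 1
        rw [hx', hy']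
        abel
      rcases hle.lt_or_eq with h | h
      · left; exact h
      · right; exact ⟨h, h5.le⟩

end Key

section Market

variable {M W : Type} [Fintype M] [Fintype W] [DecidableEq M] [DecidableEq W]

/-- The choices of all agents of `M`. -/
noncomputable def chM (B : ℕ) (fM : M → (W → ℤ) → WithBot ℝ) (X : M → W → ℤ) : M → W → ℤ :=
  fun i => Ch (tdom B (fM i)) (lkey B (fM i)) (X i)

/-- The choices of all agents of `W`. -/
noncomputable def chW (B : ℕ) (fW : W → (M → ℤ) → WithBot ℝ) (Y : M → W → ℤ) : M → W → ℤ :=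
  fun i j => Ch (tdom B (fW j)) (lkey B (fW j)) (colW Y j) i

/-- `X ↦ B - R_W (B - R_M X)`. -/
noncomputable def hmap (B : ℕ) (fM : M → (W → ℤ) → WithBot ℝ) (fW : W → (M → ℤ) → WithBot ℝ)
    (X : M × W → ℤ) : M × W → ℤ := fun e =>
  let Y : M → W → ℤ := fun i j => B - (X (i, j) - chM B fM (fun i j => X (i, j)) i j)
  B - (Y e.1 e.2 - chW B fW Y e.1 e.2)

/-- What `M` rejects. -/
noncomputable def rM (B : ℕ) (fM : M → (W → ℤ) → WithBot ℝ) (X : M → W → ℤ) : M → W → ℤ :=
  fun i j => X i j - chM B fM X i j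

/-- What `W` rejects. -/
noncomputable def rW (B : ℕ) (fW : W → (M → ℤ) → WithBot ℝ) (Y : M → W → ℤ) : M → W → ℤ :=
  fun i j => Y i j - chW B fW Y i j

variable {B : ℕ} {fM : M → (W → ℤ) → WithBot ℝ} {fW : W → (M → ℤ) → WithBot ℝ}

theorem rM_nonneg (hA : ∀ i, CondA (fM i)) (hM : ∀ i, MNatConcave (fM i)) {X : M → W → ℤ}
    (hX : ∀ i j, 0 ≤ X i j) (i : M) (j : W) : 0 ≤ rM B fM X i j ∧ rM B fM X i j ≤ X i j := by
  have h := ch_spec (pref_of B (hA i) (hM i)) (z := X i) (hX i)
  have h1 := h.2.1 j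
  have h2 := (hA i).nonneg _ h.1.1 j
  simp only [Pi.zero_apply] at h2
  rw [rM, chM]
  constructor <;> linarith

theorem rW_nonneg (hA' : ∀ j, CondA (fW j)) (hM' : ∀ j, MNatConcave (fW j)) {X : M → W → ℤ}
    (hX : ∀ i j, 0 ≤ X i j) (i : M) (j : W) : 0 ≤ rW B fW X i j ∧ rW B fW X i j ≤ X i j := by
  have h := ch_spec (pref_of B (hA' j) (hM' j)) (z := colW X j) (fun i => hX i j)
  have h1 := h.2.1 i
  have h2 := (hA' j).nonneg _ h.1.1 i
  simp only [Pi.zero_apply] at h2
  rw [colW] at h1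
  rw [rW, chW]
  constructor <;> linarith

theorem rM_mono (hA : ∀ i, CondA (fM i)) (hM : ∀ i, MNatConcave (fM i)) {X X' : M → W → ℤ}
    (hX : ∀ i j, 0 ≤ X i j) (hXX : ∀ i j, X i j ≤ X' i j) (i : M) (j : W) :
    rM B fM X i j ≤ rM B fM X' i j :=
  rej_mono (pref_of B (hA i) (hM i)) (z := X i) (z' := X' i) (hX i) (hXX i) j

theorem rW_mono (hA' : ∀ j, CondA (fW j)) (hM' : ∀ j, MNatConcave (fW j)) {X X' : M → W → ℤ}
    (hX : ∀ i j, 0 ≤ X i j) (hXX : ∀ i j, X i j ≤ X' i j) (i : M) (j : W) :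
    rW B fW X i j ≤ rW B fW X' i j :=
  rej_mono (pref_of B (hA' j) (hM' j)) (z := colW X j) (z' := colW X' j) (fun i => hX i j)
    (fun i => hXX i j) i

theorem rM_sum (hA : ∀ i, CondA (fM i)) (hM : ∀ i, MNatConcave (fM i)) {X X' : M → W → ℤ}
    (hX : ∀ i j, 0 ≤ X i j) (hXX : ∀ i j, X i j ≤ X' i j) :
    ∑ i, ∑ j, (rM B fM X' i j - rM B fM X i j) ≤ ∑ i, ∑ j, (X' i j - X i j) :=
  Finset.sum_le_sum (fun i _ =>
    rej_sum (pref_of B (hA i) (hM i)) (z := X i) (z' := X' i) (hX i) (hXX i))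

theorem rW_sum (hA' : ∀ j, CondA (fW j)) (hM' : ∀ j, MNatConcave (fW j)) {X X' : M → W → ℤ}
    (hX : ∀ i j, 0 ≤ X i j) (hXX : ∀ i j, X i j ≤ X' i j) :
    ∑ i, ∑ j, (rW B fW X' i j - rW B fW X i j) ≤ ∑ i, ∑ j, (X' i j - X i j) := by
  rw [Finset.sum_comm, Finset.sum_comm (f := fun i j => X' i j - X i j)]
  exact Finset.sum_le_sum (fun j _ =>
    rej_sum (pref_of B (hA' j) (hM' j)) (z := colW X j) (z' := colW X' j) (fun i => hX i j)
      (fun i => hXX i j))

theorem hmap_eq (X : M × W → ℤ) (i : M) (j : W) : hmap B fM fW X (i, j) =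
    B - rW B fW (fun i j => B - rM B fM (fun i j => X (i, j)) i j) i j := rfl

theorem hmap_imap (B : ℕ) {fM : M → (W → ℤ) → WithBot ℝ} {fW : W → (M → ℤ) → WithBot ℝ}
    (hA : ∀ i, CondA (fM i)) (hA' : ∀ j, CondA (fW j)) (hM : ∀ i, MNatConcave (fM i))
    (hM' : ∀ j, MNatConcave (fW j)) : IMap B (hmap B fM fW) := by
  have key : ∀ X ∈ ibox (M × W) B, (∀ i j, 0 ≤ (fun i j => X (i, j)) i j) ∧
      ∀ i j, 0 ≤ (fun i j => (B : ℤ) - rM B fM (fun i j => X (i, j)) i j) i j := by
    intro X hX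
    have h0 : ∀ i j, 0 ≤ (fun i j => X (i, j)) i j := fun i j => (hX (i, j)).1
    refine ⟨h0, fun i j => ?_⟩
    have h1 := rM_nonneg (B := B) hA hM h0 i j
    have h2 := (hX (i, j)).2
    simp only at h1 ⊢
    linarith
  refine ⟨?_, ?_, ?_⟩
  · rintro X hX ⟨i, j⟩
    obtain ⟨h0, h1⟩ := key X hX
    have h2 := rW_nonneg (B := B) hA' hM' h1 i j
    have h3 := rM_nonneg (B := B) hA hM h0 i j
    rw [hmap_eq]
    constructor <;> linarith
  · rintro X hX X' hX' hXX ⟨i, j⟩
    obtain ⟨h0, h1⟩ := key X hX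
    obtain ⟨h0', h1'⟩ := key X' hX'
    rw [hmap_eq, hmap_eq]
    have h2 := rW_mono (B := B) hA' hM' h1' (X' := fun i j => (B : ℤ) -
      rM B fM (fun i j => X (i, j)) i j) (fun i j => by
        have h3 := rM_mono (B := B) hA hM h0 (X' := fun i j => X' (i, j)) (fun i j => hXX (i, j)) i j
        linarith) i j
    linarith
  · rintro X hX X' hX' hXX
    obtain ⟨h0, h1⟩ := key X hX
    obtain ⟨h0', h1'⟩ := key X' hX'
    rw [Fintype.sum_prod_type, Fintype.sum_prod_type]
    simp only [hmap_eq]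
    have h3 := rM_sum (B := B) hA hM h0 (X' := fun i j => X' (i, j)) (fun i j => hXX (i, j))
    have h2 := rW_sum (B := B) hA' hM' h1' (X' := fun i j => (B : ℤ) -
      rM B fM (fun i j => X (i, j)) i j) (fun i j => by
        have h3 := rM_mono (B := B) hA hM h0 (X' := fun i j => X' (i, j)) (fun i j => hXX (i, j)) i j
        linarith)
    simp only [sub_sub_sub_cancel_left] at h2 ⊢
    exact h2.trans h3

theorem stable_of_fix (B : ℕ) {fM : M → (W → ℤ) → WithBot ℝ} {fW : W → (M → ℤ) → WithBot ℝ}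
    (hA : ∀ i, CondA (fM i)) (hA' : ∀ j, CondA (fW j)) (hM : ∀ i, MNatConcave (fM i))
    (hM' : ∀ j, MNatConcave (fW j)) (hB : ∀ i y, fM i y ≠ ⊥ → ∀ j, y j ≤ B) {X : M × W → ℤ}
    (hX : X ∈ ibox (M × W) B) (hfix : hmap B fM fW X = X) :
    Stable fM fW (chM B fM (fun i j => X (i, j))) := by
  set X' : M → W → ℤ := fun i j => X (i, j) with hX'
  set Y : M → W → ℤ := fun i j => B - rM B fM X' i j with hY
  set x : M → W → ℤ := chM B fM X' with hx
  have hX0 : ∀ i j, 0 ≤ X' i j := fun i j => (hX (i, j)).1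
  have hXB : ∀ i j, X' i j ≤ B := fun i j => (hX (i, j)).2
  have hr := fun i j => rM_nonneg (B := B) hA hM hX0 i j
  have hY0 : ∀ i j, 0 ≤ Y i j := fun i j => by
    have h1 := hr i j
    have h2 := hXB i j
    simp only [hY]
    linarith
  have hfix' : ∀ i j, B - rW B fW Y i j = X' i j := fun i j => congrFun hfix (i, j)
  have hxr : ∀ i j, x i j = X' i j - rM B fM X' i j := fun i j => by
    rw [rM]; ring
  -- the choices of `W` agree
  have hxW : ∀ i j, chW B fW Y i j = x i j := by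
    intro i j
    have h1 := hfix' i j
    have h2 : rW B fW Y i j = Y i j - chW B fW Y i j := rfl
    have h3 := hxr i j
    have h4 : Y i j = B - rM B fM X' i j := rfl
    linarith
  have hxcol : ∀ j, colW x j = Ch (tdom B (fW j)) (lkey B (fW j)) (colW Y j) := by
    intro j
    funext i
    exact (hxW i j).symm
  have hXY : ∀ i j, X' i j + Y i j = B + x i j := fun i j => by
    have h3 := hxr i j
    have h4 : Y i j = B - rM B fM X' i j := rfl
    linarith
  have hPM := fun i => pref_of B (hA i) (hM i)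
  have hPW := fun j => pref_of B (hA' j) (hM' j)
  have hsM : ∀ i, IsC (tdom B (fM i)) (lkey B (fM i)) (X' i) (x i) := fun i =>
    ch_spec (hPM i) (hX0 i)
  have hsW : ∀ j, IsC (tdom B (fW j)) (lkey B (fW j)) (colW Y j) (colW x j) := fun j => by
    rw [hxcol]
    exact ch_spec (hPW j) (fun i => hY0 i j)
  -- comparing keys and values
  have cmp : ∀ {V : Type} [Fintype V] (f : (V → ℤ) → WithBot ℝ) (a b : V → ℤ), f a ≠ ⊥ →
      lkey B f b ≤ lkey B f a → f b ≤ f a := by
    intro V _ f a b ha h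
    rcases eq_or_ne (f b) ⊥ with hb | hb
    · rw [hb]; exact bot_le
    · obtain ⟨a', ha'⟩ := WithBot.ne_bot_iff_exists.1 ha
      obtain ⟨b', hb'⟩ := WithBot.ne_bot_iff_exists.1 hb
      rw [lkey, lkey, Prod.Lex.toLex_le_toLex, ← ha', ← hb'] at h
      simp only [WithBot.unbotD_coe] at h
      rw [← ha', ← hb', WithBot.coe_le_coe]
      rcases h with h | h
      · exact h.le
      · exact h.1.le
  refine ⟨⟨fun i => (hsM i).1.1, fun j => (hsW j).1.1⟩, ?_⟩
  rintro (⟨i, y, hy, hlt⟩ | ⟨j, y, hy, hlt⟩ | ⟨i, j, y', y'', h1, h2, h3, h4, h5⟩)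
  · have hyD : fM i y ≠ ⊥ := fun h => by rw [h] at hlt; exact absurd hlt not_lt_bot
    have := (hsM i).2.2 y ⟨hyD, hB i y hyD⟩ (hy.trans (hsM i).2.1)
    exact absurd (cmp _ _ _ (hsM i).1.1 this) (not_le.2 hlt)
  · have hyD : fW j y ≠ ⊥ := fun h => by rw [h] at hlt; exact absurd hlt not_lt_bot
    have := (hsW j).2.2 y ⟨hyD, fun v => (hy v).trans ((hsW j).1.2 v)⟩ (hy.trans (hsW j).2.1)
    exact absurd (cmp _ _ _ (hsW j).1.1 this) (not_le.2 hlt)
  · have hy'D : fM i y' ≠ ⊥ := fun h => by rw [h] at h1; exact absurd h1 not_lt_bot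
    have hy''D : fW j y'' ≠ ⊥ := fun h => by rw [h] at h2; exact absurd h2 not_lt_bot
    have hT' : y' ∈ tdom B (fM i) := ⟨hy'D, hB i y' hy'D⟩
    have hT'' : y'' ∈ tdom B (fW j) := by
      refine ⟨hy''D, fun i' => ?_⟩
      by_cases h : i' = i
      · rw [h, ← h5]; exact hT'.2 j
      · exact (h4 i' h).trans ((hsM i').1.2 j)
    have hle1 : ∀ i j, x i j ≤ X' i j := fun i j => (hsM i).2.1 j
    have hle2 : ∀ i j, x i j ≤ B := fun i j => (hsM i).1.2 j
    have c1 : x i j = X' i j := by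
      by_contra hne
      have hlt : x i j < X' i j := lt_of_le_of_ne (hle1 i j) hne
      have := no_gain (hPM i) (X := X' i) (y := y') (hX0 i) (e := j) hlt hT' h3
      exact absurd (cmp _ _ _ (hsM i).1.1 this) (not_le.2 h1)
    have c2 : x i j = B := by
      by_contra hne
      have hlt : x i j < B := lt_of_le_of_ne (hle2 i j) hne
      have hYB : Y i j = B := by have := hXY i j; linarith
      have := no_gain (hPW j) (X := colW Y j) (y := y'') (fun i => hY0 i j) (e := i) (by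
        rw [← hxcol]
        change x i j < Y i j
        rw [hYB]; exact hlt) hT'' (fun i' hi' => by
          rw [← hxcol]
          exact h4 i' hi')
      rw [← hxcol] at this
      exact absurd (cmp _ _ _ (hsW j).1.1 this) (not_le.2 h2)
    have c3 : y' ≤ x i := by
      intro j'
      by_cases h : j' = j
      · rw [h, c2]; exact hT'.2 j
      · exact h3 j' h
    have := (hsM i).2.2 y' hT' (c3.trans (hsM i).2.1)
    exact absurd (cmp _ _ _ (hsM i).1.1 this) (not_le.2 h1)

end Market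

end SAQ
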