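import Pool.Agent.SAQ.Prog

/-!
# Query algorithms that need not have an a priori bound on the number of questions

Given `P : ℕ → Prog Q A (Option R)`, all asking at least one question, run
`P 0`, `P 1`, … until one of them returns `some r`, and return `r`.  As an `Alg`: `Prog.feed` feeds
a program with the answers of a list (the second case returns the result and the unused answers),
and after `h` answers we feed the program `P 0; P 1; …; P h.length` (`runF`) with them.
-/

namespace SAQ

/-- A query algorithm: from the list of the answers received so far (in order) it computes either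
the next question or the final result. -/
abbrev Alg (Q A R : Type) : Type := List A → Q ⊕ R

variable {Q A R S : Type}

/-- The first `n` answers received (all the answers, if it stops earlier). -/
def Alg.hist (s : Alg Q A R) (o : Q → A) : ℕ → List A
  | 0 => []
  | n + 1 => match s (Alg.hist s o n) with
    | Sum.inl q => Alg.hist s o n ++ [o q]
    | Sum.inr _ => Alg.hist s o n

/-- With the answers given by `o`, the algorithm stops with result `r` after exactly `n`
questions. -/
def Alg.Returns (s : Alg Q A R) (o : Q → A) (r : R) (n : ℕ) : Prop :=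
  (∀ m < n, ∃ q, s (s.hist o m) = Sum.inl q) ∧ s (s.hist o n) = Sum.inr r

namespace Prog

/-- The list of the answers received in a run. -/
def trans (o : Q → A) : Prog Q A R → List A
  | ret _ => []
  | ask q k => o q :: trans o (k (o q))

/-- Feed a program with the answers of a list. -/
def feed : Prog Q A R → List A → Q ⊕ (R × List A)
  | ret r, h => Sum.inr (r, h)
  | ask q _, [] => Sum.inl q
  | ask _ k, a :: h => feed (k a) h

theorem length_trans (o : Q → A) (p : Prog Q A R) : (p.trans o).length = p.cost o := by
  induction p with
  | ret r => rfl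
  | ask q k ih => simp [trans, ih]

theorem trans_bind (o : Q → A) (p : Prog Q A R) (f : R → Prog Q A S) :
    (p.bind f).trans o = p.trans o ++ (f (p.eval o)).trans o := by
  induction p with
  | ret r => simp [trans, bind]
  | ask q k ih => simp [trans, bind, ih]

theorem feed_full (o : Q → A) (p : Prog Q A R) (h : List A) :
    p.feed (p.trans o ++ h) = Sum.inr (p.eval o, h) := by
  induction p with
  | ret r => simp [trans, feed]
  | ask q k ih => simp [trans, feed, ih]

theorem feed_take (o : Q → A) (p : Prog Q A R) (m : ℕ) (hm : m < (p.trans o).length) :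
    ∃ q, p.feed ((p.trans o).take m) = Sum.inl q ∧
      (p.trans o).take (m + 1) = (p.trans o).take m ++ [o q] := by
  induction p generalizing m with
  | ret r => simp [trans] at hm
  | ask q k ih =>
    cases m with
    | zero => exact ⟨q, by simp [feed], by simp [trans]⟩
    | succ m =>
      have hm' : m < ((k (o q)).trans o).length := by
        simpa [trans] using hm
      obtain ⟨q', h1, h2⟩ := ih (o q) m hm'
      refine ⟨q', ?_, ?_⟩
      · simpa [trans, feed] using h1
      · simpa [trans] using h2

end Prog

open Prog

/-- What to do after `P k` has returned `x`. -/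
def contF (f : Prog Q A (Option R)) : Option R → Prog Q A (Option R)
  | some r => ret (some r)
  | none => f

/-- Run `P k`, `P (k+1)`, …, at most `F` of them, until one of them returns `some r`. -/
def runF (P : ℕ → Prog Q A (Option R)) : ℕ → ℕ → Prog Q A (Option R)
  | 0, _ => ret none
  | F + 1, k => (P k).bind (contF (runF P F (k + 1)))

theorem trans_runF_zero (P : ℕ → Prog Q A (Option R)) (o : Q → A) (F k : ℕ) (r : R)
    (h : (P k).eval o = some r) : (runF P (F + 1) k).trans o = (P k).trans o := by
  rw [runF, trans_bind, h]; simp [contF, Prog.trans]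

theorem trans_runF_succ (P : ℕ → Prog Q A (Option R)) (o : Q → A) (F k : ℕ)
    (h : (P k).eval o = none) :
    (runF P (F + 1) k).trans o = (P k).trans o ++ (runF P F (k + 1)).trans o := by
  rw [runF, trans_bind, h]; simp [contF]

theorem runF_full (P : ℕ → Prog Q A (Option R)) (o : Q → A) (r : R) (n : ℕ) :
    ∀ F k : ℕ, n + 1 ≤ F → (∀ i < n, (P (k + i)).eval o = none) → (P (k + n)).eval o = some r →
      (runF P F k).trans o = (runF P (n + 1) k).trans o ∧ (runF P F k).eval o = some r ∧
      (runF P F k).cost o = ∑ i ∈ Finset.range (n + 1), (P (k + i)).cost o := by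
  induction n with
  | zero =>
    intro F k hF _ h1
    obtain ⟨F, rfl⟩ : ∃ F', F = F' + 1 := ⟨F - 1, by omega⟩
    rw [add_zero] at h1
    refine ⟨?_, ?_, ?_⟩
    · rw [trans_runF_zero P o F k r h1, trans_runF_zero P o 0 k r h1]
    · rw [runF, eval_bind, h1]; simp [contF]
    · rw [runF, cost_bind, h1]; simp [contF]
  | succ n ih =>
    intro F k hF h0 h1
    obtain ⟨F, rfl⟩ : ∃ F', F = F' + 1 := ⟨F - 1, by omega⟩
    have hk : (P k).eval o = none := by simpa using h0 0 (by omega)
    have hrec := ih F (k + 1) (by omega)
      (fun i hi => by have := h0 (i + 1) (by omega); rwa [show k + (i + 1) = k + 1 + i by ring] at this)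
      (by rwa [show k + (n + 1) = k + 1 + n by ring] at h1)
    refine ⟨?_, ?_, ?_⟩
    · rw [trans_runF_succ P o F k hk, trans_runF_succ P o (n + 1) k hk, hrec.1]
    · rw [runF, eval_bind, hk]; simpa [contF] using hrec.2.1
    · rw [runF, cost_bind, hk, Finset.sum_range_succ']
      simp only [contF, hrec.2.2, add_zero]
      rw [add_comm]
      congr 1
      refine Finset.sum_congr rfl (fun i _ => ?_)
      rw [show k + (i + 1) = k + 1 + i by ring]

theorem runF_prefix (P : ℕ → Prog Q A (Option R)) (hP : ∀ k o, 1 ≤ (P k).cost o) (o : Q → A)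
    (r : R) : ∀ F n k : ℕ, (∀ i < n, (P (k + i)).eval o = none) →
      (P (k + n)).eval o = some r →
      (runF P F k).trans o <+: (runF P (n + 1) k).trans o ∧
      ∀ m < F, m < ((runF P (n + 1) k).trans o).length → m < ((runF P F k).trans o).length := by
  intro F
  induction F with
  | zero =>
    intro n k _ _
    exact ⟨by simp [runF, Prog.trans], fun m hm => absurd hm (by omega)⟩
  | succ F ih =>
    intro n k h0 h1
    cases n with
    | zero =>
      rw [add_zero] at h1
      rw [trans_runF_zero P o F k r h1, trans_runF_zero P o 0 k r h1]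
      exact ⟨List.prefix_rfl, fun m _ hm => hm⟩
    | succ n =>
      have hk : (P k).eval o = none := by simpa using h0 0 (by omega)
      have hrec := ih n (k + 1)
        (fun i hi => by
          have := h0 (i + 1) (by omega); rwa [show k + (i + 1) = k + 1 + i by ring] at this)
        (by rwa [show k + (n + 1) = k + 1 + n by ring] at h1)
      rw [trans_runF_succ P o F k hk, trans_runF_succ P o (n + 1) k hk]
      refine ⟨(List.prefix_append_right_inj _).2 hrec.1, fun m hm hm' => ?_⟩
      have hc : 1 ≤ ((P k).trans o).length := by rw [length_trans]; exact hP k o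
      rw [List.length_append] at hm' ⊢
      by_cases hmc : m < ((P k).trans o).length
      · omega
      · have := hrec.2 (m - ((P k).trans o).length) (by omega) (by omega)
        omega

/-- The algorithm. -/
def algF (P : ℕ → Prog Q A (Option R)) (q0 : Q) : Alg Q A R := fun h =>
  match (runF P (h.length + 1) 0).feed h with
  | Sum.inl q => Sum.inl q
  | Sum.inr (some r, _) => Sum.inr r
  | Sum.inr (none, _) => Sum.inl q0

theorem alg_of_family (P : ℕ → Prog Q A (Option R)) (hP : ∀ k o, 1 ≤ (P k).cost o) :
    ∃ s : Alg Q A R, ∀ (o : Q → A) (N : ℕ) (r : R), (∀ k < N, (P k).eval o = none) →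
      (P N).eval o = some r →
      s.Returns o r (∑ k ∈ Finset.range (N + 1), (P k).cost o) := by
  have hQ : Nonempty Q := by
    by_contra hne
    rw [not_nonempty_iff] at hne
    have h := hP 0 (fun q => (hne.false q).elim)
    cases hp : P 0 with
    | ret r => rw [hp] at h; simp at h
    | ask q k => exact hne.false q
  obtain ⟨q0⟩ := hQ
  refine ⟨algF P q0, fun o N r h0 h1 => ?_⟩
  set T := (runF P (N + 1) 0).trans o with hT
  have h0' : ∀ i < N, (P (0 + i)).eval o = none := fun i hi => by rw [zero_add]; exact h0 i hi
  have h1' : (P (0 + N)).eval o = some r := by rw [zero_add]; exact h1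
  have hfull := runF_full P o r N (N + 1) 0 le_rfl h0' h1'
  have hlen : T.length = ∑ k ∈ Finset.range (N + 1), (P k).cost o := by
    rw [hT, length_trans, hfull.2.2]
    simp
  have hlenN : N + 1 ≤ T.length := by
    rw [hlen]
    calc N + 1 = ∑ _k ∈ Finset.range (N + 1), 1 := by simp
      _ ≤ _ := Finset.sum_le_sum (fun k _ => hP k o)
  -- the step
  have hstep : ∀ m < T.length, ∃ q, algF P q0 (T.take m) = Sum.inl q ∧
      T.take (m + 1) = T.take m ++ [o q] := by
    intro m hm
    have hl : (T.take m).length = m := by rw [List.length_take]; omega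
    obtain ⟨hpre, hlt⟩ := runF_prefix P hP o r (m + 1) N 0 h0' h1'
    have hm2 := hlt m (by omega) hm
    obtain ⟨q, hq1, hq2⟩ := feed_take o (runF P (m + 1) 0) m hm2
    have e1 : ∀ j ≤ ((runF P (m + 1) 0).trans o).length,
        T.take j = ((runF P (m + 1) 0).trans o).take j := by
      intro j hj
      obtain ⟨t, ht⟩ := hpre
      rw [hT, ← ht, List.take_append_of_le_length hj]
    refine ⟨q, ?_, ?_⟩
    · unfold algF
      rw [hl, e1 m hm2.le, hq1]
    · rw [e1 m hm2.le, e1 (m + 1) (by omega), hq2]
  have hhist : ∀ m ≤ T.length, (algF P q0).hist o m = T.take m := by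
    intro m
    induction m with
    | zero => intro _; simp [Alg.hist]
    | succ m ih =>
      intro hm
      obtain ⟨q, hq1, hq2⟩ := hstep m (by omega)
      rw [Alg.hist, ih (by omega), hq1, hq2]
  rw [← hlen]
  refine ⟨fun m hm => ?_, ?_⟩
  · obtain ⟨q, hq1, _⟩ := hstep m hm
    exact ⟨q, by rw [hhist m hm.le]; exact hq1⟩
  · rw [hhist _ le_rfl, List.take_length]
    unfold algF
    have hF := runF_full P o r N (T.length + 1) 0 (by omega) h0' h1'
    have := feed_full o (runF P (T.length + 1) 0) []
    rw [List.append_nil, hF.1, ← hT, hF.2.1] at this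
    rw [this]

end SAQ
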