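import Pool.Agent.SAQ.Defs

/-!
# Definitions for the reduction of ARRIVAL to stable allocations
-/

namespace SAQ

/-! ### Switch graphs and the run of the train -/

/-- A switch graph: the switch at `v` first points to `s false v`, then to `s true v`, and so on
alternately; the train starts at `o` and wants to reach `d`. -/
structure SG (V : Type) where
  s : Bool → V → V
  o : V
  d : V

namespace SG

variable {V : Type} [DecidableEq V] (G : SG V)

/-- One step of the train: the state is the position of the train and the positions of all
switches. -/
def step (p : V × (V → Bool)) : V × (V → Bool) :=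
  (G.s (p.2 p.1) p.1, Function.update p.2 p.1 (!(p.2 p.1)))

/-- The state after `t` steps. -/
def run : ℕ → V × (V → Bool)
  | 0 => (G.o, fun _ => false)
  | t + 1 => G.step (run t)

/-- The train arrives at `d`. -/
def Arrives : Prop := ∃ t, (G.run t).1 = G.d

omit [DecidableEq V] in
/-- There is a directed path from `v` to `d`. -/
def Reach (v : V) : Prop := Relation.ReflTransGen (fun a b => ∃ i, G.s i a = b) v G.d

omit [DecidableEq V] in
/-- The vertices different from `d` from which `d` can be reached by a directed path. -/
def Live (v : V) : Prop := v ≠ G.d ∧ G.Reach v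

/-- Subdivide every arc `(v, i)` by the new vertex `inr (v, i)`. -/
def sub : SG (V ⊕ V × Bool) where
  s i x := match x with
    | Sum.inl v => Sum.inr (v, i)
    | Sum.inr (v, j) => Sum.inl (G.s j v)
  o := Sum.inl G.o
  d := Sum.inl G.d

end SG

/-! ### Separable value functions with upper bounds and one bound on the total -/

open Classical in
/-- The function `y ↦ ∑ a, φ a (y a)` on `{0 ≤ y ≤ u, ∑ y ≤ C}`. -/
noncomputable def sep {A : Type} [Fintype A] (u : A → ℤ) (C : ℤ) (φ : A → ℤ → ℝ) (y : A → ℤ) :
    WithBot ℝ :=
  if (∀ a, 0 ≤ y a ∧ y a ≤ u a) ∧ ∑ a, y a ≤ C then ((∑ a, φ a (y a) : ℝ) : WithBot ℝ) else ⊥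

/-! ### The market of a switch graph.  `M` is the set of vertices, `W` the set of arcs -/

section Market

variable {V : Type} [Fintype V] [DecidableEq V] (G : SG V) (L : ℕ)

open Classical in
/-- The value function of a vertex.  A live vertex `v` may use at most `L` units of each arc
entering `v` from a live vertex and of each of its two arcs `(v, i)`, in total at most `2 L` units
(one unit less if `v = o`); it wants the units of the entering arcs first, and balances the units
of the arcs `(v, false)`, `(v, true)`.  The other vertices want as much as possible of the
entering arcs. -/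
noncomputable def fV (v : V) : (V × Bool → ℤ) → WithBot ℝ :=
  if G.Live v then
    sep (fun a => if G.Live a.1 ∧ (G.s a.2 a.1 = v ∨ a.1 = v) then (L : ℤ) else 0)
      (2 * L - if v = G.o then 1 else 0)
      (fun a k => if a.1 = v then
        (if a.2 then -((L : ℝ) - k) ^ 2 - (L - k) else -((L : ℝ) - k) ^ 2) else (2 * L + 1) * k)
  else
    sep (fun a => if G.Live a.1 ∧ G.s a.2 a.1 = v then (L : ℤ) else 0)
      (2 * Fintype.card V * L) (fun _ k => k)

open Classical in
/-- The value function of an arc `a = (v, i)` with `v` live: it may use at most `L` units of `v`
and of its head together, and prefers the units of `v`.  The other arcs do nothing. -/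
noncomputable def fA (a : V × Bool) : (V → ℤ) → WithBot ℝ :=
  sep (fun m => if G.Live a.1 ∧ (m = a.1 ∨ m = G.s a.2 a.1) then (L : ℤ) else 0) L
    (fun m k => if m = a.1 then 2 * k else k)

end Market

end SAQ
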