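import Pool.Agent.SAQ.ArrStable

/-!
# ARRIVAL reduces to stable allocations with separable quadratic value functions

For every switch graph `G` on a finite set `V` (an instance of the ARRIVAL problem) the market of
the subdivided switch graph satisfies all hypotheses of the problem, with `|E| = 18 |V|^2` and all
entries at most `L = 2^(3 |V| + 1)`, and every stable allocation of it tells whether the train
reaches its destination.
-/

namespace SAQ.ArrivalReduction

open SAQ

theorem result (V : Type) [Fintype V] [DecidableEq V] (G : SG V) (hod : G.o ≠ G.d) (L : ℕ)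
    (hL : L = 2 ^ (3 * Fintype.card V + 1)) :
    (∀ v, CondA (fV G.sub L v) ∧ MNatConcave (fV G.sub L v)) ∧
    (∀ a, CondA (fA G.sub L a) ∧ MNatConcave (fA G.sub L a)) ∧
    (∀ v y, fV G.sub L v y ≠ ⊥ → ∀ a, y a ≤ L) ∧
    ∀ x, Stable (fV G.sub L) (fA G.sub L) x → (G.Arrives ↔ ∑ a, x (Sum.inl G.d) a = 1) := by
  classical
  have hloop : ∀ v i, G.sub.s i v ≠ v := by
    intro v i
    rcases v with v | ⟨v, j⟩ <;> simp [SG.sub]
  have hcard : 2 ^ (Fintype.card (V ⊕ V × Bool) + 1) ≤ L := by
    rw [hL]
    refine Nat.pow_le_pow_right (by norm_num) ?_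
    simp only [Fintype.card_sum, Fintype.card_prod, Fintype.card_bool]
    omega
  have hL1 : (1 : ℤ) ≤ L := by
    have : 1 ≤ L := by rw [hL]; exact Nat.one_le_two_pow
    exact_mod_cast this
  refine ⟨fun v => ?_, fun a => ?_, fun v y hy a => ?_, fun x hx => ?_⟩
  · by_cases hv : G.sub.Live v
    · rw [fV_live hv]
      refine ⟨sep_condA _ (fun a => ?_) ?_, sep_mnat _ _ (fun a k => ?_)⟩
      · split_ifs <;> omega
      · split_ifs <;> omega
      · split_ifs <;> push_cast <;> nlinarith
    · rw [fV_dead hv]
      refine ⟨sep_condA _ (fun a => ?_) (by positivity), sep_mnat _ _ (fun a k => ?_)⟩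
      · split_ifs <;> omega
      · push_cast; linarith
  · rw [fA]
    refine ⟨sep_condA _ (fun a => ?_) (by positivity), sep_mnat _ _ (fun a k => ?_)⟩
    · split_ifs <;> omega
    · split_ifs <;> push_cast <;> linarith
  · by_cases hv : G.sub.Live v
    · rw [fV_live hv, sep_nb] at hy
      refine (hy.1 a).2.trans ?_
      split_ifs <;> omega
    · rw [fV_dead hv, sep_nb] at hy
      refine (hy.1 a).2.trans ?_
      split_ifs <;> omega
  · have hflow := flow_of_stable hloop hcard hx
    have hod' : G.sub.o ≠ G.sub.d := by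
      intro h
      exact hod (Sum.inl.inj h)
    have h1 := arrives_iff hod' hflow
    rw [← arrives_sub, h1]
    have h2 := row_sum hloop hx (Sum.inl G.d)
    have h3 : ∀ i, x (Sum.inl G.d) (Sum.inl G.d, i) = 0 := fun i =>
      x_zero hx (fun h => h.1.1 rfl)
    rw [h2, h3, h3, inflow]
    simp only [add_zero]
    rfl

end SAQ.ArrivalReduction
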