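import Pool.Agent.SAQ.ArrDefs

/-!
# Switching flows certify the destination of the train

BLUEPRINT.  Let `p t a` be the number of `t' < t` with position `a.1` at time `t'` and switch
`a.2` at `a.1` (so arc `a` is used in step `t'`).
As long as the train was at live vertices at all times `< t`: for every `v`,
`∑_{a : head a = v} p t a + [v = o] = p t (v,false) + p t (v,true) + [position at t is v]`, the
switch at `v` is `false` iff `p t (v,false) = p t (v,true)` and `true` iff
`p t (v,false) = p t (v,true) + 1`.
Claim: `p t ≤ b`.  Induction: if the train is at the live vertex `v` and is about to use `a` and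
`p t a = b a` then, by the switch rule for `b`, `b (v,false) + b (v,true) = p t (v,false) +
p t (v,true)` (check the two cases; use `p t ≤ b`), which is
`∑_in p t + [v = o] - 1 < ∑_in b + [v = o]`, contradicting `cons`.
So the train leaves the live vertices after at most `∑ b` steps (`t = ∑_a p t a`); let `e` be the
first nonlive vertex.  If `e = d` the train arrives (`o` live or `o ≠ d` ensures that a last arc
`a` with head `d` was used), and `b a ≥ 1`, so the sum over arcs into `d` is `1` (it is `≤ 1` by
`hle`).  If `e ≠ d` then `d` is not reachable from `e`, so the train, which moves along arcs, never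
arrives (before, it was at live vertices, which are `≠ d`); if some arc was used then an arc into
`e` has `b ≥ 1`, so by `hle` the arcs into `d` have sum `0`; if `o` itself is not live then all `b`
vanish into nonlive vertices by `hle` (the right side is then `0`).
-/

namespace SAQ

variable {V : Type} [Fintype V] [DecidableEq V]

open Classical in
/-- A switching flow on the live part of a switch graph. -/
structure IsFlow (G : SG V) (b : V × Bool → ℤ) : Prop where
  nonneg : ∀ a, 0 ≤ b a
  dead : ∀ a, ¬ G.Live a.1 → b a = 0
  cons : ∀ v, G.Live v → ∑ a, (if G.s a.2 a.1 = v then b a else 0) + (if v = G.o then 1 else 0) =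
    b (v, false) + b (v, true)
  switch : ∀ v, G.Live v → b (v, true) ≤ b (v, false) ∧ b (v, false) ≤ b (v, true) + 1

open Classical in
/-- The total into the nonlive vertices. -/
theorem flow_sinks {G : SG V} {b : V × Bool → ℤ} (h : IsFlow G b) :
    ∑ a, (if G.Live (G.s a.2 a.1) then 0 else b a) = if G.Live G.o then 1 else 0 := by
  have h1 : ∑ v, (if G.Live v then (∑ a, (if G.s a.2 a.1 = v then b a else 0) +
      (if v = G.o then (1 : ℤ) else 0)) else 0) =
      ∑ v, (if G.Live v then b (v, false) + b (v, true) else 0) := by
    refine Finset.sum_congr rfl fun v _ => ?_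
    by_cases hv : G.Live v
    · rw [if_pos hv, if_pos hv]
      exact h.cons v hv
    · rw [if_neg hv, if_neg hv]
  have h2 : ∑ v, (if G.Live v then b (v, false) + b (v, true) else 0) = ∑ a, b a := by
    rw [Fintype.sum_prod_type]
    refine Finset.sum_congr rfl fun v _ => ?_
    rw [Fintype.sum_bool]
    split_ifs with hv
    · ring
    · rw [h.dead (v, false) hv, h.dead (v, true) hv]
      rfl
  have h3 : ∑ v, (if G.Live v then (∑ a, (if G.s a.2 a.1 = v then b a else 0) +
      (if v = G.o then (1 : ℤ) else 0)) else 0) =
      ∑ a, (if G.Live (G.s a.2 a.1) then b a else 0) + (if G.Live G.o then 1 else 0) := by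
    have e1 : ∀ v, (if G.Live v then (∑ a, (if G.s a.2 a.1 = v then b a else 0) +
        (if v = G.o then (1 : ℤ) else 0)) else 0) =
        (∑ a, (if G.Live v ∧ G.s a.2 a.1 = v then b a else 0)) +
          (if v = G.o then (if G.Live v then (1 : ℤ) else 0) else 0) := by
      intro v
      by_cases hv : G.Live v
      · simp [hv]
      · simp [hv]
    rw [Finset.sum_congr rfl fun v _ => e1 v, Finset.sum_add_distrib, Finset.sum_comm]
    congr 1
    · refine Finset.sum_congr rfl fun a _ => ?_
      rw [Finset.sum_eq_single (G.s a.2 a.1)]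
      · simp
      · intro v _ hne
        rw [if_neg]
        rintro ⟨_, h'⟩
        exact hne h'.symm
      · intro h'
        exact absurd (Finset.mem_univ _) h'
    · rw [Finset.sum_ite_eq' Finset.univ G.o]
      simp
  have h4 : ∑ a, b a = ∑ a, (if G.Live (G.s a.2 a.1) then b a else 0) +
      ∑ a, (if G.Live (G.s a.2 a.1) then 0 else b a) := by
    rw [← Finset.sum_add_distrib]
    refine Finset.sum_congr rfl fun a _ => ?_
    split_ifs <;> simp
  rw [h3, h2, h4] at h1
  linarith

/-- The number of times an arc is used in the first steps. -/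
def cnt (G : SG V) : ℕ → V × Bool → ℤ
  | 0 => fun _ => 0
  | t + 1 => fun a => cnt G t a + if a = ((G.run t).1, (G.run t).2 (G.run t).1) then 1 else 0

lemma cnt_nonneg (G : SG V) (t : ℕ) (a : V × Bool) : 0 ≤ cnt G t a := by
  induction t with
  | zero => exact le_rfl
  | succ t ih =>
    simp only [cnt]
    split_ifs <;> omega

lemma cnt_sum (G : SG V) (t : ℕ) : ∑ a, cnt G t a = t := by
  induction t with
  | zero => simp [cnt]
  | succ t ih =>
    simp only [cnt]
    rw [Finset.sum_add_distrib, ih, Finset.sum_ite_eq' Finset.univ]
    simp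

omit [Fintype V] in
lemma cnt_switch (G : SG V) (t : ℕ) (v : V) :
    ((G.run t).2 v = false → cnt G t (v, false) = cnt G t (v, true)) ∧
      ((G.run t).2 v = true → cnt G t (v, false) = cnt G t (v, true) + 1) := by
  induction t with
  | zero =>
    refine ⟨fun _ => rfl, fun h => ?_⟩
    exact absurd h (by simp [SG.run])
  | succ t ih =>
    simp only [cnt, SG.run, SG.step]
    by_cases hv : v = (G.run t).1
    · subst hv
      rw [Function.update_self]
      rcases hs : (G.run t).2 (G.run t).1 with _ | _
      · have := ih.1 hs
        simp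
        omega
      · have := ih.2 hs
        simp
        omega
    · rw [Function.update_of_ne hv]
      have h1 : ∀ i, ¬ ((v, i) = ((G.run t).1, (G.run t).2 (G.run t).1)) := by
        intro i h
        exact hv (Prod.ext_iff.1 h).1
      rw [if_neg (h1 _), if_neg (h1 _)]
      simpa using ih

lemma cnt_cons (G : SG V) (t : ℕ) (v : V) :
    ∑ a, (if G.s a.2 a.1 = v then cnt G t a else 0) + (if v = G.o then 1 else 0) =
      cnt G t (v, false) + cnt G t (v, true) + (if (G.run t).1 = v then 1 else 0) := by
  induction t with
  | zero =>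
    simp [cnt, SG.run, eq_comm]
  | succ t ih =>
    set q := (G.run t).1 with hq
    set i := (G.run t).2 q with hi
    have e1 : ∑ a, (if G.s a.2 a.1 = v then cnt G (t + 1) a else 0) =
        ∑ a, (if G.s a.2 a.1 = v then cnt G t a else 0) + (if G.s i q = v then 1 else 0) := by
      have e2 : ∀ a : V × Bool, (if G.s a.2 a.1 = v then cnt G (t + 1) a else 0) =
          (if G.s a.2 a.1 = v then cnt G t a else 0) +
            (if a = (q, i) then (if G.s a.2 a.1 = v then 1 else 0) else 0) := by
        intro a
        simp only [cnt, ← hq, ← hi]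
        split_ifs <;> simp
      rw [Finset.sum_congr rfl fun a _ => e2 a, Finset.sum_add_distrib,
        Finset.sum_ite_eq' Finset.univ]
      simp
    have e3 : cnt G (t + 1) (v, false) + cnt G (t + 1) (v, true) =
        cnt G t (v, false) + cnt G t (v, true) + (if q = v then 1 else 0) := by
      simp only [cnt, ← hq, ← hi]
      by_cases hv : q = v
      · rw [if_pos hv]
        rcases i with _ | _
        · simp [hv]; ring
        · simp [hv]; ring
      · have hv' : ¬ v = q := fun h => hv h.symm
        simp [hv, hv']
    have e4 : (G.run (t + 1)).1 = G.s i q := rfl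
    rw [e1, e3, e4]
    linarith

lemma cnt_le {G : SG V} {b : V × Bool → ℤ} (h : IsFlow G b) (t : ℕ)
    (hl : ∀ t' < t, G.Live (G.run t').1) : ∀ a, cnt G t a ≤ b a := by
  classical
  induction t with
  | zero => exact fun a => h.nonneg a
  | succ t ih =>
    have ih' := ih fun t' ht' => hl t' (by omega)
    intro a
    simp only [cnt]
    split_ifs with ha
    · by_contra hcon
      push Not at hcon
      set v := (G.run t).1 with hv
      have hlv : G.Live v := hl t (by omega)
      have h1 := cnt_cons G t v
      rw [if_pos hv.symm] at h1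
      have h2 := h.cons v hlv
      have h3 := h.switch v hlv
      have h4 := cnt_switch G t v
      have hf := ih' (v, false)
      have ht := ih' (v, true)
      have h5 : ∑ a, (if G.s a.2 a.1 = v then cnt G t a else 0) ≤
          ∑ a, (if G.s a.2 a.1 = v then b a else 0) := by
        refine Finset.sum_le_sum fun a _ => ?_
        split_ifs
        · exact ih' a
        · exact le_rfl
      rcases hs : (G.run t).2 v with _ | _
      · rw [hs] at ha
        subst ha
        have h6 := h4.1 hs
        omega
      · rw [hs] at ha
        subst ha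
        have h6 := h4.2 hs
        omega
    · simpa using ih' a

lemma exists_nonlive {G : SG V} {b : V × Bool → ℤ} (h : IsFlow G b) :
    ∃ T, ¬ G.Live (G.run T).1 ∧ ∀ t < T, G.Live (G.run t).1 := by
  classical
  have hex : ∃ T, ¬ G.Live (G.run T).1 := by
    by_contra hcon
    push Not at hcon
    obtain ⟨t, ht⟩ : ∃ t : ℕ, ∑ a, b a < t := by
      refine ⟨(∑ a, b a).toNat + 1, ?_⟩
      push_cast
      have := Int.self_le_toNat (∑ a, b a)
      omega
    have h1 := cnt_le h t fun t' _ => hcon t'
    have h2 : ∑ a, cnt G t a ≤ ∑ a, b a := Finset.sum_le_sum fun a _ => h1 a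
    rw [cnt_sum] at h2
    omega
  refine ⟨Nat.find hex, Nat.find_spec hex, fun t ht => ?_⟩
  by_contra hcon
  exact Nat.find_min hex ht hcon

omit [Fintype V] [DecidableEq V] in
lemma not_live_d (G : SG V) : ¬ G.Live G.d := fun h => h.1 rfl

/-- The last arc used is positive. -/
lemma last_arc {G : SG V} {b : V × Bool → ℤ} (h : IsFlow G b) {T : ℕ}
    (hl : ∀ t < T, G.Live (G.run t).1) (hT : 0 < T) :
    ∃ a : V × Bool, G.s a.2 a.1 = (G.run T).1 ∧ 1 ≤ b a := by
  obtain ⟨t, rfl⟩ : ∃ t, T = t + 1 := ⟨T - 1, by omega⟩
  refine ⟨((G.run t).1, (G.run t).2 (G.run t).1), rfl, ?_⟩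
  refine le_trans ?_ (cnt_le h (t + 1) hl _)
  simp only [cnt]
  rw [if_pos trivial]
  have := cnt_nonneg G t ((G.run t).1, (G.run t).2 (G.run t).1)
  omega

open Classical in
lemma sum_into_le {G : SG V} {b : V × Bool → ℤ} (h : IsFlow G b) (e : V) (he : ¬ G.Live e) :
    ∑ a, (if G.s a.2 a.1 = e then b a else 0) ≤
      ∑ a, (if G.Live (G.s a.2 a.1) then 0 else b a) := by
  refine Finset.sum_le_sum fun a _ => ?_
  have := h.nonneg a
  by_cases h1 : G.s a.2 a.1 = e
  · rw [if_pos h1, h1, if_neg he]
  · rw [if_neg h1]
    split_ifs <;> omega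

open Classical in
theorem arrives_iff {G : SG V} (hod : G.o ≠ G.d) {b : V × Bool → ℤ} (h : IsFlow G b) :
    G.Arrives ↔ ∑ a, (if G.s a.2 a.1 = G.d then b a else 0) = 1 := by
  have hfs := flow_sinks h
  have hle := sum_into_le h G.d (not_live_d G)
  obtain ⟨T, hT, hl⟩ := exists_nonlive h
  constructor
  · rintro ⟨t, ht⟩
    have hTt : T ≤ t := by
      by_contra hcon
      push Not at hcon
      have := hl t hcon
      rw [ht] at this
      exact not_live_d G this
    have he : (G.run T).1 = G.d := by
      by_contra hne
      have hnr : ¬ G.Reach (G.run T).1 := fun hr => hT ⟨hne, hr⟩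
      have hall : ∀ t, T ≤ t → ¬ G.Reach (G.run t).1 := by
        intro t htT
        induction t, htT using Nat.le_induction with
        | base => exact hnr
        | succ t _ ih =>
          intro hr
          exact ih (Relation.ReflTransGen.head ⟨(G.run t).2 (G.run t).1, rfl⟩ hr)
      refine hall t hTt ?_
      rw [ht]
      exact Relation.ReflTransGen.refl
    have hT0 : 0 < T := by
      rcases Nat.eq_zero_or_pos T with h0 | h0
      · rw [h0] at he
        exact absurd he hod
      · exact h0
    obtain ⟨a, ha, hba⟩ := last_arc h hl hT0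
    rw [he] at ha
    have h1 : b a ≤ ∑ a, (if G.s a.2 a.1 = G.d then b a else 0) := by
      have h2 := Finset.single_le_sum (f := fun a => if G.s a.2 a.1 = G.d then b a else 0)
        (fun a _ => by
          have := h.nonneg a
          split_ifs <;> omega) (Finset.mem_univ a)
      simpa [ha] using h2
    have h3 : (if G.Live G.o then (1 : ℤ) else 0) ≤ 1 := by split_ifs <;> omega
    omega
  · intro hsum
    have ho : G.Live G.o := by
      by_contra hcon
      rw [if_neg hcon] at hfs
      omega
    rw [if_pos ho] at hfs
    have hT0 : 0 < T := by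
      rcases Nat.eq_zero_or_pos T with h0 | h0
      · rw [h0] at hT
        exact absurd ho hT
      · exact h0
    obtain ⟨a, ha, hba⟩ := last_arc h hl hT0
    refine ⟨T, ?_⟩
    by_contra hne
    have hlt : ∑ a, (if G.s a.2 a.1 = G.d then b a else 0) <
        ∑ a, (if G.Live (G.s a.2 a.1) then 0 else b a) := by
      refine Finset.sum_lt_sum (fun a _ => ?_) ⟨a, Finset.mem_univ a, ?_⟩
      · have := h.nonneg a
        by_cases h1 : G.s a.2 a.1 = G.d
        · rw [if_pos h1, h1, if_neg (not_live_d G)]
        · rw [if_neg h1]
          split_ifs <;> omega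
      · rw [ha, if_neg hne, if_neg hT]
        omega
    omega

omit [Fintype V] in
lemma sub_run (G : SG V) (t : ℕ) :
    (G.sub.run (2 * t)).1 = Sum.inl (G.run t).1 ∧
      ∀ v, (G.sub.run (2 * t)).2 (Sum.inl v) = (G.run t).2 v := by
  induction t with
  | zero => exact ⟨rfl, fun _ => rfl⟩
  | succ t ih =>
    obtain ⟨h1, h2⟩ := ih
    have e1 : G.sub.run (2 * (t + 1)) = G.sub.step (G.sub.step (G.sub.run (2 * t))) := rfl
    rw [e1]
    generalize hx : G.sub.run (2 * t) = x at h1 h2 ⊢
    obtain ⟨x1, x2⟩ := x
    simp only at h1 h2
    subst h1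
    have e2 : G.run (t + 1) = G.step (G.run t) := rfl
    rw [e2]
    constructor
    · simp [SG.step, SG.sub, h2]
    · intro v
      by_cases hv : v = (G.run t).1
      · subst hv
        simp [SG.step, SG.sub, h2]
      · simp [SG.step, SG.sub, h2, hv]

/-- Subdividing does not change the answer. -/
theorem arrives_sub (G : SG V) : G.sub.Arrives ↔ G.Arrives := by
  constructor
  · rintro ⟨t, ht⟩
    rcases Nat.even_or_odd' t with ⟨k, hk | hk⟩
    · refine ⟨k, ?_⟩
      have h1 := (sub_run G k).1
      rw [← hk, ht] at h1
      exact (Sum.inl_injective h1).symm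
    · exfalso
      have h1 := (sub_run G k).1
      have e1 : G.sub.run t = G.sub.step (G.sub.run (2 * k)) := by rw [hk]; rfl
      rw [e1] at ht
      generalize hx : G.sub.run (2 * k) = x at h1 ht
      obtain ⟨x1, x2⟩ := x
      simp only at h1
      subst h1
      simp [SG.step, SG.sub] at ht
  · rintro ⟨t, ht⟩
    refine ⟨2 * t, ?_⟩
    rw [(sub_run G t).1, ht]
    rfl

end SAQ
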