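import Pool.Agent.SAQ.ArrDefs

/-!
# Separable concave functions are M♮-concave

BLUEPRINT.  `sep_condA`: immediate.  `sep_mnat`: let `x u > y u`.  If `x v < y v` for some `v` take
this `v`: both new vectors are in the domain (the totals do not change), and the sum changes only
in the terms `u`, `v`, where `φ (p) + φ (q) ≤ φ (p - 1) + φ (q + 1)` for `p > q` by concavity
(`φ (k+1) - φ k` is antitone in `k`).  Otherwise `y ≤ x` and `v = none` works
(`y + e_u ≤ x`).
-/

namespace SAQ

variable {A : Type} [Fintype A] [DecidableEq A]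

omit [DecidableEq A] in
theorem sep_ne_bot {u : A → ℤ} {C : ℤ} {φ : A → ℤ → ℝ} {y : A → ℤ} :
    sep u C φ y ≠ ⊥ ↔ (∀ a, 0 ≤ y a ∧ y a ≤ u a) ∧ ∑ a, y a ≤ C := by
  unfold sep
  by_cases h : (∀ a, 0 ≤ y a ∧ y a ≤ u a) ∧ ∑ a, y a ≤ C
  · rw [if_pos h]
    exact ⟨fun _ => h, fun _ => WithBot.coe_ne_bot⟩
  · rw [if_neg h]
    exact ⟨fun h' => absurd rfl h', fun h' => absurd h' h⟩

omit [DecidableEq A] in
theorem sep_eq {u : A → ℤ} {C : ℤ} {φ : A → ℤ → ℝ} {y : A → ℤ}
    (h : (∀ a, 0 ≤ y a ∧ y a ≤ u a) ∧ ∑ a, y a ≤ C) :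
    sep u C φ y = ((∑ a, φ a (y a) : ℝ) : WithBot ℝ) := by
  unfold sep
  rw [if_pos h]

theorem sep_condA {u : A → ℤ} {C : ℤ} (φ : A → ℤ → ℝ) (hu : ∀ a, 0 ≤ u a) (hC : 0 ≤ C) :
    CondA (sep u C φ) where
  bdd := by
    refine ⟨(∑ a, u a).toNat, fun y hy v => ?_⟩
    rw [sep_ne_bot] at hy
    have h1 := hy.1 v
    have h2 : u v ≤ ∑ a, u a := Finset.single_le_sum (fun a _ => hu a) (Finset.mem_univ v)
    rw [abs_of_nonneg h1.1]
    have h3 := Int.self_le_toNat (∑ a, u a)
    omega
  zero_mem := by
    rw [sep_ne_bot]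
    refine ⟨fun a => ⟨le_rfl, hu a⟩, ?_⟩
    simpa using hC
  nonneg := by
    intro y hy a
    rw [sep_ne_bot] at hy
    exact (hy.1 a).1
  hered := by
    intro y y' hy h0 hle
    rw [sep_ne_bot] at hy ⊢
    refine ⟨fun a => ⟨h0 a, (hle a).trans (hy.1 a).2⟩, ?_⟩
    exact (Finset.sum_le_sum fun a _ => hle a).trans hy.2

omit [Fintype A] [DecidableEq A] in
theorem arrsep_concave {φ : A → ℤ → ℝ}
    (hφ : ∀ a k, φ a (k + 1) + φ a (k - 1) ≤ 2 * φ a k) (a : A) {p q : ℤ} (h : q < p) :
    φ a p + φ a q ≤ φ a (p - 1) + φ a (q + 1) := by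
  have hanti : Antitone (fun k => φ a (k + 1) - φ a k) := by
    apply antitone_int_of_succ_le
    intro k
    have := hφ a (k + 1)
    have e : k + 1 - 1 = k := by ring
    rw [e] at this
    linarith
  have h1 := hanti (show q ≤ p - 1 by omega)
  simp only [sub_add_cancel] at h1
  linarith

omit [Fintype A] in
theorem arrsep_ev_apply (u a : A) : ev (some u) a = if u = a then 1 else 0 := by
  simp [ev]

theorem arrsep_sum_ev (u : A) : ∑ a, ev (some u) a = 1 := by
  simp [ev]

theorem sep_mnat (u : A → ℤ) (C : ℤ) {φ : A → ℤ → ℝ}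
    (hφ : ∀ a k, φ a (k + 1) + φ a (k - 1) ≤ 2 * φ a k) : MNatConcave (sep u C φ) := by
  intro x y hx hy b hb
  rw [sep_ne_bot] at hx hy
  by_cases hw : ∃ w, x w < y w
  · obtain ⟨w, hw⟩ := hw
    have hbw : b ≠ w := by rintro rfl; omega
    refine ⟨some w, fun w' hw' => ?_, ?_⟩
    · rw [← Option.some.inj hw']; exact hw
    have hx' : (∀ a, 0 ≤ (x - ev (some b) + ev (some w)) a ∧ (x - ev (some b) + ev (some w)) a ≤ u a)
        ∧ ∑ a, (x - ev (some b) + ev (some w)) a ≤ C := by
      refine ⟨fun a => ?_, ?_⟩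
      · have h1 := hx.1 a
        have h2 := hy.1 a
        simp only [Pi.add_apply, Pi.sub_apply, arrsep_ev_apply]
        by_cases e1 : b = a
        · subst e1
          rw [if_pos rfl, if_neg (fun h => hbw h.symm)]
          omega
        · by_cases e2 : w = a
          · subst e2
            rw [if_neg e1, if_pos rfl]
            omega
          · rw [if_neg e1, if_neg e2]
            omega
      · simp only [Pi.add_apply, Pi.sub_apply, Finset.sum_add_distrib, Finset.sum_sub_distrib,
          arrsep_sum_ev]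
        have := hx.2
        omega
    have hy' : (∀ a, 0 ≤ (y + ev (some b) - ev (some w)) a ∧ (y + ev (some b) - ev (some w)) a ≤ u a)
        ∧ ∑ a, (y + ev (some b) - ev (some w)) a ≤ C := by
      refine ⟨fun a => ?_, ?_⟩
      · have h1 := hx.1 a
        have h2 := hy.1 a
        simp only [Pi.add_apply, Pi.sub_apply, arrsep_ev_apply]
        by_cases e1 : b = a
        · subst e1
          rw [if_pos rfl, if_neg (fun h => hbw h.symm)]
          omega
        · by_cases e2 : w = a
          · subst e2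
            rw [if_neg e1, if_pos rfl]
            omega
          · rw [if_neg e1, if_neg e2]
            omega
      · simp only [Pi.add_apply, Pi.sub_apply, Finset.sum_add_distrib, Finset.sum_sub_distrib,
          arrsep_sum_ev]
        have := hy.2
        omega
    rw [sep_eq hx, sep_eq hy, sep_eq hx', sep_eq hy', ← WithBot.coe_add, ← WithBot.coe_add,
      WithBot.coe_le_coe, ← Finset.sum_add_distrib, ← Finset.sum_add_distrib]
    apply Finset.sum_le_sum
    intro a _
    simp only [Pi.add_apply, Pi.sub_apply, arrsep_ev_apply]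
    by_cases e1 : b = a
    · subst e1
      rw [if_pos rfl, if_neg (fun h => hbw h.symm), add_zero, sub_zero]
      exact arrsep_concave hφ b hb
    · by_cases e2 : w = a
      · subst e2
        rw [if_neg e1, if_pos rfl, sub_zero, add_zero, add_comm, add_comm (φ w (x w + 1))]
        exact arrsep_concave hφ w hw
      · rw [if_neg e1, if_neg e2]
        simp
  · push Not at hw
    refine ⟨none, fun w' hw' => by simp at hw', ?_⟩
    have e0 : (ev none : A → ℤ) = 0 := by
      funext a; simp [ev]
    rw [e0, add_zero, sub_zero]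
    have hle : ∀ a, (y + ev (some b)) a ≤ x a := by
      intro a
      simp only [Pi.add_apply, arrsep_ev_apply]
      by_cases e1 : b = a
      · subst e1; rw [if_pos rfl]; omega
      · rw [if_neg e1]; have := hw a; omega
    have hx' : (∀ a, 0 ≤ (x - ev (some b)) a ∧ (x - ev (some b)) a ≤ u a)
        ∧ ∑ a, (x - ev (some b)) a ≤ C := by
      refine ⟨fun a => ?_, ?_⟩
      · have h1 := hx.1 a
        have h2 := hy.1 a
        simp only [Pi.sub_apply, arrsep_ev_apply]
        by_cases e1 : b = a
        · subst e1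
          rw [if_pos rfl]
          omega
        · rw [if_neg e1]
          omega
      · simp only [Pi.sub_apply, Finset.sum_sub_distrib, arrsep_sum_ev]
        have := hx.2
        omega
    have hy' : (∀ a, 0 ≤ (y + ev (some b)) a ∧ (y + ev (some b)) a ≤ u a)
        ∧ ∑ a, (y + ev (some b)) a ≤ C := by
      refine ⟨fun a => ⟨?_, (hle a).trans (hx.1 a).2⟩, (Finset.sum_le_sum fun a _ => hle a).trans hx.2⟩
      have h2 := hy.1 a
      simp only [Pi.add_apply, arrsep_ev_apply]
      split_ifs <;> omega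
    rw [sep_eq hx, sep_eq hy, sep_eq hx', sep_eq hy', ← WithBot.coe_add, ← WithBot.coe_add,
      WithBot.coe_le_coe, ← Finset.sum_add_distrib, ← Finset.sum_add_distrib]
    apply Finset.sum_le_sum
    intro a _
    simp only [Pi.add_apply, Pi.sub_apply, arrsep_ev_apply]
    by_cases e1 : b = a
    · subst e1
      rw [if_pos rfl]
      exact arrsep_concave hφ b hb
    · rw [if_neg e1]
      simp

end SAQ
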