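import Pool.Agent.SAQ.ArrSep
import Pool.Agent.SAQ.ArrRun

/-!
# Stable allocations of the market of a switch graph are switching flows
-/

set_option linter.unusedSectionVars false

namespace SAQ

section Moves

variable {A : Type} [Fintype A] [DecidableEq A]

theorem sum_upd {R : Type} [AddCommGroup R] (g : A → ℤ → R) (y : A → ℤ) (a : A) (k : ℤ) :
    ∑ c, g c (Function.update y a k c) = ∑ c, g c (y c) + (g a k - g a (y a)) := by
  rw [← Finset.add_sum_erase _ _ (Finset.mem_univ a), ← Finset.add_sum_erase Finset.univ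
    (fun c => g c (y c)) (Finset.mem_univ a), Function.update_self]
  have : ∑ c ∈ Finset.univ.erase a, g c (Function.update y a k c) =
      ∑ c ∈ Finset.univ.erase a, g c (y c) :=
    Finset.sum_congr rfl (fun c hc => by rw [Function.update_of_ne (Finset.ne_of_mem_erase hc)])
  rw [this]
  abel

theorem sep_nb {u : A → ℤ} {C : ℤ} {φ : A → ℤ → ℝ} {y : A → ℤ} :
    sep u C φ y ≠ ⊥ ↔ (∀ a, 0 ≤ y a ∧ y a ≤ u a) ∧ ∑ a, y a ≤ C := by
  rw [sep]
  split_ifs with h
  · exact iff_of_true WithBot.coe_ne_bot h
  · exact iff_of_false (fun h1 => h1 rfl) h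

theorem sep_val {u : A → ℤ} {C : ℤ} {φ : A → ℤ → ℝ} {y : A → ℤ}
    (h : (∀ a, 0 ≤ y a ∧ y a ≤ u a) ∧ ∑ a, y a ≤ C) :
    sep u C φ y = ((∑ a, φ a (y a) : ℝ) : WithBot ℝ) := by
  rw [sep, if_pos h]

/-- The agent would take one more unit of `a`, giving back others if needed. -/
def Wants (f : (A → ℤ) → WithBot ℝ) (y : A → ℤ) (a : A) : Prop :=
  ∃ y', f y < f y' ∧ y' a = y a + 1 ∧ ∀ c, c ≠ a → y' c ≤ y c

theorem wants_one {u : A → ℤ} {C : ℤ} {φ : A → ℤ → ℝ} {y : A → ℤ} (h : sep u C φ y ≠ ⊥) {a : A}
    (ha : y a + 1 ≤ u a) (hs : ∑ c, y c + 1 ≤ C) (hφ : φ a (y a) < φ a (y a + 1)) :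
    Wants (sep u C φ) y a := by
  rw [sep_nb] at h
  refine ⟨Function.update y a (y a + 1), ?_, Function.update_self _ _ _, fun c hc => ?_⟩
  · rw [sep_val h, sep_val, WithBot.coe_lt_coe, sum_upd φ]
    · linarith
    · refine ⟨fun c => ?_, ?_⟩
      · by_cases hc : c = a
        · subst hc
          rw [Function.update_self]
          exact ⟨by have := (h.1 c).1; omega, ha⟩
        · rw [Function.update_of_ne hc]; exact h.1 c
      · rw [sum_upd (fun _ k => k)]; linarith
  · rw [Function.update_of_ne hc]

theorem wants_swap {u : A → ℤ} {C : ℤ} {φ : A → ℤ → ℝ} {y : A → ℤ} (h : sep u C φ y ≠ ⊥)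
    {a b : A} (hab : a ≠ b) (ha : y a + 1 ≤ u a) (hb : 1 ≤ y b)
    (hφ : φ b (y b) - φ b (y b - 1) < φ a (y a + 1) - φ a (y a)) :
    Wants (sep u C φ) y a := by
  rw [sep_nb] at h
  refine ⟨Function.update (Function.update y a (y a + 1)) b (y b - 1), ?_, ?_, fun c hc => ?_⟩
  · rw [sep_val h, sep_val, WithBot.coe_lt_coe, sum_upd φ, sum_upd φ, Function.update_of_ne hab.symm]
    · linarith
    · refine ⟨fun c => ?_, ?_⟩
      · by_cases hc : c = b
        · subst hc
          rw [Function.update_self]
          exact ⟨by omega, by have := (h.1 c).2; omega⟩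
        · rw [Function.update_of_ne hc]
          by_cases hc : c = a
          · subst hc
            rw [Function.update_self]
            exact ⟨by have := (h.1 c).1; omega, ha⟩
          · rw [Function.update_of_ne hc]; exact h.1 c
      · rw [sum_upd (fun _ k => k), sum_upd (fun _ k => k), Function.update_of_ne hab.symm]
        linarith [h.2]
  · rw [Function.update_of_ne hab, Function.update_self]
  · by_cases hcb : c = b
    · subst hcb
      rw [Function.update_self]; omega
    · rw [Function.update_of_ne hcb, Function.update_of_ne hc]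

theorem stable_pair {M W : Type} [Fintype M] [Fintype W] [DecidableEq M] [DecidableEq W]
    {fM : M → (W → ℤ) → WithBot ℝ} {fW : W → (M → ℤ) → WithBot ℝ} {x : M → W → ℤ}
    (h : Stable fM fW x) {i : M} {j : W} (h1 : Wants (fM i) (x i) j)
    (h2 : Wants (fW j) (colW x j) i) : False := by
  obtain ⟨y', a1, a2, a3⟩ := h1
  obtain ⟨y'', b1, b2, b3⟩ := h2
  refine h.2 (Or.inr (Or.inr ⟨i, j, y', y'', a1, b1, a3, b3, ?_⟩))
  rw [a2, b2]
  rfl

end Moves

variable {V : Type} [Fintype V] [DecidableEq V]

open Classical in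
/-- The vertices from which `d` is reached by a path of length at most `n`. -/
noncomputable def ball (G : SG V) : ℕ → Finset V
  | 0 => {G.d}
  | n + 1 => ball G n ∪ Finset.univ.filter (fun v => ∃ i, G.s i v ∈ ball G n)

theorem ball_all (G : SG V) (n : ℕ) : (∀ v, G.Reach v → v ∈ ball G n) ∨ n + 1 ≤ (ball G n).card := by
  classical
  induction n with
  | zero => right; simp [ball]
  | succ n ih =>
    rcases ih with h | h
    · left
      intro v hv
      rw [ball]
      exact Finset.mem_union_left _ (h v hv)
    · by_cases he : ball G (n + 1) = ball G n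
      · left
        intro v hv
        rw [he]
        have hd : G.d ∈ ball G n := by
          clear he h hv
          induction n with
          | zero => simp [ball]
          | succ n ih => rw [ball]; exact Finset.mem_union_left _ ih
        refine Relation.ReflTransGen.head_induction_on hv hd ?_
        rintro a c ⟨i, hi⟩ _ hc
        rw [← he, ball]
        refine Finset.mem_union_right _ (Finset.mem_filter.2 ⟨Finset.mem_univ _, i, ?_⟩)
        rw [hi]; exact hc
      · right
        have h1 : ball G n ⊂ ball G (n + 1) := by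
          refine lt_of_le_of_ne ?_ (Ne.symm he)
          rw [ball]
          exact Finset.subset_union_left
        have := Finset.card_lt_card h1
        omega

theorem mem_ball_card (G : SG V) {v : V} (hv : G.Reach v) : v ∈ ball G (Fintype.card V) := by
  rcases ball_all G (Fintype.card V) with h | h
  · exact h v hv
  · have := Finset.card_le_univ (ball G (Fintype.card V))
    omega

section Main

variable {G : SG V} {L : ℕ} {x : V → V × Bool → ℤ}

theorem fV_live {v : V} (hv : G.Live v) : fV G L v =
    sep (fun a => open Classical in if G.Live a.1 ∧ (G.s a.2 a.1 = v ∨ a.1 = v) then (L : ℤ) else 0)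
      (2 * L - if v = G.o then 1 else 0)
      (fun a k => if a.1 = v then
        (if a.2 then -((L : ℝ) - k) ^ 2 - (L - k) else -((L : ℝ) - k) ^ 2) else (2 * L + 1) * k) := by
  rw [fV, if_pos hv]

theorem fV_dead {v : V} (hv : ¬ G.Live v) : fV G L v =
    sep (fun a => open Classical in if G.Live a.1 ∧ G.s a.2 a.1 = v then (L : ℤ) else 0)
      (2 * Fintype.card V * L) (fun _ k => k) := by
  rw [fV, if_neg hv]

/-- Basic consequences of feasibility. -/
theorem x_nonneg (hx : Stable (fV G L) (fA G L) x) (m : V) (a : V × Bool) : 0 ≤ x m a := by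
  have h := hx.1.2 a
  rw [fA, sep_nb] at h
  exact (h.1 m).1

theorem x_zero (hx : Stable (fV G L) (fA G L) x) {m : V} {a : V × Bool}
    (h : ¬ (G.Live a.1 ∧ (m = a.1 ∨ m = G.s a.2 a.1))) : x m a = 0 := by
  have h1 := hx.1.2 a
  rw [fA, sep_nb] at h1
  have h2 := h1.1 m
  rw [if_neg h] at h2
  have h3 : colW x a m = x m a := rfl
  omega

theorem x_le (hx : Stable (fV G L) (fA G L) x) (m : V) (a : V × Bool) : x m a ≤ L := by
  have h1 := hx.1.2 a
  rw [fA, sep_nb] at h1
  have h2 := (h1.1 m).2
  have h3 : colW x a m = x m a := rfl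
  split_ifs at h2
  · omega
  · omega

theorem col_sum (hloop : ∀ v i, G.s i v ≠ v) (hx : Stable (fV G L) (fA G L) x) (a : V × Bool) :
    ∑ m, colW x a m = x a.1 a + x (G.s a.2 a.1) a := by
  have h1 : ∑ m, colW x a m = ∑ m ∈ {a.1, G.s a.2 a.1}, colW x a m := by
    symm
    refine Finset.sum_subset (Finset.subset_univ _) (fun m _ hm => ?_)
    refine x_zero hx (fun h => hm ?_)
    rw [Finset.mem_insert, Finset.mem_singleton]
    exact h.2
  rw [h1, Finset.sum_pair (hloop a.1 a.2).symm]
  rfl

theorem col_le (hloop : ∀ v i, G.s i v ≠ v) (hx : Stable (fV G L) (fA G L) x) (a : V × Bool) :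
    x a.1 a + x (G.s a.2 a.1) a ≤ L := by
  have h := hx.1.2 a
  rw [fA, sep_nb, col_sum hloop hx] at h
  exact h.2

/-- The inflow. -/
def inflow (G : SG V) (x : V → V × Bool → ℤ) (v : V) : ℤ :=
  ∑ a, if G.s a.2 a.1 = v then x (G.s a.2 a.1) a else 0

theorem row_sum (hloop : ∀ v i, G.s i v ≠ v) (hx : Stable (fV G L) (fA G L) x) (v : V) :
    ∑ a, x v a = inflow G x v + (x v (v, false) + x v (v, true)) := by
  have h1 : ∀ a : V × Bool, x v a = (if G.s a.2 a.1 = v then x (G.s a.2 a.1) a else 0) +
      (if a.1 = v then x v a else 0) := by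
    intro a
    by_cases h : G.s a.2 a.1 = v
    · have h2 : a.1 ≠ v := fun h3 => hloop a.1 a.2 (h.trans h3.symm)
      rw [if_pos h, if_neg h2, h, add_zero]
    · rw [if_neg h, zero_add]
      by_cases h2 : a.1 = v
      · rw [if_pos h2]
      · rw [if_neg h2]
        exact x_zero hx (fun h3 => h3.2.elim (fun h4 => h2 h4.symm) (fun h4 => h h4.symm))
  rw [Finset.sum_congr rfl (fun a _ => h1 a), Finset.sum_add_distrib, inflow]
  congr 1
  rw [Fintype.sum_prod_type]
  simp only [Fintype.sum_bool]
  rw [Finset.sum_eq_single v]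
  · simp only [if_true]; ring
  · intro w _ hw
    rw [if_neg hw, if_neg hw, add_zero]
  · intro h; exact absurd (Finset.mem_univ _) h

/-- Arcs want the units of their tail. -/
theorem arc_wants_tail (hloop : ∀ v i, G.s i v ≠ v) (hx : Stable (fV G L) (fA G L) x)
    {a : V × Bool} (ha : G.Live a.1) (hlt : x a.1 a < L) : Wants (fA G L a) (colW x a) a.1 := by
  have h := hx.1.2 a
  have hs := col_sum hloop hx a
  have hle := col_le hloop hx a
  rw [fA] at h ⊢
  by_cases hc : x a.1 a + x (G.s a.2 a.1) a < L
  · refine wants_one h ?_ (by rw [hs]; omega) ?_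
    · rw [if_pos ⟨ha, Or.inl rfl⟩]
      exact hlt
    · rw [if_pos rfl, if_pos rfl]
      push_cast
      linarith
  · refine wants_swap h (b := G.s a.2 a.1) (hloop a.1 a.2).symm ?_ ?_ ?_
    · rw [if_pos ⟨ha, Or.inl rfl⟩]
      exact hlt
    · change 1 ≤ x (G.s a.2 a.1) a
      omega
    · rw [if_pos rfl, if_pos rfl, if_neg (hloop a.1 a.2), if_neg (hloop a.1 a.2)]
      push_cast
      linarith

/-- Arcs want the units of their head if they are not full. -/
theorem arc_wants_head (hloop : ∀ v i, G.s i v ≠ v) (hx : Stable (fV G L) (fA G L) x)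
    {a : V × Bool} (ha : G.Live a.1) (hlt : x a.1 a + x (G.s a.2 a.1) a < L) :
    Wants (fA G L a) (colW x a) (G.s a.2 a.1) := by
  have h := hx.1.2 a
  have hs := col_sum hloop hx a
  have h0 := x_nonneg hx a.1 a
  rw [fA] at h ⊢
  refine wants_one h ?_ (by rw [hs]; omega) ?_
  · rw [if_pos ⟨ha, Or.inr rfl⟩]
    change x (G.s a.2 a.1) a + 1 ≤ L
    omega
  · rw [if_neg (hloop a.1 a.2), if_neg (hloop a.1 a.2)]
    push_cast
    linarith

/-- Live vertices are full. -/
theorem vertex_full (hloop : ∀ v i, G.s i v ≠ v) (hx : Stable (fV G L) (fA G L) x)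
    {v : V} (hv : G.Live v) : ∑ a, x v a = 2 * L - if v = G.o then 1 else 0 := by
  have h := hx.1.1 v
  have hf := fV_live (L := L) hv
  rw [hf, sep_nb] at h
  by_contra hne
  have hlt : ∑ a, x v a + 1 ≤ 2 * L - if v = G.o then 1 else 0 := by
    have := h.2
    omega
  have key : ∀ i : Bool, x v (v, i) = L := by
    intro i
    by_contra hi
    have hi' : x v (v, i) < L := lt_of_le_of_ne (x_le hx v (v, i)) hi
    refine stable_pair hx (i := v) (j := (v, i)) ?_ (arc_wants_tail hloop hx hv hi')
    rw [hf]
    refine wants_one (sep_nb.2 h) ?_ hlt ?_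
    · rw [if_pos ⟨hv, Or.inr rfl⟩]; exact hi'
    · have h5 : ((x v (v, i) : ℤ) : ℝ) + 1 ≤ L := by exact_mod_cast hi'
      rw [if_pos rfl, if_pos rfl]
      push_cast
      cases i
      · simp only [Bool.false_eq_true, if_false]
        nlinarith
      · simp only [if_true]
        nlinarith
  have h1 := row_sum hloop hx v
  rw [key false, key true] at h1
  have h2 : 0 ≤ inflow G x v := Finset.sum_nonneg (fun a _ => by
    split_ifs
    · exact x_nonneg hx _ _
    · exact le_rfl)
  have h3 : (0 : ℤ) ≤ if v = G.o then 1 else 0 := by split_ifs <;> norm_num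
  omega

/-- Balance of the two arcs. -/
theorem balance (hloop : ∀ v i, G.s i v ≠ v) (hx : Stable (fV G L) (fA G L) x)
    {v : V} (hv : G.Live v) : x v (v, false) ≤ x v (v, true) ∧
      x v (v, true) ≤ x v (v, false) + 1 := by
  have h := hx.1.1 v
  have hf := fV_live (L := L) hv
  rw [hf] at h
  have hlf := x_le hx v (v, false)
  have hlt := x_le hx v (v, true)
  have h0f := x_nonneg hx v (v, false)
  have h0t := x_nonneg hx v (v, true)
  constructor
  · by_contra hc
    rw [not_le] at hc
    refine stable_pair hx (i := v) (j := (v, true)) ?_ (arc_wants_tail hloop hx hv (by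
      change x v (v, true) < L; omega))
    rw [hf]
    refine wants_swap h (b := (v, false)) (by simp) ?_ (by omega) ?_
    · rw [if_pos ⟨hv, Or.inr rfl⟩]; omega
    · have h5 : ((x v (v, true) : ℤ) : ℝ) + 1 ≤ x v (v, false) := by exact_mod_cast hc
      rw [if_pos rfl, if_pos rfl, if_pos rfl, if_pos rfl]
      simp only [if_true, Bool.false_eq_true, if_false]
      push_cast
      nlinarith
  · by_contra hc
    rw [not_le] at hc
    refine stable_pair hx (i := v) (j := (v, false)) ?_ (arc_wants_tail hloop hx hv (by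
      change x v (v, false) < L; omega))
    rw [hf]
    refine wants_swap h (b := (v, true)) (by simp) ?_ (by omega) ?_
    · rw [if_pos ⟨hv, Or.inr rfl⟩]; omega
    · have hc2 : x v (v, false) + 2 ≤ x v (v, true) := by omega
      have h5 : ((x v (v, false) : ℤ) : ℝ) + 2 ≤ x v (v, true) := by exact_mod_cast hc2
      rw [if_pos rfl, if_pos rfl, if_pos rfl, if_pos rfl]
      simp only [if_true, Bool.false_eq_true, if_false]
      push_cast
      nlinarith

/-- An arc that is not full has a live head without units of its own arcs. -/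
theorem arc_full (hloop : ∀ v i, G.s i v ≠ v) (hx : Stable (fV G L) (fA G L) x)
    {a : V × Bool} (ha : G.Live a.1) (hlt : x a.1 a + x (G.s a.2 a.1) a < L) :
    G.Live (G.s a.2 a.1) ∧ ∀ i, x (G.s a.2 a.1) (G.s a.2 a.1, i) = 0 := by
  set u := G.s a.2 a.1 with hu
  have hw := arc_wants_head hloop hx ha hlt
  have h0 := x_nonneg hx a.1 a
  by_cases hL : G.Live u
  · refine ⟨hL, fun i => ?_⟩
    by_contra hne
    have h1 : 1 ≤ x u (u, i) := by
      have := x_nonneg hx u (u, i)
      omega
    have h := hx.1.1 u
    have hf := fV_live (L := L) hL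
    rw [hf] at h
    refine stable_pair hx (i := u) (j := a) ?_ hw
    rw [hf]
    have hne1 : a.1 ≠ u := fun h => hloop a.1 a.2 (hu.symm.trans h.symm)
    refine wants_swap h (b := (u, i)) (fun h => hne1 (congrArg Prod.fst h)) ?_ h1 ?_
    · rw [if_pos ⟨ha, Or.inl hu.symm⟩]
      omega
    · have h5 : (1 : ℝ) ≤ x u (u, i) := by exact_mod_cast h1
      have h6 : (x u (u, i) : ℝ) ≤ L := by exact_mod_cast x_le hx u (u, i)
      rw [if_pos rfl, if_pos rfl, if_neg hne1, if_neg hne1]
      push_cast
      cases i
      · simp only [Bool.false_eq_true, if_false]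
        nlinarith
      · simp only [if_true]
        nlinarith
  · exfalso
    have h := hx.1.1 u
    have hf := fV_dead (L := L) hL
    rw [hf] at h
    refine stable_pair hx (i := u) (j := a) ?_ hw
    rw [hf]
    refine wants_one h ?_ ?_ ?_
    · rw [if_pos ⟨ha, hu.symm⟩]
      omega
    · have h1 : ∑ c, x u c < ∑ _c : V × Bool, (L : ℤ) := by
        refine Finset.sum_lt_sum (fun c _ => x_le hx u c) ⟨a, Finset.mem_univ _, by omega⟩
      simp only [Finset.sum_const, Finset.card_univ, Fintype.card_prod, Fintype.card_bool,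
        nsmul_eq_mul] at h1
      push_cast at h1
      linarith
    · push_cast
      linarith

/-- The total of the units of heads that are not live. -/
theorem sink_le (hloop : ∀ v i, G.s i v ≠ v) (hx : Stable (fV G L) (fA G L) x) {a : V × Bool}
    (ha : ¬ G.Live (G.s a.2 a.1)) : x (G.s a.2 a.1) a ≤ 1 := by
  classical
  -- sum of the fullness equations over the live vertices
  have h1 : ∑ v, (if G.Live v then (∑ a, x v a) else 0) =
      ∑ v, (if G.Live v then (2 * L - if v = G.o then 1 else 0 : ℤ) else 0) :=
    Finset.sum_congr rfl (fun v _ => by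
      by_cases hv : G.Live v
      · rw [if_pos hv, if_pos hv, vertex_full hloop hx hv]
      · rw [if_neg hv, if_neg hv])
  -- arcs
  have h2 : ∀ v, (if G.Live v then (∑ a, x v a) else 0) =
      ∑ c : V × Bool, ((if G.s c.2 c.1 = v then (if G.Live v then x (G.s c.2 c.1) c else 0) else 0) +
        (if c.1 = v then (if G.Live v then x c.1 c else 0) else 0)) := by
    intro v
    by_cases hv : G.Live v
    · simp only [if_pos hv]
      rw [row_sum hloop hx v, Finset.sum_add_distrib, inflow]
      congr 1
      rw [Fintype.sum_prod_type]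
      simp only [Fintype.sum_bool]
      rw [Finset.sum_eq_single v]
      · simp only [if_true]; ring
      · intro w _ hw
        rw [if_neg hw, if_neg hw, add_zero]
      · intro h; exact absurd (Finset.mem_univ _) h
    · simp only [if_neg hv]
      simp
  have h3 : ∑ v, (if G.Live v then (∑ a, x v a) else 0) =
      ∑ c : V × Bool, ((if G.Live (G.s c.2 c.1) then x (G.s c.2 c.1) c else 0) +
        (if G.Live c.1 then x c.1 c else 0)) := by
    rw [Finset.sum_congr rfl (fun v _ => h2 v), Finset.sum_comm]
    refine Finset.sum_congr rfl (fun c _ => ?_)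
    rw [Finset.sum_add_distrib]
    congr 1
    · rw [Finset.sum_ite_eq]; simp
    · rw [Finset.sum_ite_eq]; simp
  have h4 : ∑ v, (if G.Live v then (2 * L - if v = G.o then 1 else 0 : ℤ) else 0) ≥
      (∑ c : V × Bool, if G.Live c.1 then (L : ℤ) else 0) - 1 := by
    rw [Fintype.sum_prod_type]
    simp only [Fintype.sum_bool]
    have h5 : ∀ v : V, (if G.Live v then (2 * L - if v = G.o then 1 else 0 : ℤ) else 0) ≥
        ((if G.Live v then (L : ℤ) else 0) + (if G.Live v then (L : ℤ) else 0)) -
          if v = G.o then 1 else 0 := by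
      intro v
      split_ifs <;> omega
    calc _ ≥ ∑ v : V, (((if G.Live v then (L : ℤ) else 0) + (if G.Live v then (L : ℤ) else 0)) -
          if v = G.o then 1 else 0) := Finset.sum_le_sum (fun v _ => h5 v)
      _ = _ := by rw [Finset.sum_sub_distrib]; simp
  have h6 : ∀ c : V × Bool, (if G.Live (G.s c.2 c.1) then x (G.s c.2 c.1) c else 0) +
      (if G.Live c.1 then x c.1 c else 0) ≤ (if G.Live c.1 then (L : ℤ) else 0) -
      (if G.Live (G.s c.2 c.1) then 0 else x (G.s c.2 c.1) c) := by
    intro c
    have h7 := col_le hloop hx c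
    by_cases hc : G.Live c.1
    · rw [if_pos hc, if_pos hc]
      split_ifs <;> omega
    · rw [if_neg hc, if_neg hc]
      have h8 : x (G.s c.2 c.1) c = 0 := x_zero hx (fun h => hc h.1)
      rw [h8]
      simp
  have h7 := Finset.sum_le_sum (fun c (_ : c ∈ Finset.univ) => h6 c)
  rw [Finset.sum_sub_distrib] at h7
  have h8 : x (G.s a.2 a.1) a ≤ ∑ c : V × Bool, (if G.Live (G.s c.2 c.1) then 0 else
      x (G.s c.2 c.1) c) := by
    have h9 := Finset.single_le_sum (f := fun c : V × Bool => if G.Live (G.s c.2 c.1) then 0 else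
      x (G.s c.2 c.1) c) (fun c _ => by
        split_ifs
        · exact le_rfl
        · exact x_nonneg hx _ _) (Finset.mem_univ a)
    simp only [if_neg ha] at h9
    exact h9
  linarith

/-- Live vertices near `d` reject few units. -/
theorem reject_lt (hloop : ∀ v i, G.s i v ≠ v) (hL : 2 ^ (Fintype.card V + 1) ≤ L)
    (hx : Stable (fV G L) (fA G L) x) (n : ℕ) (hn : n ≤ Fintype.card V) :
    ∀ v ∈ ball G n, G.Live v → L - x v (v, true) < (2 : ℤ) ^ n := by
  induction n with
  | zero =>
    intro v hv hlive
    rw [ball, Finset.mem_singleton] at hv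
    exact absurd hv hlive.1
  | succ n ih =>
    intro v hv hlive
    have ih' := ih (by omega)
    have hp : (1 : ℤ) ≤ 2 ^ n := one_le_pow₀ (by norm_num)
    rw [ball, Finset.mem_union, Finset.mem_filter] at hv
    rcases hv with hv | ⟨_, i, hi⟩
    · have := ih' v hv hlive
      rw [pow_succ]
      linarith
    · -- the arc `(v, i)`
      have hb := balance hloop hx hlive
      have hri : L - x v (v, true) ≤ L - x v (v, i) := by
        cases i
        · linarith
        · exact le_rfl
      have hcl := col_le hloop hx (v, i)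
      rw [pow_succ]
      by_cases hlt : x v (v, i) + x (G.s i v) (v, i) < L
      · obtain ⟨hu, h0⟩ := arc_full hloop hx (a := (v, i)) hlive hlt
        have h1 := ih' _ hi hu
        have h2 := h0 true
        simp only at h2
        rw [h2] at h1
        have h3 : (2 : ℤ) ^ n ≤ (L : ℤ) := by
          have h4 : 2 ^ n ≤ L := le_trans (Nat.pow_le_pow_right (by norm_num) (by omega)) hL
          exact_mod_cast h4
        linarith
      · simp only at hcl
        by_cases hu : G.Live (G.s i v)
        · have h1 := ih' _ hi hu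
          have h2 := vertex_full hloop hx hu
          rw [row_sum hloop hx] at h2
          have h3 := balance hloop hx hu
          have h4 : x (G.s i v) (v, i) ≤ inflow G x (G.s i v) := by
            have h5 := Finset.single_le_sum (f := fun c : V × Bool =>
              if G.s c.2 c.1 = G.s i v then x (G.s c.2 c.1) c else 0) (fun c _ => by
                split_ifs
                · exact x_nonneg hx _ _
                · exact le_rfl) (Finset.mem_univ (v, i))
            rw [inflow]
            simpa using h5
          have h6 : (0 : ℤ) ≤ if G.s i v = G.o then 1 else 0 := by split_ifs <;> norm_num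
          linarith
        · have h1 := sink_le hloop hx (a := (v, i)) hu
          simp only at h1
          linarith

/-- No live vertex is saturated. -/
theorem not_sat (hloop : ∀ v i, G.s i v ≠ v) (hL : 2 ^ (Fintype.card V + 1) ≤ L)
    (hx : Stable (fV G L) (fA G L) x) {v : V} (hv : G.Live v) : x v (v, true) ≠ 0 := by
  intro h
  have h1 := reject_lt hloop hL hx _ le_rfl v (mem_ball_card G hv.2) hv
  rw [h] at h1
  have h2 : (2 : ℤ) ^ Fintype.card V ≤ (L : ℤ) := by
    have h4 : 2 ^ Fintype.card V ≤ L := le_trans (Nat.pow_le_pow_right (by norm_num) (by omega)) hL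
    exact_mod_cast h4
  linarith

theorem col_full (hloop : ∀ v i, G.s i v ≠ v) (hL : 2 ^ (Fintype.card V + 1) ≤ L)
    (hx : Stable (fV G L) (fA G L) x) {a : V × Bool} (ha : G.Live a.1) :
    x (G.s a.2 a.1) a = L - x a.1 a := by
  have h1 := col_le hloop hx a
  by_contra hne
  have hlt : x a.1 a + x (G.s a.2 a.1) a < L := by omega
  obtain ⟨hu, h0⟩ := arc_full hloop hx ha hlt
  exact not_sat hloop hL hx hu (h0 true)

end Main

theorem flow_of_stable {G : SG V} (hloop : ∀ v i, G.s i v ≠ v) {L : ℕ}
    (hL : 2 ^ (Fintype.card V + 1) ≤ L) {x : V → V × Bool → ℤ}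
    (hx : Stable (fV G L) (fA G L) x) :
    IsFlow G (fun a => x (G.s a.2 a.1) a) := by
  refine ⟨fun a => x_nonneg hx _ _, fun a ha => x_zero hx (fun h => ha h.1), fun v hv => ?_,
    fun v hv => ?_⟩
  · have h1 := vertex_full hloop hx hv
    rw [row_sum hloop hx] at h1
    have h2 := col_full hloop hL hx (a := (v, false)) hv
    have h3 := col_full hloop hL hx (a := (v, true)) hv
    simp only at h2 h3
    simp only [h2, h3]
    rw [inflow] at h1
    linarith
  · have h2 := col_full hloop hL hx (a := (v, false)) hv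
    have h3 := col_full hloop hL hx (a := (v, true)) hv
    have hb := balance hloop hx hv
    simp only at h2 h3 ⊢
    constructor <;> linarith

end SAQ
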