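import Pool.Agent.BSD.Degree

/-!
# A discrete Poincaré–Miranda theorem

BLUEPRINT.  Deduce this from `BSD.degree`, `BSD.total_hrd_sq` and `BSD.dt_hrd_zero`.
Let `I = [0,M]^d`.  Label every `X : Fin d → ℤ` by `lab X : Fin (d+1)`:
* if `X i ≥ M` for some `i` then `lab X = BSD.am X` (the argmax of `(0, X)`; here it is `i.succ`
  with `X i ≥ M`);
* otherwise `lab X = i.succ` for some `i` with `0 < X i` and `F X i < 0` if there is one, and
  `lab X = 0` if not.
The map `T X = Pi.single (lab X) 1` satisfies `BSD.Sup R ε` with `R = M`, `ε = 0` and its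
coordinates sum to `1`, so by `degree` and `total_hrd_sq` the sum of `KS dt T` is not zero, hence
some Kuhn simplex `pth x σ k` (`k = 0..d`) has `dt ≠ 0`, and then the labels of its `d+1` vertices
are pairwise distinct (contrapositive of `dt_hrd_zero`), so every label occurs.
For each `i` some vertex `Z` has label `i.succ`, so `Z i ≥ 1`; the coordinates of the vertices of a
simplex differ by at most `1`, so all vertices have all coordinates `≥ 0`.  Let `Y` be the vertex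
with label `0`: all `Y i < M`, so `Y ∈ I`; there is no `i` with `0 < Y i` and `F Y i < 0`, and if
`Y i = 0` then `F Y i ≥ 0` by hypothesis, so `F Y i ≥ 0` for all `i`.  If `Z` has label `i.succ`
then `Z ∈ I` (all its coordinates are at most `Y + 1 ≤ M`) and `F Z i ≤ 0` (either `F Z i < 0` or
`Z i = M`), so `F Y i ≤ F Z i + η ≤ η`.
-/

namespace SAQ

open Classical in
/-- The labelling. -/
noncomputable def lab {d : ℕ} (M : ℕ) (F : (Fin d → ℤ) → Fin d → ℝ) (X : Fin d → ℤ) :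
    Fin (d + 1) :=
  if ∃ i, (M : ℤ) ≤ X i then BSD.am X
  else if h : ∃ i, 0 < X i ∧ F X i < 0 then (Classical.choose h).succ else 0

theorem lab_zero {d M : ℕ} (hM : 1 ≤ M) {F : (Fin d → ℤ) → Fin d → ℝ} {X : Fin d → ℤ}
    (h : lab M F X = 0) : (∀ i, X i < M) ∧ ∀ i, 0 < X i → 0 ≤ F X i := by
  unfold lab at h
  by_cases h1 : ∃ i, (M : ℤ) ≤ X i
  · exfalso
    rw [if_pos h1] at h
    obtain ⟨i, hi⟩ := h1
    have h2 := BSD.am_le X i.succ
    rw [h] at h2
    simp only [BSD.lam, Fin.cons_succ, Fin.cons_zero] at h2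
    omega
  · rw [if_neg h1] at h
    push Not at h1
    refine ⟨h1, fun i hi => ?_⟩
    by_contra h2
    push Not at h2
    have h3 : ∃ i, 0 < X i ∧ F X i < 0 := ⟨i, hi, h2⟩
    rw [dif_pos h3] at h
    exact Fin.succ_ne_zero _ h

theorem lab_succ {d M : ℕ} (hM : 1 ≤ M) {F : (Fin d → ℤ) → Fin d → ℝ} {X : Fin d → ℤ}
    {i : Fin d} (h : lab M F X = i.succ) : 0 < X i ∧ ((M : ℤ) ≤ X i ∨ F X i < 0) := by
  unfold lab at h
  by_cases h1 : ∃ i, (M : ℤ) ≤ X i
  · rw [if_pos h1] at h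
    obtain ⟨j, hj⟩ := h1
    have h2 := BSD.am_le X j.succ
    rw [h] at h2
    simp only [BSD.lam, Fin.cons_succ] at h2
    exact ⟨by omega, Or.inl (by omega)⟩
  · rw [if_neg h1] at h
    by_cases h3 : ∃ i, 0 < X i ∧ F X i < 0
    · rw [dif_pos h3] at h
      have h4 := Classical.choose_spec h3
      rw [Fin.succ_inj.1 h] at h4
      exact ⟨h4.1, Or.inr h4.2⟩
    · rw [dif_neg h3] at h
      exact absurd h.symm (Fin.succ_ne_zero _)

theorem Sup_lab {d M : ℕ} (hM : 1 ≤ M) (F : (Fin d → ℤ) → Fin d → ℝ) (X : Fin d → ℤ) :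
    BSD.Sup (M : ℝ) 0 X (Pi.single (lab M F X) 1) := by
  intro j hj i
  have h1 : j = lab M F X := by
    by_contra h
    exact hj (Pi.single_eq_of_ne h _)
  rw [zero_mul, add_zero]
  have hgoal : BSD.lam X i ≤ BSD.lam X j + M := by
    by_cases h2 : ∃ i, (M : ℤ) ≤ X i
    · have h3 : j = BSD.am X := by rw [h1, lab, if_pos h2]
      have h4 := BSD.am_le X i
      rw [h3]; omega
    · push Not at h2
      have h5 : BSD.lam X i ≤ M := by
        refine Fin.cases ?_ (fun l => ?_) i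
        · simp [BSD.lam]
        · have := h2 l
          simp only [BSD.lam, Fin.cons_succ]; omega
      have h6 : 0 ≤ BSD.lam X j := by
        rcases Fin.eq_zero_or_eq_succ j with h7 | ⟨l, h7⟩
        · rw [h7]; simp [BSD.lam]
        · have h8 := (lab_succ hM (h1.symm.trans h7)).1
          rw [h7]
          simp only [BSD.lam, Fin.cons_succ]; omega
      omega
  exact_mod_cast hgoal

/-- Discrete Poincaré–Miranda: a map on `[0,M]^d ∩ ℤ^d` that changes by at most `η` between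
neighbours, is `≥ 0` on the lower faces and `≤ 0` on the upper faces, is `≤ η` in absolute value
somewhere. -/
theorem miranda {d M : ℕ} (hM : 1 ≤ M) {η : ℝ} (F : (Fin d → ℤ) → Fin d → ℝ)
    (hη : ∀ x y : Fin d → ℤ, (∀ i, 0 ≤ x i ∧ x i ≤ M) → (∀ i, 0 ≤ y i ∧ y i ≤ M) →
      (∀ i, |x i - y i| ≤ 1) → ∀ i, |F x i - F y i| ≤ η)
    (h0 : ∀ x : Fin d → ℤ, (∀ i, 0 ≤ x i ∧ x i ≤ M) → ∀ i, x i = 0 → 0 ≤ F x i)
    (h1 : ∀ x : Fin d → ℤ, (∀ i, 0 ≤ x i ∧ x i ≤ M) → ∀ i, x i = M → F x i ≤ 0) :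
    ∃ x : Fin d → ℤ, (∀ i, 0 ≤ x i ∧ x i ≤ M) ∧ ∀ i, |F x i| ≤ η := by
  set T : (Fin d → ℤ) → (Fin (d + 1) → ℂ) := fun X => Pi.single (lab M F X) 1 with hT
  have hdeg := BSD.degree (R := (M : ℝ)) (ε := 0) (Nat.cast_nonneg M) le_rfl one_pos T
    (fun X => Sup_lab hM F X) (fun X => by simp [hT])
  have hne : ∑' x, BSD.KS BSD.dt T x ≠ 0 := by
    rw [hdeg]
    intro h
    have := BSD.total_hrd_sq (d := d)
    rw [h] at this
    norm_num at this
  obtain ⟨x, hx⟩ : ∃ x, BSD.KS BSD.dt T x ≠ 0 := by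
    by_contra hcon
    push Not at hcon
    exact hne (by simp [hcon])
  obtain ⟨σ, hσ⟩ : ∃ σ : Equiv.Perm (Fin d),
      BSD.dt (fun k : Fin (d + 1) => T (BSD.pth x σ k)) ≠ 0 := by
    rw [BSD.KS] at hx
    obtain ⟨σ, -, hσ⟩ := Finset.exists_ne_zero_of_sum_ne_zero hx
    exact ⟨σ, right_ne_zero_of_mul hσ⟩
  have hinj : Function.Injective fun k : Fin (d + 1) => lab M F (BSD.pth x σ k) := by
    by_contra hcon
    exact hσ (BSD.dt_hrd_zero hcon)
  have hsurj : Function.Surjective fun k : Fin (d + 1) => lab M F (BSD.pth x σ k) :=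
    Finite.injective_iff_surjective.1 hinj
  have hbd : ∀ (k : ℕ) (i : Fin d), x i ≤ BSD.pth x σ k i ∧ BSD.pth x σ k i ≤ x i + 1 := by
    intro k i
    simp only [BSD.pth]
    split_ifs <;> omega
  have hx0 : ∀ i, 0 ≤ x i := by
    intro i
    obtain ⟨k, hk⟩ := hsurj i.succ
    have h2 := (lab_succ hM hk).1
    have h3 := (hbd k i).2
    omega
  obtain ⟨k₀, hk₀⟩ := hsurj 0
  obtain ⟨hY1, hY2⟩ := lab_zero hM hk₀
  have hYI : ∀ i, 0 ≤ BSD.pth x σ k₀ i ∧ BSD.pth x σ k₀ i ≤ M := fun i =>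
    ⟨(hx0 i).trans (hbd _ i).1, (hY1 i).le⟩
  refine ⟨BSD.pth x σ k₀, hYI, fun i => ?_⟩
  have hF0 : 0 ≤ F (BSD.pth x σ k₀) i := by
    rcases eq_or_lt_of_le (hYI i).1 with h2 | h2
    · exact h0 _ hYI i h2.symm
    · exact hY2 i h2
  obtain ⟨k, hk⟩ := hsurj i.succ
  have hZI : ∀ j, 0 ≤ BSD.pth x σ k j ∧ BSD.pth x σ k j ≤ M := by
    intro j
    have h2 := hbd k j
    have h3 := hbd k₀ j
    have h4 := hY1 j
    have h5 := hx0 j
    constructor <;> omega
  have hZ : F (BSD.pth x σ k) i ≤ 0 := by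
    rcases (lab_succ hM hk).2 with h2 | h2
    · exact h1 _ hZI i (le_antisymm (hZI i).2 h2)
    · exact h2.le
  have hd := hη _ _ hYI hZI (fun j => by
    have h2 := hbd k j
    have h3 := hbd k₀ j
    rw [abs_le]
    constructor <;> omega) i
  rw [abs_le] at hd ⊢
  constructor <;> linarith

end SAQ
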