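import Pool.Agent.SAQ.Defs
import Pool.Agent.SAQ.Miranda

/-!
# A balanced point of a set of positive volume

Suppose not.  Then every `x ∈ cube d` has a `v(x) ≠ 0` with
`volume {z ∈ S | ∑ v_i sgn(z_i - x_i) ≤ 0} < volume S / (d+2)`.  (`volume S` is finite.)
Take `N` with `d / N < volume S / (d+2)`.  For a grid point `p ∈ {0..N}^d` let `v'(p)` be
`v(p/N)` with `i`-th coordinate replaced by `max(·,0)` if `p_i = 0` and by `min(·,0)` if `p_i = N`;
for `z ∈ S ⊆ cube` this only increases `∑ v_i sgn(z_i - p_i/N)`.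
The combinatorial lemma `comb`, applied to `v'`, gives a set `P` of at most `d + 1` grid points
with coordinates in `{b_i, b_i + 1}` such that for all signs `σ` some `p ∈ P` has
`∑ v'(p)_i σ_i ≤ 0`.
The slabs `{z : b_i/N ≤ z_i ≤ (b_i+1)/N}` have total volume at most `d/N` in the cube, so some
`z ∈ S` lies in no slab and in none of the (at most `d+1`) bad sets of the points `p/N`.
With `σ_i = sgn(z_i - b_i/N) = sgn(z_i - p_i/N)` this is a contradiction.
-/

namespace SAQ

open MeasureTheory

/-- The positive elements of a finite set are bounded below by a positive number. -/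
theorem exists_pos_le (s : Finset ℝ) : ∃ m : ℝ, 0 < m ∧ ∀ r ∈ s, 0 < r → m ≤ r := by
  classical
  induction s using Finset.induction_on with
  | empty => exact ⟨1, one_pos, by simp⟩
  | insert a s _ ih =>
    obtain ⟨m, hm, h⟩ := ih
    by_cases ha : 0 < a
    · refine ⟨min m a, lt_min hm ha, fun r hr h0 => ?_⟩
      rcases Finset.mem_insert.1 hr with rfl | hr
      · exact min_le_right _ _
      · exact (min_le_left _ _).trans (h r hr h0)
    · refine ⟨m, hm, fun r hr h0 => ?_⟩
      rcases Finset.mem_insert.1 hr with rfl | hr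
      · exact absurd h0 ha
      · exact h r hr h0

theorem ediv_succ_ne {a K : ℤ} (hK : 0 < K) (h : (a + 1) / K ≠ a / K) : K ∣ a + 1 := by
  have e := Int.mul_ediv_add_emod a K
  have l := Int.emod_nonneg a hK.ne'
  have u := Int.emod_lt_of_pos a hK
  set q := a / K with hq
  set r := a % K with hr
  by_cases hr' : r + 1 = K
  · exact ⟨q + 1, by rw [mul_add, ← hr']; rw [← hr'] at e; linarith⟩
  · exfalso
    apply h
    have h2 : r + 1 < K := lt_of_le_of_ne (by omega) hr'
    have : a + 1 = (r + 1) + K * q := by linarith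
    rw [this, Int.add_mul_ediv_left _ _ hK.ne', Int.ediv_eq_zero_of_lt (by omega) h2, zero_add]

theorem ediv_ne_unique {x y K : ℤ} (hK : 0 < K) (hxy : |x - y| ≤ 1) {j j' : ℤ}
    (hj : 0 ≤ j ∧ j < K) (hj' : 0 ≤ j' ∧ j' < K) (h : (x + j) / K ≠ (y + j) / K)
    (h' : (x + j') / K ≠ (y + j') / K) : j = j' := by
  have key : ∀ c : ℤ, K ∣ c + j + 1 → K ∣ c + j' + 1 → j = j' := by
    intro c h1 h2
    have h3 : K ∣ j - j' := by
      have := dvd_sub h1 h2
      rwa [show c + j + 1 - (c + j' + 1) = j - j' by ring] at this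
    have h4 : j - j' = 0 := by
      apply Int.eq_zero_of_abs_lt_dvd h3
      rw [abs_lt]
      constructor <;> omega
    omega
  rw [abs_le] at hxy
  rcases (by omega : x = y ∨ y = x + 1 ∨ x = y + 1) with rfl | rfl | rfl
  · exact absurd rfl h
  · refine key x (ediv_succ_ne hK ?_) (ediv_succ_ne hK ?_)
    · rw [show x + j + 1 = x + 1 + j by ring]; exact h.symm
    · rw [show x + j' + 1 = x + 1 + j' by ring]; exact h'.symm
  · refine key y (ediv_succ_ne hK ?_) (ediv_succ_ne hK ?_)
    · rw [show y + j + 1 = y + 1 + j by ring]; exact h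
    · rw [show y + j' + 1 = y + 1 + j' by ring]; exact h'

/-- The combinatorial core. -/
theorem comb {d N : ℕ} (hN : 1 ≤ N) (w : (Fin d → ℤ) → Fin d → ℝ)
    (h0 : ∀ p : Fin d → ℤ, (∀ i, 0 ≤ p i ∧ p i ≤ N) → ∀ i, p i = 0 → 0 ≤ w p i)
    (h1 : ∀ p : Fin d → ℤ, (∀ i, 0 ≤ p i ∧ p i ≤ N) → ∀ i, p i = N → w p i ≤ 0) :
    ∃ (b : Fin d → ℤ) (P : Finset (Fin d → ℤ)), P.card ≤ d + 1 ∧
      (∀ p ∈ P, (∀ i, 0 ≤ p i ∧ p i ≤ N) ∧ ∀ i, p i = b i ∨ p i = b i + 1) ∧
      ∀ σ : Fin d → ℝ, (∀ i, σ i = 1 ∨ σ i = -1) → ∃ p ∈ P, ∑ i, w p i * σ i ≤ 0 := by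
  classical
  set G : Finset (Fin d → ℤ) := Fintype.piFinset (fun _ => Finset.Icc (0 : ℤ) N) with hG
  have memG : ∀ p : Fin d → ℤ, (∀ i, 0 ≤ p i ∧ p i ≤ N) → p ∈ G := by
    intro p hp
    rw [hG, Fintype.mem_piFinset]
    exact fun i => Finset.mem_Icc.2 (hp i)
  set T : Finset (Fin d → ℝ) := Fintype.piFinset (fun _ => ({1, -1} : Finset ℝ)) with hT
  obtain ⟨m, hm, hmin⟩ := exists_pos_le ((G ×ˢ T).image (fun q => ∑ i, w q.1 i * q.2 i))
  set V : ℝ := ∑ p ∈ G, ∑ i, |w p i| with hV
  have hV0 : 0 ≤ V := Finset.sum_nonneg fun p _ => Finset.sum_nonneg fun i _ => abs_nonneg _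
  have hVw : ∀ p : Fin d → ℤ, (∀ i, 0 ≤ p i ∧ p i ≤ N) → ∀ i, |w p i| ≤ V := by
    intro p hp i
    have e1 : |w p i| ≤ ∑ k, |w p k| :=
      Finset.single_le_sum (f := fun k => |w p k|) (fun k _ => abs_nonneg _) (Finset.mem_univ i)
    have e2 : ∑ k, |w p k| ≤ V :=
      Finset.single_le_sum (f := fun q => ∑ k, |w q k|)
        (fun q _ => Finset.sum_nonneg fun k _ => abs_nonneg _) (memG p hp)
    exact e1.trans e2
  obtain ⟨K0, hK0⟩ := exists_nat_gt (2 * V * d * d / m)
  obtain ⟨K, hKdef⟩ : ∃ K : ℕ, K = K0 + 1 := ⟨_, rfl⟩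
  have hK : 2 * V * d * d < K * m := by
    rw [div_lt_iff₀ hm] at hK0
    rw [hKdef]
    push_cast
    nlinarith
  have hKpos : 0 < K := by omega
  have hKZ : (0 : ℤ) < K := by exact_mod_cast hKpos
  set pt : (Fin d → ℤ) → ℕ → Fin d → ℤ := fun X j k => (X k + j) / K with hpt
  have hgrid : ∀ X : Fin d → ℤ, (∀ i, 0 ≤ X i ∧ X i ≤ (N * K : ℕ)) → ∀ j < K,
      ∀ i, 0 ≤ pt X j i ∧ pt X j i ≤ N := by
    intro X hX j hj i
    refine ⟨Int.ediv_nonneg (by have := (hX i).1; positivity) hKZ.le, ?_⟩
    have h2 := (hX i).2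
    push_cast at h2
    have h3 : X i + j < (N + 1) * K := by
      have : (j : ℤ) < K := by exact_mod_cast hj
      nlinarith
    have := Int.ediv_lt_of_lt_mul hKZ h3
    show (X i + j) / K ≤ N
    omega
  set F : (Fin d → ℤ) → Fin d → ℝ := fun X i => ∑ j ∈ Finset.range K, w (pt X j) i with hF
  have hηF : ∀ x y : Fin d → ℤ, (∀ i, 0 ≤ x i ∧ x i ≤ (N * K : ℕ)) →
      (∀ i, 0 ≤ y i ∧ y i ≤ (N * K : ℕ)) → (∀ i, |x i - y i| ≤ 1) →
      ∀ i, |F x i - F y i| ≤ 2 * V * d := by
    intro x y hx hy hxy i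
    have e1 : F x i - F y i = ∑ j ∈ Finset.range K, (w (pt x j) i - w (pt y j) i) := by
      rw [hF, Finset.sum_sub_distrib]
    rw [e1]
    set J := (Finset.range K).filter (fun j => pt x j ≠ pt y j) with hJ
    have e2 : ∑ j ∈ Finset.range K, (w (pt x j) i - w (pt y j) i)
        = ∑ j ∈ J, (w (pt x j) i - w (pt y j) i) := by
      rw [hJ, Finset.sum_filter]
      refine Finset.sum_congr rfl fun j _ => ?_
      split_ifs with h
      · rfl
      · push Not at h
        rw [h, sub_self]
    rw [e2]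
    have e3 : |∑ j ∈ J, (w (pt x j) i - w (pt y j) i)| ≤ ∑ j ∈ J, (2 * V) := by
      refine (Finset.abs_sum_le_sum_abs _ _).trans (Finset.sum_le_sum fun j hj => ?_)
      have hj' := Finset.mem_range.1 (Finset.mem_filter.1 hj).1
      have a1 := hVw _ (hgrid x hx j hj') i
      have a2 := hVw _ (hgrid y hy j hj') i
      have a3 := abs_sub (w (pt x j) i) (w (pt y j) i)
      linarith
    have e4 : J.card ≤ d := by
      have c1 : J ⊆ (Finset.univ : Finset (Fin d)).biUnion
          (fun i => (Finset.range K).filter (fun j => pt x j i ≠ pt y j i)) := by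
        intro j hj
        rw [hJ, Finset.mem_filter] at hj
        obtain ⟨i, hi⟩ := Function.ne_iff.1 hj.2
        exact Finset.mem_biUnion.2 ⟨i, Finset.mem_univ _, Finset.mem_filter.2 ⟨hj.1, hi⟩⟩
      refine (Finset.card_le_card c1).trans (Finset.card_biUnion_le.trans ?_)
      have c2 : ∀ i : Fin d, ((Finset.range K).filter (fun j => pt x j i ≠ pt y j i)).card ≤ 1 := by
        intro i
        rw [Finset.card_le_one]
        intro j hj j' hj'
        rw [Finset.mem_filter, Finset.mem_range] at hj hj'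
        have := ediv_ne_unique (x := x i) (y := y i) hKZ (hxy i) (j := (j : ℤ)) (j' := (j' : ℤ))
          ⟨by positivity, by exact_mod_cast hj.1⟩ ⟨by positivity, by exact_mod_cast hj'.1⟩ hj.2 hj'.2
        exact_mod_cast this
      refine (Finset.sum_le_sum fun i _ => c2 i).trans ?_
      simp
    refine e3.trans ?_
    rw [Finset.sum_const, nsmul_eq_mul]
    have : (J.card : ℝ) ≤ d := by exact_mod_cast e4
    nlinarith
  have h0F : ∀ x : Fin d → ℤ, (∀ i, 0 ≤ x i ∧ x i ≤ (N * K : ℕ)) → ∀ i, x i = 0 → 0 ≤ F x i := by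
    intro x hx i hxi
    refine Finset.sum_nonneg fun j hj => ?_
    have hj' := Finset.mem_range.1 hj
    refine h0 _ (hgrid x hx j hj') i ?_
    show (x i + j) / K = 0
    rw [hxi, zero_add]
    exact Int.ediv_eq_zero_of_lt (by positivity) (by exact_mod_cast hj')
  have h1F : ∀ x : Fin d → ℤ, (∀ i, 0 ≤ x i ∧ x i ≤ (N * K : ℕ)) →
      ∀ i, x i = (N * K : ℕ) → F x i ≤ 0 := by
    intro x hx i hxi
    refine Finset.sum_nonpos fun j hj => ?_
    have hj' := Finset.mem_range.1 hj
    refine h1 _ (hgrid x hx j hj') i ?_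
    show (x i + j) / K = N
    rw [hxi]
    push_cast
    rw [add_comm, Int.add_mul_ediv_right _ _ hKZ.ne',
      Int.ediv_eq_zero_of_lt (by positivity) (by exact_mod_cast hj'), zero_add]
  obtain ⟨X, hX, hFX⟩ := miranda (d := d) (M := N * K) (η := 2 * V * d)
    (by nlinarith) F hηF h0F h1F
  · -- conclusion
    set b : Fin d → ℤ := fun i => X i / K with hb
    have hbp : ∀ j < K, ∀ i, pt X j i = b i ∨ pt X j i = b i + 1 := by
      intro j hj i
      have e := Int.mul_ediv_add_emod (X i) K
      have l := Int.emod_nonneg (X i) hKZ.ne'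
      have u := Int.emod_lt_of_pos (X i) hKZ
      have hjZ : (j : ℤ) < K := by exact_mod_cast hj
      have hj0 : (0 : ℤ) ≤ j := by positivity
      have lo : b i ≤ pt X j i := Int.ediv_le_ediv hKZ (by omega)
      have hi : pt X j i < b i + 2 := by
        refine Int.ediv_lt_of_lt_mul hKZ ?_
        show X i + j < (X i / K + 2) * K
        nlinarith
      omega
    refine ⟨b, (Finset.range K).image (pt X), ?_, ?_, ?_⟩
    · -- the number of points
      have hinj : Set.InjOn (fun p : Fin d → ℤ => ∑ i, (p i - b i))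
          ((Finset.range K).image (pt X) : Finset (Fin d → ℤ)) := by
        have mono : ∀ j j' : ℕ, j ≤ j' → ∀ i, pt X j i ≤ pt X j' i := by
          intro j j' h i
          refine Int.ediv_le_ediv hKZ ?_
          have : (j : ℤ) ≤ j' := by exact_mod_cast h
          omega
        have key : ∀ j j' : ℕ, j ≤ j' → ∑ i, (pt X j i - b i) = ∑ i, (pt X j' i - b i) →
            pt X j = pt X j' := by
          intro j j' h hs
          have h2 : ∀ i ∈ Finset.univ, pt X j i - b i = pt X j' i - b i :=
            (Finset.sum_eq_sum_iff_of_le (fun i _ => by have := mono j j' h i; omega)).1 hs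
          funext i
          have := h2 i (Finset.mem_univ i)
          omega
        intro p hp q hq hpq
        rw [Finset.mem_coe, Finset.mem_image] at hp hq
        obtain ⟨j, _, rfl⟩ := hp
        obtain ⟨j', _, rfl⟩ := hq
        rcases le_total j j' with h | h
        · exact key j j' h hpq
        · exact (key j' j h hpq.symm).symm
      have hmaps : Set.MapsTo (fun p : Fin d → ℤ => ∑ i, (p i - b i))
          ((Finset.range K).image (pt X) : Finset (Fin d → ℤ)) (Finset.Icc (0 : ℤ) d) := by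
        intro p hp
        rw [Finset.mem_coe, Finset.mem_image] at hp
        obtain ⟨j, hj, rfl⟩ := hp
        have hj' := Finset.mem_range.1 hj
        rw [Finset.mem_coe, Finset.mem_Icc]
        constructor
        · exact Finset.sum_nonneg fun i _ => by rcases hbp j hj' i with h | h <;> omega
        · calc ∑ i, (pt X j i - b i) ≤ ∑ _i : Fin d, (1 : ℤ) :=
                Finset.sum_le_sum fun i _ => by rcases hbp j hj' i with h | h <;> omega
            _ = d := by simp
      have := Finset.card_le_card_of_injOn _ hmaps hinj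
      rw [Int.card_Icc] at this
      omega
    · intro p hp
      rw [Finset.mem_image] at hp
      obtain ⟨j, hj, rfl⟩ := hp
      have hj' := Finset.mem_range.1 hj
      exact ⟨hgrid X hX j hj', hbp j hj'⟩
    · intro σ hσ
      by_contra hcon
      push Not at hcon
      have hσT : σ ∈ T := by
        rw [hT, Fintype.mem_piFinset]
        intro i
        rcases hσ i with h | h <;> simp [h]
      have hge : ∀ j ∈ Finset.range K, m ≤ ∑ i, w (pt X j) i * σ i := by
        intro j hj
        have hj' := Finset.mem_range.1 hj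
        refine hmin _ (Finset.mem_image.2 ⟨(pt X j, σ), ?_, rfl⟩)
          (hcon _ (Finset.mem_image.2 ⟨j, hj, rfl⟩))
        exact Finset.mem_product.2 ⟨memG _ (hgrid X hX j hj'), hσT⟩
      have s1 : (K : ℝ) * m ≤ ∑ j ∈ Finset.range K, ∑ i, w (pt X j) i * σ i := by
        have := Finset.sum_le_sum hge
        rwa [Finset.sum_const, Finset.card_range, nsmul_eq_mul] at this
      have s2 : ∑ j ∈ Finset.range K, ∑ i, w (pt X j) i * σ i = ∑ i, F X i * σ i := by
        rw [Finset.sum_comm]
        refine Finset.sum_congr rfl fun i _ => ?_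
        rw [hF, Finset.sum_mul]
      have s3 : ∑ i, F X i * σ i ≤ ∑ _i : Fin d, 2 * V * d := by
        refine Finset.sum_le_sum fun i _ => ?_
        have := hFX i
        rw [abs_le] at this
        rcases hσ i with h | h <;> rw [h] <;> linarith
      rw [Finset.sum_const, Finset.card_univ, Fintype.card_fin, nsmul_eq_mul] at s3
      nlinarith

/-- The volume of a slab of the cube. -/
theorem slab_le {d N : ℕ} (b : Fin d → ℤ) (i : Fin d) :
    volume {z : Fin d → ℝ | z ∈ cube d ∧ (b i : ℝ) / N ≤ z i ∧ z i ≤ ((b i : ℝ) + 1) / N}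
      ≤ ENNReal.ofReal (1 / N) := by
  classical
  have hsub : {z : Fin d → ℝ | z ∈ cube d ∧ (b i : ℝ) / N ≤ z i ∧ z i ≤ ((b i : ℝ) + 1) / N} ⊆
      Set.Icc (Function.update (fun _ => (0 : ℝ)) i ((b i : ℝ) / N))
        (Function.update (fun _ => (1 : ℝ)) i (((b i : ℝ) + 1) / N)) := by
    rintro z ⟨hz, h1, h2⟩
    constructor
    · intro k
      by_cases hk : k = i
      · subst hk; simpa using h1
      · simpa [Function.update_of_ne hk] using (hz k).1
    · intro k
      by_cases hk : k = i
      · subst hk; simpa using h2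
      · simpa [Function.update_of_ne hk] using (hz k).2
  refine (measure_mono hsub).trans ?_
  rw [Real.volume_Icc_pi, Finset.prod_eq_single i]
  · refine le_of_eq ?_
    congr 1
    simp only [Function.update_self]
    ring
  · intro k _ hk
    simp [Function.update_of_ne hk]
  · simp

set_option linter.unusedVariables false in
theorem balanced {d : ℕ} {S : Set (Fin d → ℝ)} (hS : MeasurableSet S) (hS1 : S ⊆ cube d)
    (hS0 : 0 < volume S) :
    ∃ x ∈ cube d, ∀ v : Fin d → ℝ, v ≠ 0 →
      volume S ≤ (d + 2 : ℕ) * volume {z | z ∈ S ∧ ∑ i, v i * Real.sign (z i - x i) ≤ 0} := by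
  classical
  by_contra hcon
  push Not at hcon
  choose! v _ hv using hcon
  have hfin : volume S ≠ ⊤ := by
    have h1 : volume (cube d) < ⊤ := by
      have : cube d = Set.Icc (fun _ => (0 : ℝ)) (fun _ => (1 : ℝ)) := by
        ext x
        simp only [cube, Set.mem_ofPred_eq, Set.mem_Icc, Pi.le_def]
        exact forall_and
      rw [this]
      exact isCompact_Icc.measure_lt_top
    exact ((measure_mono hS1).trans_lt h1).ne
  set a : ℝ := (volume S).toReal with ha
  have ha0 : 0 < a := ENNReal.toReal_pos hS0.ne' hfin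
  obtain ⟨N0, hN0⟩ := exists_nat_gt ((d + 2) * d / a)
  obtain ⟨N, hNdef⟩ : ∃ N : ℕ, N = N0 + 1 := ⟨_, rfl⟩
  have hN1 : 1 ≤ N := by omega
  have hNpos : (0 : ℝ) < N := by exact_mod_cast hN1
  have hN : (d + 2) * (d * (1 / N : ℝ)) < a := by
    rw [div_lt_iff₀ ha0] at hN0
    have : (N0 : ℝ) < N := by rw [hNdef]; push_cast; linarith
    have h3 : ((d : ℝ) + 2) * d < N * a := by nlinarith
    rw [show ((d : ℝ) + 2) * (d * (1 / N : ℝ)) = ((d + 2) * d) / N by ring, div_lt_iff₀ hNpos]
    linarith
  set w : (Fin d → ℤ) → Fin d → ℝ := fun p i =>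
    if p i = 0 then max (v (fun k => (p k : ℝ) / N) i) 0
    else if p i = N then min (v (fun k => (p k : ℝ) / N) i) 0
    else v (fun k => (p k : ℝ) / N) i with hw
  obtain ⟨b, P, hP, hPg, hPσ⟩ := comb hN1 w
    (by
      intro p _ i hi
      simp [hw, hi])
    (by
      intro p _ i hi
      have : (N : ℤ) ≠ 0 := by omega
      simp only [hw, hi, if_neg this, if_true]
      exact min_le_right _ _)
  -- the bad sets
  set B : (Fin d → ℤ) → Set (Fin d → ℝ) := fun p =>
    {z | z ∈ S ∧ ∑ i, w p i * Real.sign (z i - (p i : ℝ) / N) ≤ 0} with hB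
  have hBv : ∀ p ∈ P, ((d : ℝ) + 2) * (volume (B p)).toReal ≤ a := by
    intro p hp
    have hx : (fun k => (p k : ℝ) / N) ∈ cube d := by
      intro i
      have h2 := (hPg p hp).1 i
      constructor
      · have : (0 : ℝ) ≤ p i := by exact_mod_cast h2.1
        positivity
      · rw [div_le_one hNpos]
        exact_mod_cast h2.2
    have h1 := hv _ hx
    have h2 : volume (B p) ≤ volume {z | z ∈ S ∧
        ∑ i, v (fun k => (p k : ℝ) / N) i * Real.sign (z i - (p i : ℝ) / N) ≤ 0} := by
      refine measure_mono ?_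
      rintro z ⟨hz, hs⟩
      refine ⟨hz, le_trans (Finset.sum_le_sum fun i _ => ?_) hs⟩
      have hzc := hS1 hz i
      by_cases c1 : p i = 0
      · have e : w p i = max (v (fun k => (p k : ℝ) / N) i) 0 := by simp [hw, c1]
        rw [e]
        have : 0 ≤ Real.sign (z i - (p i : ℝ) / N) := by
          rw [c1]
          rcases hzc.1.lt_or_eq with h | h
          · rw [Real.sign_of_pos (by simpa using h)]; norm_num
          · rw [← h]; simp [Real.sign_zero]
        exact mul_le_mul_of_nonneg_right (le_max_left _ _) this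
      · by_cases c2 : p i = N
        · have e : w p i = min (v (fun k => (p k : ℝ) / N) i) 0 := by
            simp only [hw, if_neg c1, if_pos c2]
          rw [e]
          have : Real.sign (z i - (p i : ℝ) / N) ≤ 0 := by
            have h3 : z i - (p i : ℝ) / N ≤ 0 := by
              rw [c2]
              have : ((N : ℤ) : ℝ) / N = 1 := by
                push_cast
                exact div_self hNpos.ne'
              rw [this]
              linarith [hzc.2]
            rcases h3.lt_or_eq with h | h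
            · rw [Real.sign_of_neg h]; norm_num
            · rw [h, Real.sign_zero]
          exact mul_le_mul_of_nonpos_right (min_le_left _ _) this
        · have e : w p i = v (fun k => (p k : ℝ) / N) i := by
            simp only [hw, if_neg c1, if_neg c2]
          rw [e]
    have h3 : ((d + 2 : ℕ) : ENNReal) * volume (B p) ≤ volume S :=
      (mul_le_mul_right h2 _).trans h1.le
    have h4 := ENNReal.toReal_mono hfin h3
    rw [ENNReal.toReal_mul, ENNReal.toReal_natCast] at h4
    push_cast at h4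
    exact h4
  set Q : Fin d → Set (Fin d → ℝ) := fun i =>
    {z | z ∈ cube d ∧ (b i : ℝ) / N ≤ z i ∧ z i ≤ ((b i : ℝ) + 1) / N} with hQ
  obtain ⟨z, hzS, hzB, hzQ⟩ : ∃ z ∈ S, (∀ p ∈ P, z ∉ B p) ∧ ∀ i, z ∉ Q i := by
    by_contra hno
    push Not at hno
    have hcov : S ⊆ (⋃ p ∈ P, B p) ∪ ⋃ i, Q i := by
      intro z hz
      by_cases h : ∀ p ∈ P, z ∉ B p
      · obtain ⟨i, hi⟩ := hno z hz h
        exact Or.inr (Set.mem_iUnion.2 ⟨i, hi⟩)
      · push Not at h
        obtain ⟨p, hp, hzp⟩ := h
        exact Or.inl (Set.mem_iUnion₂.2 ⟨p, hp, hzp⟩)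
    have hBfin : ∀ p, volume (B p) ≠ ⊤ := fun p =>
      ((measure_mono (fun z hz => hz.1 : B p ⊆ S)).trans_lt (lt_top_iff_ne_top.2 hfin)).ne
    have m1 : volume S ≤ ∑ p ∈ P, volume (B p) + ∑ _i : Fin d, ENNReal.ofReal (1 / N) := by
      refine (measure_mono hcov).trans ((measure_union_le _ _).trans ?_)
      refine add_le_add (measure_biUnion_finset_le _ _) ?_
      refine (measure_iUnion_fintype_le _ _).trans (Finset.sum_le_sum fun i _ => slab_le b i)
    have hsf : ∑ p ∈ P, volume (B p) ≠ ⊤ := ENNReal.sum_ne_top.2 fun p _ => hBfin p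
    have hsf2 : ∑ _i : Fin d, ENNReal.ofReal (1 / N) ≠ ⊤ :=
      ENNReal.sum_ne_top.2 fun _ _ => ENNReal.ofReal_ne_top
    have m2 := ENNReal.toReal_mono (ENNReal.add_ne_top.2 ⟨hsf, hsf2⟩) m1
    rw [ENNReal.toReal_add hsf hsf2, ENNReal.toReal_sum fun p _ => hBfin p,
      ENNReal.toReal_sum fun _ _ => ENNReal.ofReal_ne_top,
      ENNReal.toReal_ofReal (by positivity), Finset.sum_const, Finset.card_univ,
      Fintype.card_fin, nsmul_eq_mul] at m2
    have m3 : ((d : ℝ) + 2) * ∑ p ∈ P, (volume (B p)).toReal ≤ (d + 1) * a := by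
      rw [Finset.mul_sum]
      refine (Finset.sum_le_sum hBv).trans ?_
      rw [Finset.sum_const, nsmul_eq_mul]
      have : (P.card : ℝ) ≤ d + 1 := by exact_mod_cast hP
      exact mul_le_mul_of_nonneg_right this ha0.le
    have hd0 : (0 : ℝ) < d + 2 := by positivity
    nlinarith
  -- conclusion
  have hside : ∀ i, z i < (b i : ℝ) / N ∨ ((b i : ℝ) + 1) / N < z i := by
    intro i
    by_contra hc
    push Not at hc
    exact hzQ i ⟨hS1 hzS, hc.1, hc.2⟩
  obtain ⟨p, hp, hpσ⟩ := hPσ (fun i => Real.sign (z i - (b i : ℝ) / N)) (by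
    intro i
    have hlt : (b i : ℝ) / N < ((b i : ℝ) + 1) / N := by
      rw [div_lt_div_iff_of_pos_right hNpos]; linarith
    rcases hside i with h | h
    · right; exact Real.sign_of_neg (by linarith)
    · left; exact Real.sign_of_pos (by linarith))
  apply hzB p hp
  refine ⟨hzS, le_trans (le_of_eq (Finset.sum_congr rfl fun i _ => ?_)) hpσ⟩
  congr 1
  have hlt : (b i : ℝ) / N < ((b i : ℝ) + 1) / N := by
    rw [div_lt_div_iff_of_pos_right hNpos]; linarith
  rcases (hPg p hp).2 i with h | h
  · rw [h]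
  · rw [h]
    push_cast
    rcases hside i with h' | h'
    · rw [Real.sign_of_neg (by linarith), Real.sign_of_neg (by linarith)]
    · rw [Real.sign_of_pos (by linarith), Real.sign_of_pos (by linarith)]

end SAQ
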