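import Mathlib

/-!
# Adaptive query programs

`Prog Q A R` is the type of adaptive programs that ask questions of type `Q`, receive answers of
type `A` and finally return an element of `R`.  Everything a program does between two questions is
free; only the number of questions is counted.
-/

namespace SAQ

/-- An adaptive program asking questions in `Q`, receiving answers in `A`, returning an `R`. -/
inductive Prog (Q A R : Type) : Type
  | ret : R → Prog Q A R
  | ask : Q → (A → Prog Q A R) → Prog Q A R

namespace Prog

variable {Q A R S Q' A' : Type}

/-- The value returned when the questions are answered by `o`. -/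
def eval (o : Q → A) : Prog Q A R → R
  | ret r => r
  | ask q k => eval o (k (o q))

/-- The number of questions asked when they are answered by `o`. -/
def cost (o : Q → A) : Prog Q A R → ℕ
  | ret _ => 0
  | ask q k => cost o (k (o q)) + 1

@[simp] theorem eval_ret (o : Q → A) (r : R) : (ret r : Prog Q A R).eval o = r := rfl

@[simp] theorem cost_ret (o : Q → A) (r : R) : (ret r : Prog Q A R).cost o = 0 := rfl

@[simp] theorem eval_ask (o : Q → A) (q : Q) (k : A → Prog Q A R) :
    (ask q k).eval o = (k (o q)).eval o := rfl

@[simp] theorem cost_ask (o : Q → A) (q : Q) (k : A → Prog Q A R) :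
    (ask q k).cost o = (k (o q)).cost o + 1 := rfl

/-- Sequential composition. -/
def bind : Prog Q A R → (R → Prog Q A S) → Prog Q A S
  | ret r, f => f r
  | ask q k, f => ask q (fun a => bind (k a) f)

@[simp] theorem eval_bind (o : Q → A) (p : Prog Q A R) (f : R → Prog Q A S) :
    (p.bind f).eval o = (f (p.eval o)).eval o := by
  induction p with
  | ret r => rfl
  | ask q k ih => simp only [bind, eval_ask, ih]

@[simp] theorem cost_bind (o : Q → A) (p : Prog Q A R) (f : R → Prog Q A S) :
    (p.bind f).cost o = p.cost o + (f (p.eval o)).cost o := by
  induction p with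
  | ret r => simp [bind]
  | ask q k ih => simp only [bind, eval_ask, cost_ask, ih]; omega

/-- Apply a function to the result. -/
def map (g : R → S) (p : Prog Q A R) : Prog Q A S := p.bind (fun r => ret (g r))

@[simp] theorem eval_map (o : Q → A) (g : R → S) (p : Prog Q A R) :
    (p.map g).eval o = g (p.eval o) := by simp [map]

@[simp] theorem cost_map (o : Q → A) (g : R → S) (p : Prog Q A R) :
    (p.map g).cost o = p.cost o := by simp [map]

/-- Ask one question and return a function of the answer. -/
def one (q : Q) (g : A → R) : Prog Q A R := ask q (fun a => ret (g a))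

@[simp] theorem eval_one (o : Q → A) (q : Q) (g : A → R) : (one q g).eval o = g (o q) := rfl

@[simp] theorem cost_one (o : Q → A) (q : Q) (g : A → R) : (one q g).cost o = 1 := rfl

/-- Answer every question of the program by running another program. -/
def sim (s : Q → Prog Q' A' A) : Prog Q A R → Prog Q' A' R
  | ret r => ret r
  | ask q k => bind (s q) (fun a => sim s (k a))

@[simp] theorem eval_sim (o : Q' → A') (s : Q → Prog Q' A' A) (p : Prog Q A R) :
    (p.sim s).eval o = p.eval (fun q => (s q).eval o) := by
  induction p with
  | ret r => rfl
  | ask q k ih => simp only [sim, eval_bind, eval_ask, ih]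

theorem cost_sim_le (o : Q' → A') (s : Q → Prog Q' A' A) {c : ℕ} (hc : ∀ q, (s q).cost o ≤ c)
    (p : Prog Q A R) : (p.sim s).cost o ≤ c * p.cost (fun q => (s q).eval o) := by
  induction p with
  | ret r => simp [sim]
  | ask q k ih =>
    simp only [sim, cost_bind, cost_ask]
    have h1 := hc q
    have h2 := ih ((s q).eval o)
    rw [mul_add, mul_one]
    omega

section collect

variable {ι : Type} [DecidableEq ι]

/-- Run the programs `p i` for the indices `i` of a list and return all results. -/
def collectL (p : ι → Prog Q A R) (r0 : ι → R) : List ι → Prog Q A (ι → R)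
  | [] => ret r0
  | i :: l => (p i).bind (fun r => (collectL p r0 l).bind (fun g => ret (Function.update g i r)))

theorem eval_collectL (o : Q → A) (p : ι → Prog Q A R) (r0 : ι → R) (l : List ι) (j : ι)
    (hj : j ∈ l) : (collectL p r0 l).eval o j = (p j).eval o := by
  induction l with
  | nil => simp at hj
  | cons i l ih =>
    simp only [collectL, eval_bind, eval_ret]
    by_cases h : j = i
    · subst h; simp
    · rw [Function.update_of_ne h]
      exact ih ((List.mem_cons.1 hj).resolve_left h)

theorem cost_collectL (o : Q → A) (p : ι → Prog Q A R) (r0 : ι → R) (l : List ι) :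
    (collectL p r0 l).cost o = (l.map (fun i => (p i).cost o)).sum := by
  induction l with
  | nil => simp [collectL]
  | cons i l ih => simp [collectL, ih]

/-- Run the programs `p i` for all indices `i` of a finite type. -/
noncomputable def collect [Fintype ι] [Nonempty R] (p : ι → Prog Q A R) : Prog Q A (ι → R) :=
  collectL p (fun _ => Classical.arbitrary R) Finset.univ.toList

@[simp] theorem eval_collect [Fintype ι] [Nonempty R] (o : Q → A) (p : ι → Prog Q A R) :
    (collect p).eval o = fun i => (p i).eval o := by
  funext j
  exact eval_collectL o p _ _ j (by simp)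

theorem cost_collect [Fintype ι] [Nonempty R] (o : Q → A) (p : ι → Prog Q A R) :
    (collect p).cost o = ∑ i, (p i).cost o := by
  rw [collect, cost_collectL, Finset.sum_map_toList]

theorem cost_collect_le [Fintype ι] [Nonempty R] (o : Q → A) (p : ι → Prog Q A R) {c : ℕ}
    (hc : ∀ i, (p i).cost o ≤ c) : (collect p).cost o ≤ Fintype.card ι * c := by
  rw [cost_collect]
  calc ∑ i, (p i).cost o ≤ ∑ _i : ι, c := Finset.sum_le_sum (fun i _ => hc i)
    _ = Fintype.card ι * c := by simp

end collect

end Prog

end SAQ
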