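import Pool.Agent.SAQ.Balanced
import Pool.Agent.SAQ.Prog

/-!
# Approximate fixed points of `ℓ₁`-contractions of the cube with few queries

BLUEPRINT.  The program keeps a measurable set `S ⊆ cube d` (at first the cube).  While
`volume S > 0` it asks the balanced point `x` of `S` (`balanced`), gets `Ψ x`, puts
`v = Ψ x - x`; if `n1 v ≤ ε` it returns `x`; otherwise it replaces `S` by
`{z ∈ S | ∑ v_i sgn(z_i - x_i) > 0}`, whose volume is at most `(1 - 1/(d+2)) volume S`.  Give it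
fuel `(d+2) b`.
* `Ψ` has a fixed point `z*` in the cube (minimise the continuous function `n1 (Ψ x - x)` on the
  compact cube, or apply Banach's theorem for the norm `n1`).
* With `ρ = (1-lam) ε / 8`, no `z ∈ cube` with `n1 (z - z*) < ρ` is ever dropped: if
  `∑ v_i sgn(z_i - x_i) ≤ 0` then `n1 (z - Ψ x) ≥ n1 (z - x)` because
  `|a - v| ≥ |a| - v sgn a`; but `n1 (z - Ψ x) ≤ ρ + lam n1 (z* - x) ≤ 2 ρ + lam n1 (z - x)`, so
  `n1 (z - x) ≤ 2ρ/(1-lam)` and `n1 v ≤ n1 (Ψ x - z) + n1 (z - x) ≤ 2ρ + 2 n1 (z - x) < ε`.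
* The set `{z ∈ cube | n1 (z - z*) < ρ}` contains a box with sides `ρ/(d+1) ≤ 1`, so has volume
  at least `(ρ/(d+1))^d > (1/2)^b`; after `(d+2) b` unsuccessful queries `volume S` would be at
  most `(1 - 1/(d+2))^((d+2) b) ≤ (1/2)^b`, a contradiction.
-/

set_option linter.all false

namespace SAQ

open MeasureTheory

namespace CP

variable {d : ℕ}

theorem cube_eq : cube d = Set.Icc 0 1 := by
  ext x
  simp only [cube, Set.mem_setOf_eq, Set.mem_Icc, Pi.le_def, Pi.zero_apply, Pi.one_apply]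
  exact forall_and

theorem isCompact_cube : IsCompact (cube d) := by
  rw [cube_eq]
  exact isCompact_Icc

theorem measurable_cube : MeasurableSet (cube d) := isCompact_cube.isClosed.measurableSet

theorem volume_cube : volume (cube d) = 1 := by
  rw [cube_eq, Real.volume_Icc_pi]
  simp

theorem n1_nonneg (x : Fin d → ℝ) : 0 ≤ n1 x := Finset.sum_nonneg fun i _ => abs_nonneg _

theorem n1_add (x y : Fin d → ℝ) : n1 (x + y) ≤ n1 x + n1 y := by
  unfold n1
  rw [← Finset.sum_add_distrib]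
  exact Finset.sum_le_sum fun i _ => abs_add_le _ _

theorem n1_tri (x y z : Fin d → ℝ) : n1 (x - z) ≤ n1 (x - y) + n1 (y - z) := by
  have := n1_add (x - y) (y - z)
  rwa [sub_add_sub_cancel] at this

theorem n1_comm (x y : Fin d → ℝ) : n1 (x - y) = n1 (y - x) := by
  unfold n1
  exact Finset.sum_congr rfl fun i _ => abs_sub_comm _ _

theorem n1_zero : n1 (0 : Fin d → ℝ) = 0 := by simp [n1]

theorem n1_le_dist (x y : Fin d → ℝ) : n1 (x - y) ≤ d * dist x y := by
  unfold n1
  calc ∑ i, |(x - y) i| ≤ ∑ _i : Fin d, dist x y :=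
        Finset.sum_le_sum fun i _ => by
          rw [Pi.sub_apply, ← Real.dist_eq]
          exact dist_le_pi_dist x y i
    _ = d * dist x y := by simp

theorem eq_of_n1 {x y : Fin d → ℝ} (h : n1 (x - y) = 0) : x = y := by
  funext i
  have h1 := (Finset.sum_eq_zero_iff_of_nonneg (fun i _ => abs_nonneg _)).1 h i (Finset.mem_univ i)
  rw [abs_eq_zero, Pi.sub_apply, sub_eq_zero] at h1
  exact h1

theorem exists_fixed {lam : ℝ} (h0 : 0 ≤ lam) (h1 : lam < 1) {Ψ : (Fin d → ℝ) → Fin d → ℝ}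
    (hm : ∀ x ∈ cube d, Ψ x ∈ cube d)
    (hc : ∀ x ∈ cube d, ∀ y ∈ cube d, n1 (Ψ x - Ψ y) ≤ lam * n1 (x - y)) :
    ∃ z ∈ cube d, Ψ z = z := by
  have hcont : ContinuousOn (fun x => n1 (Ψ x - x)) (cube d) := by
    have h2 : LipschitzOnWith (2 * d) (fun x => n1 (Ψ x - x)) (cube d) := by
      refine LipschitzOnWith.of_dist_le_mul fun x hx y hy => ?_
      have a1 : ∀ x ∈ cube d, ∀ y ∈ cube d, n1 (Ψ x - x) - n1 (Ψ y - y) ≤ 2 * d * dist x y := by
        intro x hx y hy
        have b1 := n1_tri (Ψ x) (Ψ y) x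
        have b2 := n1_tri (Ψ y) y x
        have b3 := hc x hx y hy
        have b4 := n1_le_dist x y
        have b5 := n1_nonneg (x - y)
        have b6 : lam * n1 (x - y) ≤ n1 (x - y) := by nlinarith
        rw [n1_comm y x] at b2
        linarith
      have a2 := a1 x hx y hy
      have a3 := a1 y hy x hx
      rw [dist_comm y x] at a3
      rw [Real.dist_eq]
      push_cast
      exact abs_le.2 ⟨by linarith, a2⟩
    exact h2.continuousOn
  have hne : (cube d).Nonempty := ⟨0, fun i => by simp⟩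
  obtain ⟨z, hz, hmin⟩ := isCompact_cube.exists_isMinOn hne hcont
  refine ⟨z, hz, ?_⟩
  have h3 : n1 (Ψ z - z) ≤ n1 (Ψ (Ψ z) - Ψ z) := hmin (hm z hz)
  have h4 := hc (Ψ z) (hm z hz) z hz
  have h5 := n1_nonneg (Ψ z - z)
  apply eq_of_n1
  nlinarith

theorem abs_sub_sign (a v : ℝ) : |a| - v * Real.sign a ≤ |a - v| := by
  rcases lt_trichotomy a 0 with h | h | h
  · rw [Real.sign_of_neg h, abs_of_neg h]
    have := neg_abs_le (a - v)
    linarith
  · subst h
    simp
  · rw [Real.sign_of_pos h, abs_of_pos h]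
    have := le_abs_self (a - v)
    linarith

theorem keep {lam ε : ℝ} (h0 : 0 ≤ lam) (h1 : lam < 1) (hε : 0 < ε)
    {Ψ : (Fin d → ℝ) → Fin d → ℝ}
    (hc : ∀ x ∈ cube d, ∀ y ∈ cube d, n1 (Ψ x - Ψ y) ≤ lam * n1 (x - y))
    {z x w : Fin d → ℝ} (hz : z ∈ cube d) (hfix : Ψ z = z) (hx : x ∈ cube d)
    (hw : n1 (w - z) < (1 - lam) * ε / 8) (hbig : ¬ n1 (Ψ x - x) ≤ ε) :
    0 < ∑ i, (Ψ x - x) i * Real.sign (w i - x i) := by
  by_contra hcon
  rw [not_lt] at hcon
  apply hbig
  have a1 : n1 (w - x) ≤ n1 (w - Ψ x) := by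
    have : ∑ i, (|w i - x i| - (Ψ x - x) i * Real.sign (w i - x i)) ≤ ∑ i, |(w - Ψ x) i| := by
      refine Finset.sum_le_sum fun i _ => ?_
      have := abs_sub_sign (w i - x i) ((Ψ x - x) i)
      have e : w i - x i - (Ψ x - x) i = (w - Ψ x) i := by
        simp only [Pi.sub_apply]
        ring
      rw [e] at this
      exact this
    rw [Finset.sum_sub_distrib] at this
    have e2 : ∑ i, |w i - x i| = n1 (w - x) := rfl
    have e3 : ∑ i, |(w - Ψ x) i| = n1 (w - Ψ x) := rfl
    rw [e2, e3] at this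
    linarith
  have a2 : n1 (w - Ψ x) ≤ n1 (w - z) + lam * n1 (z - x) := by
    have := n1_tri w z (Ψ x)
    have h2 := hc z hz x hx
    rw [hfix] at h2
    linarith
  have a3 : n1 (z - x) ≤ n1 (w - z) + n1 (w - x) := by
    have := n1_tri z w x
    rw [n1_comm z w] at this
    exact this
  have a4 : lam * n1 (z - x) ≤ lam * (n1 (w - z) + n1 (w - x)) :=
    mul_le_mul_of_nonneg_left a3 h0
  have a5 : lam * n1 (w - z) ≤ n1 (w - z) := by
    have := n1_nonneg (w - z)
    nlinarith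
  have a6 : (1 - lam) * n1 (w - x) ≤ 2 * ((1 - lam) * ε / 8) := by linarith
  have a7 : n1 (w - x) ≤ ε / 4 := by
    have h2 : (1 - lam) * n1 (w - x) ≤ (1 - lam) * (ε / 4) := by linarith
    exact le_of_mul_le_mul_left h2 (by linarith)
  have a8 : n1 (Ψ x - x) ≤ n1 (w - Ψ x) + n1 (w - x) := by
    have := n1_tri (Ψ x) w x
    rw [n1_comm (Ψ x) w] at this
    exact this
  have a9 : n1 (w - z) < ε / 8 := by
    have : (1 - lam) * ε / 8 ≤ ε / 8 := by nlinarith
    linarith
  have a10 : lam * n1 (w - x) ≤ n1 (w - x) := by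
    have := n1_nonneg (w - x)
    nlinarith
  linarith

theorem measurable_sign : Measurable Real.sign := by
  unfold Real.sign
  exact Measurable.ite measurableSet_Iio measurable_const
    (Measurable.ite measurableSet_Ioi measurable_const measurable_const)

theorem measurable_good {S : Set (Fin d → ℝ)} (hS : MeasurableSet S) (v x : Fin d → ℝ) :
    MeasurableSet {z | z ∈ S ∧ 0 < ∑ i, v i * Real.sign (z i - x i)} := by
  have h : Measurable fun z : Fin d → ℝ => ∑ i, v i * Real.sign (z i - x i) := by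
    refine Finset.measurable_sum _ fun i _ => ?_
    exact (measurable_sign.comp ((measurable_pi_apply i).sub_const _)).const_mul _
  exact hS.inter (measurableSet_lt measurable_const h)

theorem volume_ball {ρ : ℝ} (h0 : 0 < ρ) (h1 : ρ ≤ 1 / 2) {z : Fin d → ℝ} (hz : z ∈ cube d) :
    ENNReal.ofReal ((ρ / (d + 1)) ^ d) ≤ volume {w | w ∈ cube d ∧ n1 (w - z) < ρ} := by
  set c : ℝ := ρ / (d + 1) with hc
  have hd : (0 : ℝ) < d + 1 := by positivity
  have hc0 : 0 < c := div_pos h0 hd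
  have hc1 : c ≤ 1 / 2 := by
    have : c ≤ ρ := div_le_self h0.le (by linarith [(Nat.cast_nonneg d : (0 : ℝ) ≤ d)])
    linarith
  set a : Fin d → ℝ := fun i => if z i ≤ 1 / 2 then z i else z i - c with ha
  have hsub : Set.Icc a (fun i => a i + c) ⊆ {w | w ∈ cube d ∧ n1 (w - z) < ρ} := by
    intro w hw
    have h2 : ∀ i, a i ≤ w i := hw.1
    have h3 : ∀ i, w i ≤ a i + c := hw.2
    have h4 : ∀ i, (0 ≤ w i ∧ w i ≤ 1) ∧ |w i - z i| ≤ c := by
      intro i
      have h5 := h2 i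
      have h6 := h3 i
      have h7 := hz i
      simp only [ha] at h5 h6
      split_ifs at h5 h6 with hi
      · exact ⟨⟨by linarith, by linarith⟩, abs_le.2 ⟨by linarith, by linarith⟩⟩
      · rw [not_le] at hi
        exact ⟨⟨by linarith, by linarith⟩, abs_le.2 ⟨by linarith, by linarith⟩⟩
    refine ⟨fun i => (h4 i).1, ?_⟩
    have h5 : n1 (w - z) ≤ d * c := by
      unfold n1
      calc ∑ i, |(w - z) i| ≤ ∑ _i : Fin d, c := Finset.sum_le_sum fun i _ => (h4 i).2
        _ = d * c := by simp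
    have h6 : (d : ℝ) * c < ρ := by
      have : (d + 1 : ℝ) * c = ρ := by rw [hc]; field_simp
      nlinarith
    linarith
  refine le_trans ?_ (measure_mono hsub)
  rw [Real.volume_Icc_pi]
  simp only [add_sub_cancel_left, Finset.prod_const, Finset.card_univ, Fintype.card_fin]
  rw [ENNReal.ofReal_pow hc0.le]

open Classical in
/-- the query program -/
noncomputable def run (ε : ℝ) : ℕ → Set (Fin d → ℝ) → Prog (Fin d → ℝ) (Fin d → ℝ) (Fin d → ℝ)
  | 0, _ => Prog.ret 0
  | n + 1, S => if h : MeasurableSet S ∧ S ⊆ cube d ∧ 0 < volume S then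
      Prog.ask (balanced h.1 h.2.1 h.2.2).choose fun a =>
        if n1 (a - (balanced h.1 h.2.1 h.2.2).choose) ≤ ε then
          Prog.ret (balanced h.1 h.2.1 h.2.2).choose
        else run ε n {z | z ∈ S ∧
          0 < ∑ i, (a - (balanced h.1 h.2.1 h.2.2).choose) i *
            Real.sign (z i - (balanced h.1 h.2.1 h.2.2).choose i)}
    else Prog.ret 0

theorem run_spec {lam ε : ℝ} (h0 : 0 ≤ lam) (h1 : lam < 1) (hε : 0 < ε)
    {Ψ : (Fin d → ℝ) → Fin d → ℝ}
    (hc : ∀ x ∈ cube d, ∀ y ∈ cube d, n1 (Ψ x - Ψ y) ≤ lam * n1 (x - y))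
    {z : Fin d → ℝ} (hz : z ∈ cube d) (hfix : Ψ z = z)
    (hB0 : 0 < volume {w | w ∈ cube d ∧ n1 (w - z) < (1 - lam) * ε / 8}) :
    ∀ (n : ℕ) (S : Set (Fin d → ℝ)), MeasurableSet S → S ⊆ cube d →
      {w | w ∈ cube d ∧ n1 (w - z) < (1 - lam) * ε / 8} ⊆ S →
      volume.real S * (1 - 1 / (d + 2)) ^ n <
        volume.real {w | w ∈ cube d ∧ n1 (w - z) < (1 - lam) * ε / 8} →
      (run ε n S).eval Ψ ∈ cube d ∧ n1 (Ψ ((run ε n S).eval Ψ) - (run ε n S).eval Ψ) ≤ ε ∧
        (run ε n S).cost Ψ ≤ n := by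
  intro n
  induction n with
  | zero =>
    intro S hS hS1 hB hvol
    exfalso
    rw [pow_zero, mul_one] at hvol
    have hfin : volume S ≠ ⊤ := by
      refine ne_top_of_le_ne_top ?_ (measure_mono hS1)
      rw [volume_cube]
      exact ENNReal.one_ne_top
    exact absurd (measureReal_mono hB hfin) (not_le.2 hvol)
  | succ n ih =>
    intro S hS hS1 hB hvol
    have hfin : volume S ≠ ⊤ := by
      refine ne_top_of_le_ne_top ?_ (measure_mono hS1)
      rw [volume_cube]
      exact ENNReal.one_ne_top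
    have hpos : 0 < volume S := lt_of_lt_of_le hB0 (measure_mono hB)
    have hcond : MeasurableSet S ∧ S ⊆ cube d ∧ 0 < volume S := ⟨hS, hS1, hpos⟩
    have hspec := (balanced hcond.1 hcond.2.1 hcond.2.2).choose_spec
    rw [run, dif_pos hcond]
    set x := (balanced hcond.1 hcond.2.1 hcond.2.2).choose with hxdef
    rw [Prog.eval_ask, Prog.cost_ask]
    by_cases hle : n1 (Ψ x - x) ≤ ε
    · rw [if_pos hle]
      refine ⟨hspec.1, hle, ?_⟩
      rw [Prog.cost_ret]
      omega
    · rw [if_neg hle]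
      set S' := {w | w ∈ S ∧ 0 < ∑ i, (Ψ x - x) i * Real.sign (w i - x i)} with hS'
      have hv : Ψ x - x ≠ 0 := by
        intro hv
        rw [hv, n1_zero] at hle
        exact hle hε.le
      have hbal := hspec.2 (Ψ x - x) hv
      have hS'm : MeasurableSet S' := measurable_good hS _ _
      have hS'sub : S' ⊆ S := fun w hw => hw.1
      have hB' : {w | w ∈ cube d ∧ n1 (w - z) < (1 - lam) * ε / 8} ⊆ S' := by
        intro w hw
        exact ⟨hB hw, keep h0 h1 hε hc hz hfix hspec.1 hw.2 hle⟩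
      have hsplit : volume.real S' + volume.real {w | w ∈ S ∧
          ∑ i, (Ψ x - x) i * Real.sign (w i - x i) ≤ 0} = volume.real S := by
        have e : {w | w ∈ S ∧ ∑ i, (Ψ x - x) i * Real.sign (w i - x i) ≤ 0} = S \ S' := by
          ext w
          simp only [Set.mem_setOf_eq, Set.mem_diff, hS', not_and, not_lt]
          constructor
          · rintro ⟨p, q⟩
            exact ⟨p, fun _ => q⟩
          · rintro ⟨p, q⟩
            exact ⟨p, q p⟩
        rw [e, measureReal_diff hS'sub hS'm (h₁ := hfin)]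
        ring
      have hbal' : volume.real S ≤ (d + 2) * volume.real {w | w ∈ S ∧
          ∑ i, (Ψ x - x) i * Real.sign (w i - x i) ≤ 0} := by
        have e1 := ENNReal.toReal_mono (ENNReal.mul_ne_top (ENNReal.natCast_ne_top (d + 2))
          (ne_top_of_le_ne_top hfin (measure_mono (fun w hw => hw.1)))) hbal
        rw [ENNReal.toReal_mul, ENNReal.toReal_natCast] at e1
        push_cast at e1
        exact e1
      have hd : (0 : ℝ) < d + 2 := by positivity
      have hS'v : volume.real S' ≤ volume.real S * (1 - 1 / (d + 2)) := by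
        have e2 : volume.real S / (d + 2) ≤ volume.real {w | w ∈ S ∧
            ∑ i, (Ψ x - x) i * Real.sign (w i - x i) ≤ 0} := by
          rw [div_le_iff₀ hd]
          linarith
        have e3 : volume.real S * (1 - 1 / (d + 2)) = volume.real S - volume.real S / (d + 2) := by
          ring
        linarith
      have hpow : (0 : ℝ) ≤ 1 - 1 / (d + 2) := by
        rw [sub_nonneg, div_le_one hd]
        linarith [(Nat.cast_nonneg d : (0 : ℝ) ≤ d)]
      have := ih S' hS'm (hS'sub.trans hS1) hB' (by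
        refine lt_of_le_of_lt ?_ hvol
        calc volume.real S' * (1 - 1 / (d + 2)) ^ n ≤
            volume.real S * (1 - 1 / (d + 2)) * (1 - 1 / (d + 2)) ^ n :=
              mul_le_mul_of_nonneg_right hS'v (pow_nonneg hpow n)
          _ = volume.real S * (1 - 1 / (d + 2)) ^ (n + 1) := by ring)
      refine ⟨this.1, this.2.1, ?_⟩
      have := this.2.2
      omega

theorem pow_bound (d b : ℕ) : ((1 : ℝ) - 1 / (d + 2)) ^ ((d + 2) * b) ≤ (1 / 2) ^ b := by
  rw [pow_mul]
  have hd : (0 : ℝ) < d + 2 := by positivity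
  have hpow : (0 : ℝ) ≤ 1 - 1 / (d + 2) := by
    rw [sub_nonneg, div_le_one hd]
    linarith [(Nat.cast_nonneg d : (0 : ℝ) ≤ d)]
  refine pow_le_pow_left₀ (pow_nonneg hpow _) ?_ b
  have h1 := Real.one_sub_div_pow_le_exp_neg (n := d + 2) (t := 1) (by push_cast; linarith)
  push_cast at h1
  refine h1.trans ?_
  rw [Real.exp_neg, inv_eq_one_div]
  apply one_div_le_one_div_of_le (by norm_num)
  have := Real.exp_one_gt_d9
  linarith

end CP

theorem contract_prog {d : ℕ} {lam ε : ℝ} (h0 : 0 ≤ lam) (h1 : lam < 1) (hε : 0 < ε)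
    (hε1 : ε ≤ 1) {b : ℕ} (hb : (1 / 2 : ℝ) ^ b < (((1 - lam) * ε / 8) / (d + 1)) ^ d) :
    ∃ p : Prog (Fin d → ℝ) (Fin d → ℝ) (Fin d → ℝ), ∀ Ψ : (Fin d → ℝ) → Fin d → ℝ,
      (∀ x ∈ cube d, Ψ x ∈ cube d) →
      (∀ x ∈ cube d, ∀ y ∈ cube d, n1 (Ψ x - Ψ y) ≤ lam * n1 (x - y)) →
      p.eval Ψ ∈ cube d ∧ n1 (Ψ (p.eval Ψ) - p.eval Ψ) ≤ ε ∧ p.cost Ψ ≤ (d + 2) * b := by
  refine ⟨CP.run ε ((d + 2) * b) (cube d), fun Ψ hm hc => ?_⟩
  obtain ⟨z, hz, hfix⟩ := CP.exists_fixed h0 h1 hm hc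
  have hρ : 0 < (1 - lam) * ε / 8 := by
    have : 0 < (1 - lam) * ε := mul_pos (by linarith) hε
    linarith
  have hρ1 : (1 - lam) * ε / 8 ≤ 1 / 2 := by nlinarith
  have hvol := CP.volume_ball hρ hρ1 hz
  have hw : 0 < ((1 - lam) * ε / 8 / (d + 1)) ^ d := by positivity
  have hB0 : 0 < volume {w | w ∈ cube d ∧ n1 (w - z) < (1 - lam) * ε / 8} :=
    lt_of_lt_of_le (ENNReal.ofReal_pos.2 hw) hvol
  refine CP.run_spec h0 h1 hε hc hz hfix hB0 _ _ CP.measurable_cube subset_rfl
    (fun w hw => hw.1) ?_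
  have e1 : volume.real (cube d) = 1 := by
    rw [measureReal_def, CP.volume_cube]
    simp
  rw [e1, one_mul]
  refine lt_of_le_of_lt (CP.pow_bound d b) (lt_of_lt_of_le hb ?_)
  have hfin : volume {w | w ∈ cube d ∧ n1 (w - z) < (1 - lam) * ε / 8} ≠ ⊤ := by
    refine ne_top_of_le_ne_top ?_ (measure_mono (fun w hw => hw.1 : _ ⊆ cube d))
    rw [CP.volume_cube]
    exact ENNReal.one_ne_top
  have := ENNReal.toReal_mono hfin hvol
  rw [ENNReal.toReal_ofReal hw.le] at this
  exact this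

end SAQ
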