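import Mathlib

/-!
# Definitions shared by the modules of `SAQ`

Everything needed for the theorem that a stable allocation of a two-sided market with
M♮-concave value functions can be found with polynomially many value evaluations.
-/

namespace SAQ

open MeasureTheory

/-! ### Real and integer boxes -/

/-- The unit cube. -/
def cube (d : ℕ) : Set (Fin d → ℝ) := {x | ∀ i, 0 ≤ x i ∧ x i ≤ 1}

/-- The `ℓ₁` norm. -/
def n1 {d : ℕ} (x : Fin d → ℝ) : ℝ := ∑ i, |x i|

/-- The integer box `[0,L]^ι`. -/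
def ibox (ι : Type) (L : ℕ) : Set (ι → ℤ) := {x | ∀ i, 0 ≤ x i ∧ x i ≤ L}

/-- The real box `[0,L]^d`. -/
def rbox (d L : ℕ) : Set (Fin d → ℝ) := {x | ∀ i, 0 ≤ x i ∧ x i ≤ L}

/-- Monotone maps of the integer box into itself that do not increase sums of increments. -/
structure IMap {ι : Type} [Fintype ι] (L : ℕ) (H : (ι → ℤ) → ι → ℤ) : Prop where
  maps : ∀ x ∈ ibox ι L, H x ∈ ibox ι L
  mono : ∀ x ∈ ibox ι L, ∀ y ∈ ibox ι L, x ≤ y → H x ≤ H y
  sum : ∀ x ∈ ibox ι L, ∀ y ∈ ibox ι L, x ≤ y → ∑ i, (H y i - H x i) ≤ ∑ i, (y i - x i)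

/-- The extension of an integer map to the reals. -/
noncomputable def ext {d : ℕ} (H : (Fin d → ℤ) → Fin d → ℤ) (x : Fin d → ℝ) : Fin d → ℝ :=
  fun i => ∫ θ in (0 : ℝ)..1, (H (fun j => ⌈x j - θ⌉) i : ℝ)

/-! ### Preferences given by an injective M♮-concave key with values in an ordered group -/

section Pref

variable {V : Type} [DecidableEq V]

/-- The unit vector of `u : Option V`; `ev none = 0`. -/
def ev (u : Option V) : V → ℤ := fun w => if u = some w then 1 else 0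

variable {Γ : Type} [AddCommGroup Γ] [LinearOrder Γ] [IsOrderedAddMonoid Γ]

/-- A finite hereditary domain `D ∋ 0` of nonnegative integer vectors with an M♮-concave key that
is injective on `D`. -/
structure Pref (D : Set (V → ℤ)) (key : (V → ℤ) → Γ) : Prop where
  fin : D.Finite
  zero : 0 ∈ D
  nonneg : ∀ y ∈ D, 0 ≤ y
  hered : ∀ y ∈ D, ∀ x, 0 ≤ x → x ≤ y → x ∈ D
  inj : ∀ x ∈ D, ∀ y ∈ D, key x = key y → x = y
  exch : ∀ x ∈ D, ∀ y ∈ D, ∀ u, y u < x u → ∃ v : Option V, (∀ w, v = some w → x w < y w) ∧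
    x - ev (some u) + ev v ∈ D ∧ y + ev (some u) - ev v ∈ D ∧
    key x + key y ≤ key (x - ev (some u) + ev v) + key (y + ev (some u) - ev v)

/-- `x` is the best element of `D` below `z`. -/
def IsC (D : Set (V → ℤ)) (key : (V → ℤ) → Γ) (z x : V → ℤ) : Prop :=
  x ∈ D ∧ x ≤ z ∧ ∀ y ∈ D, y ≤ z → key y ≤ key x

open Classical in
/-- The choice function: the best element of `D` below `z`. -/
noncomputable def Ch (D : Set (V → ℤ)) (key : (V → ℤ) → Γ) (z : V → ℤ) : V → ℤ :=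
  if h : ∃ x, IsC D key z x then h.choose else 0

open Classical in
/-- The value oracle: `⊥` outside `D`, the key inside. -/
noncomputable def orc (D : Set (V → ℤ)) (key : (V → ℤ) → Γ) (y : V → ℤ) : WithBot Γ :=
  if y ∈ D then (key y : WithBot Γ) else ⊥

end Pref

/-! ### Markets, exactly as in the problem -/

section Market

/-- `f : ℤ^V → ℝ ∪ {-∞}` is M♮-concave. -/
def MNatConcave {V : Type} [DecidableEq V] (f : (V → ℤ) → WithBot ℝ) : Prop :=
  ∀ x y : V → ℤ, f x ≠ ⊥ → f y ≠ ⊥ → ∀ u, y u < x u →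
    ∃ v : Option V, (∀ w, v = some w → x w < y w) ∧
      f x + f y ≤ f (x - ev (some u) + ev v) + f (y + ev (some u) - ev v)

/-- Condition (A): the effective domain is bounded, has `0` as its minimum element and is
hereditary. -/
structure CondA {V : Type} (f : (V → ℤ) → WithBot ℝ) : Prop where
  bdd : ∃ N : ℕ, ∀ y, f y ≠ ⊥ → ∀ v, |y v| ≤ N
  zero_mem : f 0 ≠ ⊥
  nonneg : ∀ y, f y ≠ ⊥ → 0 ≤ y
  hered : ∀ y y', f y ≠ ⊥ → 0 ≤ y' → y' ≤ y → f y' ≠ ⊥

variable {M W : Type} [Fintype M] [Fintype W] [DecidableEq M] [DecidableEq W]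

/-- The restriction of an allocation to the edges of `j : W`. -/
def colW (x : M → W → ℤ) (j : W) : M → ℤ := fun i => x i j

/-- `x` is feasible. -/
def Feasible (fM : M → (W → ℤ) → WithBot ℝ) (fW : W → (M → ℤ) → WithBot ℝ)
    (x : M → W → ℤ) : Prop :=
  (∀ i, fM i (x i) ≠ ⊥) ∧ ∀ j, fW j (colW x j) ≠ ⊥

/-- `x` is unstable. -/
def Unstable (fM : M → (W → ℤ) → WithBot ℝ) (fW : W → (M → ℤ) → WithBot ℝ)
    (x : M → W → ℤ) : Prop :=
  (∃ i, ∃ y ≤ x i, fM i (x i) < fM i y) ∨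
  (∃ j, ∃ y ≤ colW x j, fW j (colW x j) < fW j y) ∨
  ∃ i j, ∃ (y' : W → ℤ) (y'' : M → ℤ), fM i (x i) < fM i y' ∧ fW j (colW x j) < fW j y'' ∧
    (∀ j', j' ≠ j → y' j' ≤ x i j') ∧ (∀ i', i' ≠ i → y'' i' ≤ x i' j) ∧ y' j = y'' i

/-- `x` is a stable allocation. -/
def Stable (fM : M → (W → ℤ) → WithBot ℝ) (fW : W → (M → ℤ) → WithBot ℝ)
    (x : M → W → ℤ) : Prop :=
  Feasible fM fW x ∧ ¬ Unstable fM fW x

/-- A question to the market: one agent together with one bundle of this agent. -/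
abbrev Query (M W : Type) : Type := (M × (W → ℤ)) ⊕ (W × (M → ℤ))

/-- The answer to a question: the value of the bundle. -/
def val (fM : M → (W → ℤ) → WithBot ℝ) (fW : W → (M → ℤ) → WithBot ℝ) :
    Query M W → WithBot ℝ
  | Sum.inl (i, y) => fM i y
  | Sum.inr (j, y) => fW j y

end Market

end SAQ
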