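import Pool.Agent.SAQ.Defs
import Pool.Agent.SAQ.Prog

/-!
# The extension of a monotone, sum-nonexpansive integer map to the real box

BLUEPRINT.  `ext H x i = ∫ θ in (0)..1, H (fun j => ⌈x j - θ⌉) i`.
For `x` in the real box `[0,L]^d` and `θ ∈ (0,1)` the point `⌈x - θ⌉` lies in the integer box, it
is monotone in `x`, and `∫ θ in 0..1, ⌈a - θ⌉ = a` for every real `a`; this gives `ext_maps`,
`ext_mono`, `ext_sum`.  `θ ↦ H (⌈x - θ⌉) i` is measurable and bounded on `(0,1)` (it takes values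
in a finite set; `θ ↦ ⌈x j - θ⌉` is measurable and `ℤ^d` is countable/discrete).
`ext_nonexp`: with `w = x ⊓ y`, `n1 (ext x - ext y) ≤ ∑ (ext x - ext w) + ∑ (ext y - ext w)`.
`ext_int`: at an integer point `⌈z - θ⌉ = z`.
`ext_prog`: the set `{⌈x - θ⌉ | 0 < θ < 1}` is a chain whose coordinate sums lie in an interval of
`d + 1` integers, so it has at most `d + 1` elements; ask for `H` at all of them (`Prog.collectL`
over the list of the elements) and return `ext` of the resulting partial map.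
-/

namespace SAQ

open MeasureTheory

variable {d L : ℕ} {H : (Fin d → ℤ) → Fin d → ℤ}

/-- The rounded point `⌈x - θ⌉`. -/
noncomputable def cp (x : Fin d → ℝ) (θ : ℝ) : Fin d → ℤ := fun j => ⌈x j - θ⌉

theorem ext_eq_Ioo (H : (Fin d → ℤ) → Fin d → ℤ) (x : Fin d → ℝ) (i : Fin d) :
    ext H x i = ∫ θ in Set.Ioo (0 : ℝ) 1, (H (cp x θ) i : ℝ) := by
  unfold ext
  rw [intervalIntegral.integral_of_le zero_le_one, integral_Ioc_eq_integral_Ioo]
  rfl

theorem cp_mem {x : Fin d → ℝ} (hx : x ∈ rbox d L) {θ : ℝ} (hθ : θ ∈ Set.Ioo (0 : ℝ) 1) :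
    cp x θ ∈ ibox (Fin d) L := by
  intro j
  obtain ⟨h0, h1⟩ := hx j
  constructor
  · apply Int.ceil_nonneg_of_neg_one_lt
    linarith [hθ.2]
  · apply Int.ceil_le.2
    push_cast
    linarith [hθ.1]

theorem cp_mono {x y : Fin d → ℝ} (hxy : x ≤ y) (θ : ℝ) : cp x θ ≤ cp y θ := by
  intro j
  apply Int.ceil_mono
  have := hxy j
  linarith

theorem measurable_cp (x : Fin d → ℝ) : Measurable (cp x) := by
  apply measurable_pi_iff.2
  intro j
  exact Int.measurable_ceil.comp (measurable_const.sub measurable_id)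

theorem measurable_H (H : (Fin d → ℤ) → Fin d → ℤ) (x : Fin d → ℝ) (i : Fin d) :
    Measurable (fun θ : ℝ => (H (cp x θ) i : ℝ)) := by
  have h : Measurable (fun z : Fin d → ℤ => (H z i : ℝ)) := measurable_of_countable _
  exact h.comp (measurable_cp x)

theorem integrable_of_mem {g : ℝ → ℝ} (hg : Measurable g) (C : ℝ)
    (hC : ∀ θ ∈ Set.Ioo (0 : ℝ) 1, |g θ| ≤ C) : IntegrableOn g (Set.Ioo (0 : ℝ) 1) := by
  apply Measure.integrableOn_of_bounded (M := C)
  · simp
  · exact hg.aestronglyMeasurable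
  · filter_upwards [ae_restrict_mem measurableSet_Ioo] with θ hθ
    exact hC θ hθ

theorem integrable_H (hH : IMap L H) {x : Fin d → ℝ} (hx : x ∈ rbox d L) (i : Fin d) :
    IntegrableOn (fun θ : ℝ => (H (cp x θ) i : ℝ)) (Set.Ioo (0 : ℝ) 1) := by
  apply integrable_of_mem (measurable_H H x i) L
  intro θ hθ
  have h := hH.maps _ (cp_mem hx hθ) i
  have h0 : (0 : ℝ) ≤ (H (cp x θ) i : ℝ) := by exact_mod_cast h.1
  rw [abs_of_nonneg h0]
  exact_mod_cast h.2

theorem integrable_cp {x : Fin d → ℝ} (hx : x ∈ rbox d L) (i : Fin d) :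
    IntegrableOn (fun θ : ℝ => (cp x θ i : ℝ)) (Set.Ioo (0 : ℝ) 1) := by
  apply integrable_of_mem (measurable_H id x i) L
  intro θ hθ
  have h := cp_mem hx hθ i
  have h0 : (0 : ℝ) ≤ (cp x θ i : ℝ) := by exact_mod_cast h.1
  simp only [id]
  rw [abs_of_nonneg h0]
  exact_mod_cast h.2

/-- The average of `⌈a - θ⌉` is `a`. -/
theorem integral_ceil (a : ℝ) : ∫ θ in (0 : ℝ)..1, (⌈a - θ⌉ : ℝ) = a := by
  set n : ℤ := ⌈a⌉ - 1 with hn
  set f : ℝ := a - n with hf
  have hc1 : a ≤ ⌈a⌉ := Int.le_ceil a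
  have hc2 : (⌈a⌉ : ℝ) < a + 1 := Int.ceil_lt_add_one a
  have hnr : (n : ℝ) = ⌈a⌉ - 1 := by rw [hn]; push_cast; ring
  have hf0 : 0 < f := by rw [hf, hnr]; linarith
  have hf1 : f ≤ 1 := by rw [hf, hnr]; linarith
  have e1 : ∫ θ in (0 : ℝ)..f, (⌈a - θ⌉ : ℝ) = ∫ θ in (0 : ℝ)..f, ((n : ℝ) + 1) := by
    rw [intervalIntegral.integral_of_le hf0.le, intervalIntegral.integral_of_le hf0.le,
      integral_Ioc_eq_integral_Ioo, integral_Ioc_eq_integral_Ioo]
    apply setIntegral_congr_fun measurableSet_Ioo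
    intro θ hθ
    have : ⌈a - θ⌉ = n + 1 := by
      rw [Int.ceil_eq_iff]
      push_cast
      constructor
      · have := hθ.2; rw [hf] at this; linarith
      · have := hθ.1; rw [hf] at hf1; linarith
    simp only [this]
    push_cast
    ring
  have e2 : ∫ θ in f..1, (⌈a - θ⌉ : ℝ) = ∫ θ in f..1, (n : ℝ) := by
    rw [intervalIntegral.integral_of_le hf1, intervalIntegral.integral_of_le hf1,
      integral_Ioc_eq_integral_Ioo, integral_Ioc_eq_integral_Ioo]
    apply setIntegral_congr_fun measurableSet_Ioo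
    intro θ hθ
    have : ⌈a - θ⌉ = n := by
      rw [Int.ceil_eq_iff]
      constructor
      · have := hθ.2; rw [hf] at hf0; linarith
      · have := hθ.1; rw [hf] at this; linarith
    simp only [this]
  have hmeas : Measurable (fun θ : ℝ => (⌈a - θ⌉ : ℝ)) :=
    (measurable_of_countable (fun z : ℤ => (z : ℝ))).comp
      (Int.measurable_ceil.comp (measurable_const.sub measurable_id))
  have hb : ∀ θ ∈ Set.Ioo (0 : ℝ) 1, |(⌈a - θ⌉ : ℝ)| ≤ |a| + 2 := by
    intro θ hθ
    have h1 : a - θ ≤ ⌈a - θ⌉ := Int.le_ceil _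
    have h2 : (⌈a - θ⌉ : ℝ) < a - θ + 1 := Int.ceil_lt_add_one _
    rw [abs_le]
    have h3 := neg_abs_le a
    have h4 := le_abs_self a
    constructor
    · linarith [hθ.2]
    · linarith [hθ.1]
  have hint : IntervalIntegrable (fun θ : ℝ => (⌈a - θ⌉ : ℝ)) volume 0 1 := by
    rw [intervalIntegrable_iff_integrableOn_Ioo_of_le zero_le_one]
    exact integrable_of_mem hmeas _ hb
  have hi1 : IntervalIntegrable (fun θ : ℝ => (⌈a - θ⌉ : ℝ)) volume 0 f := by
    apply hint.mono_set
    rw [Set.uIcc_of_le hf0.le, Set.uIcc_of_le zero_le_one]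
    exact Set.Icc_subset_Icc le_rfl hf1
  have hi2 : IntervalIntegrable (fun θ : ℝ => (⌈a - θ⌉ : ℝ)) volume f 1 := by
    apply hint.mono_set
    rw [Set.uIcc_of_le hf1, Set.uIcc_of_le zero_le_one]
    exact Set.Icc_subset_Icc hf0.le le_rfl
  rw [← intervalIntegral.integral_add_adjacent_intervals hi1 hi2, e1, e2]
  simp only [intervalIntegral.integral_const, smul_eq_mul]
  rw [hf]
  ring

theorem integral_cp (x : Fin d → ℝ) (i : Fin d) :
    ∫ θ in Set.Ioo (0 : ℝ) 1, (cp x θ i : ℝ) = x i := by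
  have h := integral_ceil (x i)
  rw [intervalIntegral.integral_of_le zero_le_one, integral_Ioc_eq_integral_Ioo] at h
  exact h

theorem ext_maps (hH : IMap L H) {x : Fin d → ℝ} (hx : x ∈ rbox d L) : ext H x ∈ rbox d L := by
  intro i
  rw [ext_eq_Ioo]
  constructor
  · apply setIntegral_nonneg measurableSet_Ioo
    intro θ hθ
    have h := hH.maps _ (cp_mem hx hθ) i
    exact_mod_cast h.1
  · have h1 : ∫ θ in Set.Ioo (0 : ℝ) 1, (H (cp x θ) i : ℝ) ≤ ∫ θ in Set.Ioo (0 : ℝ) 1, (L : ℝ) := by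
      apply setIntegral_mono_on (integrable_H hH hx i) _ measurableSet_Ioo
      · intro θ hθ
        have h := hH.maps _ (cp_mem hx hθ) i
        exact_mod_cast h.2
      · apply integrable_of_mem measurable_const (L : ℝ)
        intro θ _
        rw [abs_of_nonneg (Nat.cast_nonneg L)]
    refine h1.trans ?_
    simp

theorem ext_mono (hH : IMap L H) {x y : Fin d → ℝ} (hx : x ∈ rbox d L) (hy : y ∈ rbox d L)
    (hxy : x ≤ y) : ext H x ≤ ext H y := by
  intro i
  rw [ext_eq_Ioo, ext_eq_Ioo]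
  apply setIntegral_mono_on (integrable_H hH hx i) (integrable_H hH hy i) measurableSet_Ioo
  intro θ hθ
  have h := hH.mono _ (cp_mem hx hθ) _ (cp_mem hy hθ) (cp_mono hxy θ) i
  exact_mod_cast h

theorem ext_sum (hH : IMap L H) {x y : Fin d → ℝ} (hx : x ∈ rbox d L) (hy : y ∈ rbox d L)
    (hxy : x ≤ y) : ∑ i, (ext H y i - ext H x i) ≤ ∑ i, (y i - x i) := by
  have e1 : ∑ i, (ext H y i - ext H x i) =
      ∫ θ in Set.Ioo (0 : ℝ) 1, ∑ i, ((H (cp y θ) i : ℝ) - (H (cp x θ) i : ℝ)) := by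
    rw [integral_finsetSum]
    · apply Finset.sum_congr rfl
      intro i _
      rw [integral_sub (integrable_H hH hy i) (integrable_H hH hx i), ext_eq_Ioo, ext_eq_Ioo]
    · intro i _
      exact (integrable_H hH hy i).sub (integrable_H hH hx i)
  have e2 : ∑ i, (y i - x i) =
      ∫ θ in Set.Ioo (0 : ℝ) 1, ∑ i, ((cp y θ i : ℝ) - (cp x θ i : ℝ)) := by
    rw [integral_finsetSum]
    · apply Finset.sum_congr rfl
      intro i _
      rw [integral_sub (integrable_cp hy i) (integrable_cp hx i), integral_cp, integral_cp]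
    · intro i _
      exact (integrable_cp hy i).sub (integrable_cp hx i)
  rw [e1, e2]
  apply setIntegral_mono_on _ _ measurableSet_Ioo
  · intro θ hθ
    have h := hH.sum _ (cp_mem hx hθ) _ (cp_mem hy hθ) (cp_mono hxy θ)
    exact_mod_cast h
  · apply integrable_finsetSum
    intro i _
    exact (integrable_H hH hy i).sub (integrable_H hH hx i)
  · apply integrable_finsetSum
    intro i _
    exact (integrable_cp hy i).sub (integrable_cp hx i)

theorem ext_nonexp (hH : IMap L H) {x y : Fin d → ℝ} (hx : x ∈ rbox d L) (hy : y ∈ rbox d L) :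
    n1 (ext H x - ext H y) ≤ n1 (x - y) := by
  have hw : x ⊓ y ∈ rbox d L := by
    intro i
    simp only [Pi.inf_apply]
    exact ⟨le_min (hx i).1 (hy i).1, (min_le_left _ _).trans (hx i).2⟩
  have hwx : x ⊓ y ≤ x := inf_le_left
  have hwy : x ⊓ y ≤ y := inf_le_right
  have m1 := ext_mono hH hw hx hwx
  have m2 := ext_mono hH hw hy hwy
  have s1 := ext_sum hH hw hx hwx
  have s2 := ext_sum hH hw hy hwy
  have h1 : n1 (ext H x - ext H y) ≤
      ∑ i, (ext H x i - ext H (x ⊓ y) i) + ∑ i, (ext H y i - ext H (x ⊓ y) i) := by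
    unfold n1
    rw [← Finset.sum_add_distrib]
    apply Finset.sum_le_sum
    intro i _
    simp only [Pi.sub_apply]
    have a1 := m1 i
    have a2 := m2 i
    rw [abs_le]
    constructor <;> linarith
  have h2 : ∑ i, (x i - (x ⊓ y) i) + ∑ i, (y i - (x ⊓ y) i) = n1 (x - y) := by
    unfold n1
    rw [← Finset.sum_add_distrib]
    apply Finset.sum_congr rfl
    intro i _
    simp only [Pi.sub_apply, Pi.inf_apply]
    rcases le_total (x i) (y i) with h | h
    · rw [min_eq_left h, abs_of_nonpos (by linarith)]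
      ring
    · rw [min_eq_right h, abs_of_nonneg (by linarith)]
      ring
  linarith

theorem ext_int (H : (Fin d → ℤ) → Fin d → ℤ) (z : Fin d → ℤ) (i : Fin d) :
    ext H (fun j => (z j : ℝ)) i = H z i := by
  rw [ext_eq_Ioo]
  have h : ∫ θ in Set.Ioo (0 : ℝ) 1, (H (cp (fun j => (z j : ℝ)) θ) i : ℝ) =
      ∫ θ in Set.Ioo (0 : ℝ) 1, (H z i : ℝ) := by
    apply setIntegral_congr_fun measurableSet_Ioo
    intro θ hθ
    have : cp (fun j => (z j : ℝ)) θ = z := by
      funext j
      unfold cp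
      rw [Int.ceil_eq_iff]
      constructor
      · linarith [hθ.2]
      · linarith [hθ.1]
    simp only [this]
  rw [h]
  simp

/-- The points visited by the rounding. -/
def cpSet (x : Fin d → ℝ) : Set (Fin d → ℤ) := cp x '' Set.Ioo (0 : ℝ) 1

theorem cpSet_card (x : Fin d → ℝ) : (cpSet x).Finite ∧ (cpSet x).ncard ≤ d + 1 := by
  classical
  set N : ℤ := ∑ j, ⌈x j⌉ with hN
  let σ : (Fin d → ℤ) → ℤ := fun z => ∑ j, z j
  have hmaps : Set.MapsTo σ (cpSet x) (Finset.Icc (N - d) N : Finset ℤ) := by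
    rintro z ⟨θ, hθ, rfl⟩
    have h1 : ∀ j, cp x θ j ≤ ⌈x j⌉ := by
      intro j
      apply Int.ceil_mono
      linarith [hθ.1]
    have h2 : ∀ j, ⌈x j⌉ - 1 ≤ cp x θ j := by
      intro j
      have : ⌈x j - 1⌉ ≤ ⌈x j - θ⌉ := by
        apply Int.ceil_mono
        linarith [hθ.2]
      rw [Int.ceil_sub_one] at this
      exact this
    simp only [Finset.coe_Icc, Set.mem_Icc]
    constructor
    · have : ∑ j : Fin d, (⌈x j⌉ - 1) ≤ ∑ j, cp x θ j := Finset.sum_le_sum (fun j _ => h2 j)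
      rw [Finset.sum_sub_distrib] at this
      simpa using this
    · exact Finset.sum_le_sum (fun j _ => h1 j)
  have hinj : Set.InjOn σ (cpSet x) := by
    rintro z ⟨θ, hθ, rfl⟩ z' ⟨θ', hθ', rfl⟩ he
    have key : ∀ s t : ℝ, s ≤ t → σ (cp x s) = σ (cp x t) → cp x s = cp x t := by
      intro s t hst h
      have hle : ∀ j ∈ Finset.univ, cp x t j ≤ cp x s j := by
        intro j _
        apply Int.ceil_mono
        linarith
      have := (Finset.sum_eq_sum_iff_of_le hle).1 h.symm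
      funext j
      exact (this j (Finset.mem_univ j)).symm
    rcases le_total θ θ' with h | h
    · exact key θ θ' h he
    · exact (key θ' θ h he.symm).symm
  have hfin : (cpSet x).Finite :=
    Set.Finite.of_injOn hmaps hinj (Finset.finite_toSet _)
  refine ⟨hfin, ?_⟩
  have := Set.ncard_le_ncard_of_injOn σ hmaps hinj (Finset.finite_toSet _)
  refine this.trans ?_
  rw [Set.ncard_coe_finset, Int.card_Icc]
  have : N + 1 - (N - (d : ℤ)) = ((d + 1 : ℕ) : ℤ) := by push_cast; ring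
  rw [this]
  simp

/-- The extension is computed with at most `d + 1` questions to the integer map. -/
theorem ext_prog (x : Fin d → ℝ) :
    ∃ p : Prog (Fin d → ℤ) (Fin d → ℤ) (Fin d → ℝ), ∀ H : (Fin d → ℤ) → Fin d → ℤ,
      p.eval H = ext H x ∧ p.cost H ≤ d + 1 := by
  classical
  obtain ⟨hfin, hcard⟩ := cpSet_card x
  set l : List (Fin d → ℤ) := hfin.toFinset.toList with hl
  refine ⟨(Prog.collectL (fun q => Prog.one q id) (fun _ => 0) l).map (fun G => ext G x), ?_⟩
  intro H
  constructor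
  · rw [Prog.eval_map]
    funext i
    rw [ext_eq_Ioo, ext_eq_Ioo]
    apply setIntegral_congr_fun measurableSet_Ioo
    intro θ hθ
    have hm : cp x θ ∈ l := by
      rw [hl, Finset.mem_toList, Set.Finite.mem_toFinset]
      exact ⟨θ, hθ, rfl⟩
    have := Prog.eval_collectL H (fun q : Fin d → ℤ => Prog.one q id) (fun _ => (0 : Fin d → ℤ))
      l (cp x θ) hm
    simp only [this, Prog.eval_one, id]
  · rw [Prog.cost_map, Prog.cost_collectL]
    simp only [Prog.cost_one, List.map_const', List.sum_replicate, smul_eq_mul, mul_one]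
    rw [hl, Finset.length_toList, ← Set.ncard_eq_toFinset_card _ hfin]
    exact hcard

end SAQ
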