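import Pool.Agent.SAQ.Defs

/-!
# Rounding an approximate fixed point to an integer fixed point

Let `δ = (1/2)^(d+1)`, `w_i = ⌊x_i⌋ + 1 - x_i ∈ (0,1]`.  Among the finsets `A` of
indices with `∑_{A} w + δ ≤ 2^|A| δ` (the empty set is one) take one with the most elements, and
put `s = ∑_A w`.  Then `s + δ ≤ 1/2`, and `w_i > s + δ` for `i ∉ A` (otherwise add `i`).
`rnd x i = ⌊x_i⌋ + 1` for `i ∈ A`, `⌊x_i⌋` otherwise; write `v = rnd x`.  It depends on `x` only.
* `v` lies in the box: for `i ∈ A`, `w_i ≤ s < 1`, so `x_i` is not an integer and `x_i < L`.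
* `G v ≤ v`: let `v⁺ = x ⊔ v = x + w·1_A`; `G v i ≤ G v⁺ i ≤ G x i + s ≤ x_i + δ + s` (the
  increments `G v⁺ - G x` are `≥ 0` with sum `≤ s`, and `|G x i - x i| ≤ δ`), which is
  `< ⌊x_i⌋ + 1` for `i ∉ A` and `< ⌊x_i⌋ + 2` for `i ∈ A`; `G v i` is an integer.
* `∑ (v - G v) ≤ s + δ < 1`: with `v⁻ = x ⊓ v`, `∑ G v ≥ ∑ G v⁻ ≥ ∑ G x - ∑ (x - v⁻)
  ≥ ∑ v⁻ - δ = ∑ v - s - δ`.  So the nonnegative integers `v_i - G v i` are all `0`.
-/

namespace SAQ

/-- The distance to the next integer. -/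
private noncomputable def gap {d : ℕ} (x : Fin d → ℝ) (i : Fin d) : ℝ := (⌊x i⌋ : ℝ) + 1 - x i

private theorem gap_pos {d : ℕ} (x : Fin d → ℝ) (i : Fin d) : 0 < gap x i := by
  unfold gap; linarith [Int.lt_floor_add_one (x i)]

private theorem gap_le {d : ℕ} (x : Fin d → ℝ) (i : Fin d) : gap x i ≤ 1 := by
  unfold gap; linarith [Int.floor_le (x i)]

/-- The set of coordinates to be rounded up. -/
private theorem exists_up {d : ℕ} (x : Fin d → ℝ) : ∃ A : Finset (Fin d),
    ∑ i ∈ A, gap x i + (1 / 2 : ℝ) ^ (d + 1) ≤ 1 / 2 ∧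
    ∀ i, i ∉ A → ∑ i ∈ A, gap x i + (1 / 2 : ℝ) ^ (d + 1) < gap x i := by
  classical
  set δ : ℝ := (1 / 2 : ℝ) ^ (d + 1) with hδ
  have hδ0 : 0 < δ := by positivity
  let S : Finset (Finset (Fin d)) :=
    Finset.univ.filter (fun A => ∑ i ∈ A, gap x i + δ ≤ 2 ^ A.card * δ)
  have hS : S.Nonempty := ⟨∅, by simp [S]⟩
  obtain ⟨A, hA, hmax⟩ := S.exists_max_image Finset.card hS
  have hA' : ∑ i ∈ A, gap x i + δ ≤ 2 ^ A.card * δ := by
    simpa [S] using hA
  refine ⟨A, ?_, ?_⟩
  · refine hA'.trans ?_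
    have h1 : (2 : ℝ) ^ A.card ≤ 2 ^ d := by
      apply pow_le_pow_right₀ (by norm_num)
      simpa using Finset.card_le_univ A
    have h2 : (2 : ℝ) ^ d * δ = 1 / 2 := by
      rw [hδ, pow_succ, ← mul_assoc, ← mul_pow]; norm_num
    calc (2 : ℝ) ^ A.card * δ ≤ 2 ^ d * δ := by gcongr
      _ = 1 / 2 := h2
  · intro i hi
    by_contra hcon
    push Not at hcon
    have hmem : insert i A ∈ S := by
      simp only [S, Finset.mem_filter, Finset.mem_univ, true_and]
      rw [Finset.sum_insert hi, Finset.card_insert_of_notMem hi, pow_succ]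
      nlinarith
    have := hmax _ hmem
    rw [Finset.card_insert_of_notMem hi] at this
    omega

/-- There is a rounding rule, the same for all maps, that turns every `(1/2)^(d+1)`-approximate
fixed point of a monotone sum-nonexpansive map `G` of the real box that is integral at integer
points into an integer fixed point. -/
theorem round_exists (d : ℕ) : ∃ rnd : (Fin d → ℝ) → Fin d → ℤ, ∀ (L : ℕ)
    (G : (Fin d → ℝ) → Fin d → ℝ),
    (∀ x ∈ rbox d L, G x ∈ rbox d L) →
    (∀ x ∈ rbox d L, ∀ y ∈ rbox d L, x ≤ y → G x ≤ G y) →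
    (∀ x ∈ rbox d L, ∀ y ∈ rbox d L, x ≤ y → ∑ i, (G y i - G x i) ≤ ∑ i, (y i - x i)) →
    (∀ z ∈ ibox (Fin d) L, ∀ i, ∃ k : ℤ, G (fun j => (z j : ℝ)) i = k) →
    ∀ x ∈ rbox d L, n1 (G x - x) ≤ (1 / 2 : ℝ) ^ (d + 1) →
      rnd x ∈ ibox (Fin d) L ∧ G (fun j => (rnd x j : ℝ)) = fun j => (rnd x j : ℝ) := by
  classical
  choose A hA1 hA2 using fun x : Fin d → ℝ => exists_up x
  refine ⟨fun x i => if i ∈ A x then ⌊x i⌋ + 1 else ⌊x i⌋, ?_⟩
  intro L G _ hmono hsum hint x hx hn
  have hs1 := hA1 x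
  have hs2 := hA2 x
  set δ : ℝ := (1 / 2 : ℝ) ^ (d + 1) with hδ
  have hδ0 : 0 < δ := by positivity
  set s : ℝ := ∑ i ∈ A x, gap x i with hs
  set v : Fin d → ℤ := fun i => if i ∈ A x then ⌊x i⌋ + 1 else ⌊x i⌋ with hv
  have hs0 : 0 ≤ s := Finset.sum_nonneg (fun i _ => (gap_pos x i).le)
  have hgs : ∀ i ∈ A x, gap x i ≤ s := fun i hi =>
    Finset.single_le_sum (f := fun i => gap x i) (fun j _ => (gap_pos x j).le) hi
  -- the rounded point is in the box
  have hvbox : v ∈ ibox (Fin d) L := by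
    intro i
    have h0 : 0 ≤ ⌊x i⌋ := Int.floor_nonneg.2 (hx i).1
    have hL : ⌊x i⌋ ≤ (L : ℤ) := by
      have : (⌊x i⌋ : ℝ) ≤ (L : ℝ) := (Int.floor_le _).trans (hx i).2
      exact_mod_cast this
    by_cases hi : i ∈ A x
    · simp only [hv, hi, if_true]
      refine ⟨by omega, ?_⟩
      have h1 : gap x i < 1 := by linarith [hgs i hi]
      have h2 : (⌊x i⌋ : ℝ) < (L : ℝ) := by
        unfold gap at h1; linarith [(hx i).2]
      have h3 : ⌊x i⌋ < (L : ℤ) := by exact_mod_cast h2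
      omega
    · simp only [hv, hi, if_false]
      exact ⟨h0, hL⟩
  have hvr : (fun j => (v j : ℝ)) ∈ rbox d L := by
    intro i
    have := hvbox i
    have h1 : (0 : ℝ) ≤ (v i : ℝ) := by exact_mod_cast this.1
    have h2 : (v i : ℝ) ≤ (L : ℝ) := by exact_mod_cast this.2
    exact ⟨h1, h2⟩
  -- values of v
  have hvA : ∀ i ∈ A x, (v i : ℝ) = x i + gap x i := by
    intro i hi
    simp only [hv, hi, if_true, gap]; push_cast; ring
  have hvN : ∀ i, i ∉ A x → (v i : ℝ) = x i - (1 - gap x i) := by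
    intro i hi
    simp only [hv, hi, if_false, gap]; ring
  -- upper point
  set vp : Fin d → ℝ := fun i => if i ∈ A x then (v i : ℝ) else x i with hvp
  set vm : Fin d → ℝ := fun i => if i ∈ A x then x i else (v i : ℝ) with hvm
  have hvpbox : vp ∈ rbox d L := by
    intro i
    by_cases hi : i ∈ A x
    · simp only [hvp, hi, if_true]; exact hvr i
    · simp only [hvp, hi, if_false]; exact hx i
  have hvmbox : vm ∈ rbox d L := by
    intro i
    by_cases hi : i ∈ A x
    · simp only [hvm, hi, if_true]; exact hx i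
    · simp only [hvm, hi, if_false]; exact hvr i
  have hx_vp : x ≤ vp := by
    intro i
    by_cases hi : i ∈ A x
    · simp only [hvp, hi, if_true]; rw [hvA i hi]; linarith [gap_pos x i]
    · simp only [hvp, hi, if_false]; exact le_rfl
  have hv_vp : (fun j => (v j : ℝ)) ≤ vp := by
    intro i
    by_cases hi : i ∈ A x
    · simp only [hvp, hi, if_true]; exact le_rfl
    · simp only [hvp, hi, if_false]; rw [hvN i hi]; linarith [gap_le x i]
  have hvm_x : vm ≤ x := by
    intro i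
    by_cases hi : i ∈ A x
    · simp only [hvm, hi, if_true]; exact le_rfl
    · simp only [hvm, hi, if_false]; rw [hvN i hi]; linarith [gap_le x i]
  have hvm_v : vm ≤ (fun j => (v j : ℝ)) := by
    intro i
    by_cases hi : i ∈ A x
    · simp only [hvm, hi, if_true]; rw [hvA i hi]; linarith [gap_pos x i]
    · simp only [hvm, hi, if_false]; exact le_rfl
  have hsump : ∑ i, (vp i - x i) = s := by
    rw [hs, ← Finset.sum_filter_add_sum_filter_not Finset.univ (fun i => i ∈ A x)]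
    have e1 : ∑ i ∈ Finset.univ.filter (fun i => i ∈ A x), (vp i - x i)
        = ∑ i ∈ A x, gap x i := by
      rw [Finset.filter_mem_eq_inter, Finset.univ_inter]
      refine Finset.sum_congr rfl (fun i hi => ?_)
      simp only [hvp, hi, if_true]; rw [hvA i hi]; ring
    have e2 : ∑ i ∈ Finset.univ.filter (fun i => ¬ i ∈ A x), (vp i - x i) = 0 := by
      refine Finset.sum_eq_zero (fun i hi => ?_)
      have hi' : i ∉ A x := (Finset.mem_filter.1 hi).2
      simp only [hvp, hi', if_false]; ring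
    rw [e1, e2, add_zero]
  have hsumm : ∑ i, ((v i : ℝ) - vm i) = s := by
    rw [hs, ← Finset.sum_filter_add_sum_filter_not Finset.univ (fun i => i ∈ A x)]
    have e1 : ∑ i ∈ Finset.univ.filter (fun i => i ∈ A x), ((v i : ℝ) - vm i)
        = ∑ i ∈ A x, gap x i := by
      rw [Finset.filter_mem_eq_inter, Finset.univ_inter]
      refine Finset.sum_congr rfl (fun i hi => ?_)
      simp only [hvm, hi, if_true]; rw [hvA i hi]; ring
    have e2 : ∑ i ∈ Finset.univ.filter (fun i => ¬ i ∈ A x), ((v i : ℝ) - vm i) = 0 := by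
      refine Finset.sum_eq_zero (fun i hi => ?_)
      have hi' : i ∉ A x := (Finset.mem_filter.1 hi).2
      simp only [hvm, hi', if_false]; ring
    rw [e1, e2, add_zero]
  -- closeness
  have hcl : ∀ i, |G x i - x i| ≤ δ := by
    intro i
    refine le_trans ?_ hn
    unfold n1
    exact Finset.single_le_sum (f := fun i => |(G x - x) i|) (fun j _ => abs_nonneg _)
      (Finset.mem_univ i)
  have hclsum : |∑ i, (G x i - x i)| ≤ δ := by
    refine (Finset.abs_sum_le_sum_abs _ _).trans ?_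
    simpa [n1] using hn
  -- `G v ≤ v`
  have hGle : ∀ i, G (fun j => (v j : ℝ)) i ≤ (v i : ℝ) := by
    intro i
    obtain ⟨k, hk⟩ := hint v hvbox i
    have h1 : G (fun j => (v j : ℝ)) i ≤ G vp i := hmono _ hvr _ hvpbox hv_vp i
    have h2 : G vp i - G x i ≤ s := by
      have h3 : G vp i - G x i ≤ ∑ j, (G vp j - G x j) :=
        Finset.single_le_sum (f := fun j => G vp j - G x j)
          (fun j _ => sub_nonneg.2 (hmono _ hx _ hvpbox hx_vp j)) (Finset.mem_univ i)
      exact h3.trans ((hsum _ hx _ hvpbox hx_vp).trans hsump.le)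
    have h4 := (abs_le.1 (hcl i)).2
    have h5 : (k : ℝ) ≤ x i + δ + s := by rw [← hk]; linarith
    rw [hk]
    have h6 : (k : ℝ) < (v i : ℝ) + 1 := by
      by_cases hi : i ∈ A x
      · have := gap_pos x i
        rw [hvA i hi]; linarith
      · have := hs2 i hi
        rw [hvN i hi]; linarith
    have h7 : k < v i + 1 := by exact_mod_cast h6
    have h8 : k ≤ v i := by omega
    exact_mod_cast h8
  -- sum bound
  have hsumle : ∑ i, ((v i : ℝ) - G (fun j => (v j : ℝ)) i) ≤ s + δ := by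
    have h1 : ∑ i, G vm i ≤ ∑ i, G (fun j => (v j : ℝ)) i :=
      Finset.sum_le_sum (fun i _ => hmono _ hvmbox _ hvr hvm_v i)
    have h2 := hsum _ hvmbox _ hx hvm_x
    have h3 := (abs_le.1 hclsum).1
    rw [Finset.sum_sub_distrib] at h2 h3 hsumm ⊢
    rw [Finset.sum_sub_distrib] at h2
    linarith
  refine ⟨hvbox, ?_⟩
  funext i
  obtain ⟨k, hk⟩ := hint v hvbox i
  have h1 : (v i : ℝ) - G (fun j => (v j : ℝ)) i ≤ s + δ :=
    (Finset.single_le_sum (f := fun i => (v i : ℝ) - G (fun j => (v j : ℝ)) i)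
      (fun j _ => sub_nonneg.2 (hGle j)) (Finset.mem_univ i)).trans hsumle
  have h2 := hGle i
  rw [hk] at h1 h2 ⊢
  have h3 : v i < k + 1 := by
    have : (v i : ℝ) < (k : ℝ) + 1 := by linarith
    exact_mod_cast this
  have h4 : k ≤ v i := by exact_mod_cast h2
  have h5 : k = v i := by omega
  rw [h5]

end SAQ
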