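import Pool.Agent.SAQ.Contract
import Pool.Agent.SAQ.Ext
import Pool.Agent.SAQ.Round

/-!
# Integer fixed points of monotone sum-nonexpansive maps with few queries

BLUEPRINT.  `δ = (1/2)^(d+1)`, `1 - lam = δ / (2 (d+1) L)`, `ε = δ / (2 L)`; apply `contract_prog`
to `Ψ x = lam • ext H (L x) / L` on the cube, simulating each question by `ext_prog` at `L x`
(`Prog.sim`), and round the answer `x` of it: `n1 (ext H (L x) - L x) ≤ L (ε + (1-lam) d) ≤ δ`, so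
`rnd (L x)` is a fixed point of `H` (`round_exists` with `G = ext H`, `ext_int`).  The number `b`:
`((1-lam) ε / 8)/(d+1) = δ² / (32 (d+1)² L²) ≥ (1/2)^(4 d + 7 + 2 ℓ)` if `L ≤ 2^ℓ` (use
`(d+1)² ≤ 2^(2d)`), so `b = d (4 d + 7 + 2 ℓ) + 1` works.
`intfix` transports this to an arbitrary finite index type along `Fintype.equivFin`
(a question at `x : Fin d → ℤ` is the question at `x ∘ e`, etc.).
-/

namespace SAQ

theorem succ_le_two_pow (d : ℕ) : ((d : ℝ) + 1) ≤ 2 ^ d := by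
  have h : d + 1 ≤ 2 ^ d := Nat.lt_two_pow_self
  exact_mod_cast h

/-- The numerical inequality behind the choice of the number of cuts. -/
theorem intfix_num (d L ℓ : ℕ) (hL : 1 ≤ L) (hℓ : L ≤ 2 ^ ℓ) :
    (1 / 2 : ℝ) ^ (d * (4 * d + 7 + 2 * ℓ) + 1) <
      ((((1 / 2 : ℝ) ^ (d + 1) / (2 * (d + 1) * L)) * ((1 / 2 : ℝ) ^ (d + 1) / (2 * L)) / 8) /
        (d + 1)) ^ d := by
  have hL0 : (0 : ℝ) < L := by exact_mod_cast hL
  have hLr : (L : ℝ) ≤ 2 ^ ℓ := by exact_mod_cast hℓ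
  have hd0 : (0 : ℝ) < (d : ℝ) + 1 := by positivity
  have hd1 := succ_le_two_pow d
  have key : (1 / 2 : ℝ) ^ (4 * d + 7 + 2 * ℓ) ≤
      ((((1 / 2 : ℝ) ^ (d + 1) / (2 * (d + 1) * L)) * ((1 / 2 : ℝ) ^ (d + 1) / (2 * L)) / 8) /
        (d + 1)) := by
    have h1 : ((((1 / 2 : ℝ) ^ (d + 1) / (2 * (d + 1) * L)) *
        ((1 / 2 : ℝ) ^ (d + 1) / (2 * L)) / 8) / (d + 1)) =
        1 / (2 ^ (2 * d + 2) * 2 ^ 5 * (((d : ℝ) + 1) ^ 2 * (L : ℝ) ^ 2)) := by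
      have h2 : (1 / 2 : ℝ) ^ (d + 1) = 1 / 2 ^ (d + 1) := by
        rw [one_div, inv_pow, one_div]
      have h3 : (2 : ℝ) ^ (2 * d + 2) = 2 ^ (d + 1) * 2 ^ (d + 1) := by
        rw [← pow_add]; congr 1; ring
      rw [h2, h3]
      field_simp
      norm_num
    have h4 : (1 / 2 : ℝ) ^ (4 * d + 7 + 2 * ℓ) =
        1 / (2 ^ (2 * d + 2) * 2 ^ 5 * ((2 ^ d) ^ 2 * ((2 : ℝ) ^ ℓ) ^ 2)) := by
      rw [one_div, inv_pow, one_div, ← pow_mul, ← pow_mul, ← pow_add, ← pow_add, ← pow_add]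
      congr 2
      ring
    rw [h1, h4]
    apply one_div_le_one_div_of_le (by positivity)
    have h5 : ((d : ℝ) + 1) ^ 2 ≤ (2 ^ d) ^ 2 := pow_le_pow_left₀ hd0.le hd1 2
    have h6 : (L : ℝ) ^ 2 ≤ (2 ^ ℓ) ^ 2 := pow_le_pow_left₀ hL0.le hLr 2
    have h7 : ((d : ℝ) + 1) ^ 2 * (L : ℝ) ^ 2 ≤ (2 ^ d) ^ 2 * ((2 : ℝ) ^ ℓ) ^ 2 :=
      mul_le_mul h5 h6 (by positivity) (by positivity)
    exact mul_le_mul_of_nonneg_left h7 (by positivity)
  calc (1 / 2 : ℝ) ^ (d * (4 * d + 7 + 2 * ℓ) + 1)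
      < (1 / 2 : ℝ) ^ (d * (4 * d + 7 + 2 * ℓ)) :=
        pow_lt_pow_right_of_lt_one₀ (by norm_num) (by norm_num) (Nat.lt_succ_self _)
    _ = ((1 / 2 : ℝ) ^ (4 * d + 7 + 2 * ℓ)) ^ d := by rw [← pow_mul, mul_comm]
    _ ≤ _ := pow_le_pow_left₀ (by positivity) key d

theorem n1_smul_sub {d : ℕ} (c : ℝ) (hc : 0 ≤ c) (x : Fin d → ℝ) :
    n1 (fun i => c * x i) = c * n1 x := by
  unfold n1
  rw [Finset.mul_sum]
  exact Finset.sum_congr rfl (fun i _ => by rw [abs_mul, abs_of_nonneg hc])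

theorem intfix_fin {d L ℓ : ℕ} (hL : 1 ≤ L) (hℓ : L ≤ 2 ^ ℓ) :
    ∃ p : Prog (Fin d → ℤ) (Fin d → ℤ) (Fin d → ℤ), ∀ H : (Fin d → ℤ) → Fin d → ℤ, IMap L H →
      p.eval H ∈ ibox (Fin d) L ∧ H (p.eval H) = p.eval H ∧
      p.cost H ≤ (d + 1) * ((d + 2) * (d * (4 * d + 7 + 2 * ℓ) + 1)) := by
  obtain ⟨rnd, hrnd⟩ := round_exists d
  have hL0 : (0 : ℝ) < L := by exact_mod_cast hL
  have hL1 : (1 : ℝ) ≤ L := by exact_mod_cast hL
  have hd0 : (0 : ℝ) < (d : ℝ) + 1 := by positivity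
  have hd0' : (0 : ℝ) ≤ (d : ℝ) := by positivity
  obtain ⟨δ, hδ⟩ : ∃ δ : ℝ, δ = (1 / 2 : ℝ) ^ (d + 1) := ⟨_, rfl⟩
  have hδ0 : 0 < δ := by rw [hδ]; positivity
  have hδ1 : δ ≤ 1 := by rw [hδ]; exact pow_le_one₀ (by norm_num) (by norm_num)
  obtain ⟨μ, hμ⟩ : ∃ μ : ℝ, μ = δ / (2 * (d + 1) * L) := ⟨_, rfl⟩
  have hμ0 : 0 < μ := by rw [hμ]; positivity
  have hμ1 : μ ≤ 1 := by
    rw [hμ, div_le_one (by positivity)]
    nlinarith
  obtain ⟨ε, hε⟩ : ∃ ε : ℝ, ε = δ / (2 * L) := ⟨_, rfl⟩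
  have hε0 : 0 < ε := by rw [hε]; positivity
  have hε1 : ε ≤ 1 := by
    rw [hε, div_le_one (by positivity)]
    nlinarith
  have hb : (1 / 2 : ℝ) ^ (d * (4 * d + 7 + 2 * ℓ) + 1) <
      (((1 - (1 - μ)) * ε / 8) / (d + 1)) ^ d := by
    have := intfix_num d L ℓ hL hℓ
    rw [← hδ, ← hμ, ← hε] at this
    simpa using this
  obtain ⟨p0, hp0⟩ := contract_prog (d := d) (lam := 1 - μ) (ε := ε) (by linarith) (by linarith)
    hε0 hε1 hb
  choose q hq using fun x : Fin d → ℝ => ext_prog x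
  let s : (Fin d → ℝ) → Prog (Fin d → ℤ) (Fin d → ℤ) (Fin d → ℝ) := fun x =>
    (q (fun j => L * x j)).map (fun r i => (1 - μ) * r i / L)
  refine ⟨(p0.sim s).map (fun x => rnd (fun j => L * x j)), fun H hH => ?_⟩
  let Ψ : (Fin d → ℝ) → Fin d → ℝ := fun x i => (1 - μ) * ext H (fun j => L * x j) i / L
  have hs : (fun x => (s x).eval H) = Ψ := by
    funext x
    simp only [s, Prog.eval_map, Ψ, (hq _ H).1]
  have hbox : ∀ x ∈ cube d, (fun j => (L : ℝ) * x j) ∈ rbox d L := by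
    intro x hx i
    refine ⟨mul_nonneg hL0.le (hx i).1, ?_⟩
    calc (L : ℝ) * x i ≤ L * 1 := mul_le_mul_of_nonneg_left (hx i).2 hL0.le
      _ = L := mul_one _
  have hΨ1 : ∀ x ∈ cube d, Ψ x ∈ cube d := by
    intro x hx i
    have h1 := ext_maps hH (hbox x hx) i
    refine ⟨div_nonneg (mul_nonneg (by linarith) h1.1) hL0.le, ?_⟩
    rw [div_le_one hL0]
    nlinarith [h1.1, h1.2]
  have hΨ2 : ∀ x ∈ cube d, ∀ y ∈ cube d, n1 (Ψ x - Ψ y) ≤ (1 - μ) * n1 (x - y) := by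
    intro x hx y hy
    have h1 := ext_nonexp hH (hbox x hx) (hbox y hy)
    have h2 : Ψ x - Ψ y = fun i => ((1 - μ) / L) *
        (ext H (fun j => (L : ℝ) * x j) - ext H (fun j => (L : ℝ) * y j)) i := by
      funext i
      simp only [Pi.sub_apply, Ψ]
      ring
    have h3 : (fun j => (L : ℝ) * x j) - (fun j => (L : ℝ) * y j) =
        fun j => (L : ℝ) * (x - y) j := by
      funext j
      simp only [Pi.sub_apply]
      ring
    rw [h2, n1_smul_sub _ (div_nonneg (by linarith) hL0.le)]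
    rw [h3, n1_smul_sub _ hL0.le] at h1
    calc (1 - μ) / L * n1 (ext H (fun j => (L : ℝ) * x j) - ext H (fun j => (L : ℝ) * y j))
        ≤ (1 - μ) / L * (L * n1 (x - y)) :=
          mul_le_mul_of_nonneg_left h1 (div_nonneg (by linarith) hL0.le)
      _ = (1 - μ) * n1 (x - y) := by field_simp
  obtain ⟨h1, h2, h3⟩ := hp0 Ψ hΨ1 hΨ2
  have hev : ((p0.sim s).map (fun x => rnd (fun j => L * x j))).eval H =
      rnd (fun j => (L : ℝ) * p0.eval Ψ j) := by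
    rw [Prog.eval_map, Prog.eval_sim, hs]
  have hcost : ((p0.sim s).map (fun x => rnd (fun j => L * x j))).cost H ≤
      (d + 1) * ((d + 2) * (d * (4 * d + 7 + 2 * ℓ) + 1)) := by
    rw [Prog.cost_map]
    refine (Prog.cost_sim_le H s (c := d + 1) (fun x => ?_) p0).trans ?_
    · simp only [s, Prog.cost_map]
      exact (hq _ H).2
    · rw [hs]
      exact Nat.mul_le_mul_left _ h3
  rw [hev]
  obtain ⟨x, hx⟩ : ∃ x, x = p0.eval Ψ := ⟨_, rfl⟩
  rw [← hx] at h1 h2 ⊢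
  have hxb := hbox x h1
  have hclose : n1 (ext H (fun j => (L : ℝ) * x j) - fun j => (L : ℝ) * x j) ≤
      (1 / 2 : ℝ) ^ (d + 1) := by
    rw [← hδ]
    have h4 : n1 (ext H (fun j => (L : ℝ) * x j) - fun j => (L : ℝ) * x j) ≤
        L * n1 (Ψ x - x) + μ * (d * L) := by
      unfold n1
      rw [Finset.mul_sum]
      have h5 : μ * ((d : ℝ) * L) = ∑ _i : Fin d, μ * (L : ℝ) := by
        rw [Finset.sum_const, Finset.card_univ, Fintype.card_fin, nsmul_eq_mul]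
        ring
      rw [h5, ← Finset.sum_add_distrib]
      refine Finset.sum_le_sum (fun i _ => ?_)
      have h6 := ext_maps hH hxb i
      have h7 : (ext H (fun j => (L : ℝ) * x j) - fun j => (L : ℝ) * x j) i =
          L * (Ψ x - x) i + μ * ext H (fun j => (L : ℝ) * x j) i := by
        simp only [Pi.sub_apply, Ψ]
        field_simp
        ring
      rw [h7]
      refine (abs_add_le _ _).trans ?_
      rw [abs_mul, abs_mul, abs_of_pos hL0, abs_of_pos hμ0, abs_of_nonneg h6.1]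
      exact add_le_add le_rfl (mul_le_mul_of_nonneg_left h6.2 hμ0.le)
    refine h4.trans ?_
    have h8 : (L : ℝ) * n1 (Ψ x - x) ≤ L * ε := mul_le_mul_of_nonneg_left h2 hL0.le
    have h9 : (L : ℝ) * ε = δ / 2 := by rw [hε]; field_simp
    have h10 : μ * ((d : ℝ) * L) ≤ δ / 2 := by
      rw [hμ, div_mul_eq_mul_div, div_le_div_iff₀ (by positivity) (by norm_num)]
      nlinarith [mul_pos hδ0 hL0]
    linarith
  obtain ⟨h11, h12⟩ := hrnd L (ext H) (fun x hx => ext_maps hH hx)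
    (fun x hx y hy hxy => ext_mono hH hx hy hxy) (fun x hx y hy hxy => ext_sum hH hx hy hxy)
    (fun z _ i => ⟨H z i, ext_int H z i⟩) _ hxb hclose
  refine ⟨h11, ?_, hcost⟩
  funext i
  have h13 := congrFun h12 i
  rw [ext_int] at h13
  exact_mod_cast h13

theorem intfix (ι : Type) [Fintype ι] {L ℓ : ℕ} (hL : 1 ≤ L) (hℓ : L ≤ 2 ^ ℓ) :
    ∃ p : Prog (ι → ℤ) (ι → ℤ) (ι → ℤ), ∀ H : (ι → ℤ) → ι → ℤ, IMap L H →
      p.eval H ∈ ibox ι L ∧ H (p.eval H) = p.eval H ∧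
      p.cost H ≤ (Fintype.card ι + 1) * ((Fintype.card ι + 2) *
        (Fintype.card ι * (4 * Fintype.card ι + 7 + 2 * ℓ) + 1)) := by
  let e := Fintype.equivFin ι
  obtain ⟨p, hp⟩ := intfix_fin (d := Fintype.card ι) hL hℓ
  let s : (Fin (Fintype.card ι) → ℤ) → Prog (ι → ℤ) (ι → ℤ) (Fin (Fintype.card ι) → ℤ) :=
    fun q => Prog.one (q ∘ e) (fun a => a ∘ e.symm)
  refine ⟨(p.sim s).map (fun r => r ∘ e), fun H hH => ?_⟩
  let K : (Fin (Fintype.card ι) → ℤ) → Fin (Fintype.card ι) → ℤ := fun x => H (x ∘ e) ∘ e.symm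
  have hbox : ∀ x ∈ ibox (Fin (Fintype.card ι)) L, x ∘ e ∈ ibox ι L := fun x hx i => hx (e i)
  have hK : IMap L K := by
    refine ⟨fun x hx i => hH.maps _ (hbox x hx) (e.symm i), fun x hx y hy hxy i => ?_,
      fun x hx y hy hxy => ?_⟩
    · exact hH.mono _ (hbox x hx) _ (hbox y hy) (fun i => hxy (e i)) (e.symm i)
    · have h1 := hH.sum _ (hbox x hx) _ (hbox y hy) (fun i => hxy (e i))
      have h2 : ∑ i, (K y i - K x i) = ∑ i, (H (y ∘ e) i - H (x ∘ e) i) :=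
        Fintype.sum_equiv e.symm _ _ (fun i => rfl)
      have h3 : ∑ i, (y i - x i) = ∑ i, ((y ∘ e) i - (x ∘ e) i) := by
        refine (Fintype.sum_equiv e _ _ (fun i => ?_)).symm
        rfl
      rw [h2, h3]
      exact h1
  have hs : (fun x => (s x).eval H) = K := by
    funext x
    rfl
  have hev : ((p.sim s).map (fun r => r ∘ e)).eval H = p.eval K ∘ e := by
    rw [Prog.eval_map, Prog.eval_sim, hs]
  obtain ⟨h1, h2, h3⟩ := hp K hK
  rw [hev]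
  refine ⟨hbox _ h1, ?_, ?_⟩
  · funext i
    have h4 := congrFun h2 (e i)
    simpa [K] using h4
  · rw [Prog.cost_map]
    refine (Prog.cost_sim_le H s (c := 1) (fun x => ?_) p).trans ?_
    · simp [s]
    · rw [hs, one_mul]
      exact h3

end SAQ
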