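import Pool.Agent.SAQ.OptA
import Pool.Agent.SAQ.Prog

/-!
# Computing the choice function with few value queries

BLUEPRINT.  Let `n = card V`, `x* = Ch z`, `0 ≤ z ≤ B`.  The program keeps `l, u : V → ℤ` with
`0 ≤ l ≤ x* ≤ u ≤ z`.
(1) Tighten: for every `i` replace `u i` by the largest `t ∈ [l i, u i]` with
    `l + (t - l i) e_i ∈ D`, by binary search (membership in `D` is monotone in `t`, `t = l i` is
    fine since `l ≤ x*`), at most `ℓ + 1` queries each if `B < 2^ℓ`.  Still `x* ≤ u`, because
    `l + (x* i - l i) e_i ≤ x*`.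
(2) `x = l + ⌊(u - l)/(n+1)⌋` is in `D` by `center_mem`.
(3) Ask for the key at all `x - e_a + e_b`, `a b : Option V`, that are between `0` and `z`; let
    `(a, b)` be a pair with the largest key.  If `key x` is the largest then `x = x*` (`local_opt`).
    Otherwise `x' = x - e_a + e_b` has `key x < key x'` and if `b = some j` then `x* j ≥ x j + 1`,
    if `a = some i` then `x* i ≤ x i - 1` (`cut_up`, `cut_down`); replace `l j` by `x j + 1` or
    `u i` by `x i - 1` (one of them is enough).  The width `w = u j - l j` of this coordinate is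
    `≥ 1` before and becomes at most `w (1 - 1/(n+1))`.
Number of rounds: `∏ (u i - l i + 1) ≥ 1` is at first at most `2^(ℓ n)` and is multiplied by at most
`n/(n+1)` in each round that does not end the program, so there are at most
`2 (n+1) (ℓ n + 1)` rounds.  Each round costs at most `n ℓ + (n+1)^2` queries.
-/

namespace SAQ

open Classical in
/-- Binary search for the largest good integer of `[lo, hi]`. -/
noncomputable def bs {Q A : Type} (q : ℤ → Q) (good : A → Prop) : ℕ → ℤ → ℤ → Prog Q A ℤ
  | 0, lo, _ => Prog.ret lo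
  | k + 1, lo, hi => Prog.ask (q (lo + (hi - lo + 1) / 2)) (fun a =>
      if good a then bs q good k (lo + (hi - lo + 1) / 2) hi
      else bs q good k lo (lo + (hi - lo + 1) / 2 - 1))

theorem bs_cost {Q A : Type} (q : ℤ → Q) (good : A → Prop) (o : Q → A) (k : ℕ) (lo hi : ℤ) :
    (bs q good k lo hi).cost o = k := by
  induction k generalizing lo hi with
  | zero => rfl
  | succ k ih =>
    simp only [bs, Prog.cost_ask]
    split_ifs
    · rw [ih]
    · rw [ih]

theorem bs_spec {Q A : Type} (q : ℤ → Q) (good : A → Prop) (o : Q → A) (k : ℕ) (lo hi : ℤ)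
    (hk : hi - lo < 2 ^ k) (hle : lo ≤ hi) (hlo : good (o (q lo)))
    (hmono : ∀ s t, lo ≤ s → s ≤ t → t ≤ hi → good (o (q t)) → good (o (q s))) :
    lo ≤ (bs q good k lo hi).eval o ∧ (bs q good k lo hi).eval o ≤ hi ∧
      good (o (q ((bs q good k lo hi).eval o))) ∧
      ∀ t, lo ≤ t → t ≤ hi → good (o (q t)) → t ≤ (bs q good k lo hi).eval o := by
  induction k generalizing lo hi with
  | zero =>
    have h1 : lo = hi := by
      have : hi - lo < 1 := by simpa using hk
      omega
    subst h1
    simp only [bs, Prog.eval_ret]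
    exact ⟨le_refl _, le_refl _, hlo, fun t _ h _ => h⟩
  | succ k ih =>
    simp only [bs, Prog.eval_ask]
    have hk' : hi - lo < 2 * 2 ^ k := by
      rw [pow_succ] at hk; linarith
    set c : ℤ := 2 ^ k with hc
    have hcpos : 1 ≤ c := by
      rw [hc]; exact one_le_pow₀ (by norm_num)
    set m : ℤ := lo + (hi - lo + 1) / 2 with hm
    have hm1 : lo ≤ m := by omega
    have hm2 : m ≤ hi := by omega
    by_cases hg : good (o (q m))
    · rw [if_pos hg]
      obtain ⟨h1, h2, h3, h4⟩ := ih m hi (by omega) hm2 hg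
        (fun s t hs hst ht => hmono s t (hm1.trans hs) hst ht)
      refine ⟨hm1.trans h1, h2, h3, fun t ht1 ht2 ht3 => ?_⟩
      by_cases htm : m ≤ t
      · exact h4 t htm ht2 ht3
      · exact (not_le.1 htm).le.trans h1
    · rw [if_neg hg]
      have hlm : lo < m := by
        rcases hm1.lt_or_eq with h | h
        · exact h
        · exact absurd (h ▸ hlo) hg
      obtain ⟨h1, h2, h3, h4⟩ := ih lo (m - 1) (by omega) (by omega) hlo
        (fun s t hs hst ht => hmono s t hs hst (by omega))
      refine ⟨h1, by omega, h3, fun t ht1 ht2 ht3 => ?_⟩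
      by_cases htm : t ≤ m - 1
      · exact h4 t ht1 htm ht3
      · exact absurd (hmono m t hm1 (by omega) ht2 ht3) hg

section Opt

set_option linter.unusedSectionVars false

variable {V : Type} [Fintype V] [DecidableEq V]
variable {Γ : Type} [AddCommGroup Γ] [LinearOrder Γ] [IsOrderedAddMonoid Γ]

theorem orc_ne_bot {D : Set (V → ℤ)} {key : (V → ℤ) → Γ} {y : V → ℤ} :
    orc D key y ≠ ⊥ ↔ y ∈ D := by
  unfold orc
  split_ifs with h
  · simp [h]
  · simp [h]

theorem orc_of_mem {D : Set (V → ℤ)} {key : (V → ℤ) → Γ} {y : V → ℤ} (h : y ∈ D) :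
    orc D key y = (key y : WithBot Γ) := by
  unfold orc
  rw [if_pos h]

/-- Tightening of the upper bounds. -/
noncomputable def tighten (ℓ : ℕ) (l u : V → ℤ) : Prog (V → ℤ) (WithBot Γ) (V → ℤ) :=
  Prog.collect (fun i => bs (fun t => l + Pi.single i (t - l i)) (fun a : WithBot Γ => a ≠ ⊥) ℓ
    (l i) (u i))

theorem tighten_cost (o : (V → ℤ) → WithBot Γ) (ℓ : ℕ) (l u : V → ℤ) :
    (tighten (Γ := Γ) ℓ l u).cost o = Fintype.card V * ℓ := by
  rw [tighten, Prog.cost_collect]
  simp [bs_cost]

theorem tighten_spec {D : Set (V → ℤ)} {key : (V → ℤ) → Γ} (h : Pref D key) {ℓ : ℕ}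
    {l u c : V → ℤ} (hl : 0 ≤ l) (hlc : l ≤ c) (hcu : c ≤ u) (hcD : c ∈ D)
    (hw : ∀ i, u i - l i < 2 ^ ℓ) :
    c ≤ (tighten (Γ := Γ) ℓ l u).eval (orc D key) ∧
    (tighten (Γ := Γ) ℓ l u).eval (orc D key) ≤ u ∧
    ∀ i, l + Pi.single i ((tighten (Γ := Γ) ℓ l u).eval (orc D key) i - l i) ∈ D := by
  have key1 : ∀ i, l i ≤ (tighten (Γ := Γ) ℓ l u).eval (orc D key) i ∧
      (tighten (Γ := Γ) ℓ l u).eval (orc D key) i ≤ u i ∧
      (orc D key) (l + Pi.single i ((tighten (Γ := Γ) ℓ l u).eval (orc D key) i - l i)) ≠ ⊥ ∧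
      ∀ t, l i ≤ t → t ≤ u i → (orc D key) (l + Pi.single i (t - l i)) ≠ ⊥ →
        t ≤ (tighten (Γ := Γ) ℓ l u).eval (orc D key) i := by
    intro i
    rw [tighten, Prog.eval_collect]
    have h0 : (orc D key) (l + Pi.single i (l i - l i)) ≠ ⊥ := by
      rw [orc_ne_bot, sub_self, Pi.single_zero, add_zero]
      exact h.hered c hcD l hl hlc
    refine bs_spec (fun t => l + Pi.single i (t - l i)) (fun a : WithBot Γ => a ≠ ⊥)
      (orc D key) ℓ (l i) (u i) (hw i) ((hlc i).trans (hcu i)) h0 ?_
    intro s t hs hst _ hgt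
    rw [orc_ne_bot] at hgt ⊢
    refine h.hered _ hgt _ ?_ ?_
    · intro w
      by_cases hwi : w = i
      · subst hwi
        have := hl w
        simp only [Pi.zero_apply] at this
        simp only [Pi.zero_apply, Pi.add_apply, Pi.single_eq_same]
        linarith
      · simp only [Pi.add_apply, Pi.single_eq_of_ne hwi, add_zero]
        exact hl w
    · intro w
      by_cases hwi : w = i
      · subst hwi
        simp only [Pi.add_apply, Pi.single_eq_same]
        linarith
      · simp only [Pi.add_apply, Pi.single_eq_of_ne hwi, le_refl]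
  refine ⟨fun i => ?_, fun i => (key1 i).2.1, fun i => orc_ne_bot.1 (key1 i).2.2.1⟩
  refine (key1 i).2.2.2 (c i) (hlc i) (hcu i) ?_
  rw [orc_ne_bot]
  refine h.hered c hcD _ ?_ ?_
  · intro w
    by_cases hwi : w = i
    · subst hwi
      have := hl w
      have := hlc w
      simp only [Pi.zero_apply] at *
      simp only [Pi.add_apply, Pi.single_eq_same]
      linarith
    · simp only [Pi.add_apply, Pi.single_eq_of_ne hwi, add_zero]
      exact hl w
  · intro w
    by_cases hwi : w = i
    · subst hwi
      simp only [Pi.add_apply, Pi.single_eq_same]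
      linarith
    · simp only [Pi.add_apply, Pi.single_eq_of_ne hwi, add_zero]
      exact hlc w

/-- The centre. -/
def mid (l u : V → ℤ) : V → ℤ := fun i => l i + (u i - l i) / (Fintype.card V + 1)

/-- The neighbours. -/
noncomputable def nbrs (x : V → ℤ) :
    Prog (V → ℤ) (WithBot Γ) (Option V × Option V → WithBot Γ) :=
  Prog.collect (fun p : Option V × Option V => Prog.one (x - ev p.1 + ev p.2) id)

theorem nbrs_cost (o : (V → ℤ) → WithBot Γ) (x : V → ℤ) :
    (nbrs (Γ := Γ) x).cost o = (Fintype.card V + 1) ^ 2 := by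
  rw [nbrs, Prog.cost_collect]
  simp [sq]

theorem nbrs_eval (o : (V → ℤ) → WithBot Γ) (x : V → ℤ) :
    (nbrs (Γ := Γ) x).eval o = fun p => o (x - ev p.1 + ev p.2) := by
  rw [nbrs, Prog.eval_collect]
  rfl

open Classical in
/-- The value of a neighbour, `⊥` if it is not below `z`. -/
noncomputable def nval (z x : V → ℤ) (g : Option V × Option V → WithBot Γ)
    (p : Option V × Option V) : WithBot Γ :=
  if x - ev p.1 + ev p.2 ≤ z then g p else ⊥

/-- The best neighbour. -/
noncomputable def best (z x : V → ℤ) (g : Option V × Option V → WithBot Γ) :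
    Option V × Option V := (Finite.exists_max (nval z x g)).choose

theorem best_spec (z x : V → ℤ) (g : Option V × Option V → WithBot Γ)
    (p : Option V × Option V) : nval z x g p ≤ nval z x g (best z x g) :=
  (Finite.exists_max (nval z x g)).choose_spec p

open Classical in
/-- The decision at the end of a round. -/
noncomputable def dec (z x l u : V → ℤ) (g : Option V × Option V → WithBot Γ) :
    (V → ℤ) ⊕ ((V → ℤ) × (V → ℤ)) :=
  if nval z x g (best z x g) ≤ nval z x g (none, none) then Sum.inl x
  else match (best z x g).2 with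
    | some j => Sum.inr (Function.update l j (x j + 1), u)
    | none => match (best z x g).1 with
      | some i => Sum.inr (l, Function.update u i (x i - 1))
      | none => Sum.inl x

/-- The whole program with `k` rounds. -/
noncomputable def rounds (ℓ : ℕ) (z : V → ℤ) :
    ℕ → (V → ℤ) → (V → ℤ) → Prog (V → ℤ) (WithBot Γ) (V → ℤ)
  | 0, l, _ => Prog.ret l
  | k + 1, l, u => (tighten ℓ l u).bind (fun u' => (nbrs (mid l u')).bind (fun g =>
      match dec z (mid l u') l u' g with
      | Sum.inl r => Prog.ret r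
      | Sum.inr s => rounds ℓ z k s.1 s.2))

theorem rounds_cost (o : (V → ℤ) → WithBot Γ) (ℓ : ℕ) (z : V → ℤ) (k : ℕ) (l u : V → ℤ) :
    (rounds (Γ := Γ) ℓ z k l u).cost o ≤
      k * (Fintype.card V * (ℓ + 1) + (Fintype.card V + 1) ^ 2) := by
  induction k generalizing l u with
  | zero => simp [rounds]
  | succ k ih =>
    simp only [rounds, Prog.cost_bind, tighten_cost, nbrs_cost]
    generalize dec (Γ := Γ) z (mid l _) l _ _ = d
    have h1 : Fintype.card V * ℓ ≤ Fintype.card V * (ℓ + 1) :=
      Nat.mul_le_mul_left _ (Nat.le_succ ℓ)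
    rw [add_mul, one_mul]
    rcases d with r | s
    · simp only [Prog.cost_ret]
      omega
    · have h2 := ih s.1 s.2
      simp only
      omega

/-- The potential. -/
def pot (l u : V → ℤ) : ℤ := ∏ i, (u i - l i + 1)

theorem pot_pos {l u : V → ℤ} (h : l ≤ u) : 1 ≤ pot l u := by
  have : 0 < pot l u := Finset.prod_pos (fun i _ => by have : l i ≤ u i := h i; omega)
  omega

theorem pot_mono {l u l' u' : V → ℤ} (h : l ≤ u) (hl : l' ≤ l) (hu : u ≤ u') :
    pot l u ≤ pot l' u' :=
  Finset.prod_le_prod (fun i _ => by have : l i ≤ u i := h i; omega)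
    (fun i _ => by have h1 : l' i ≤ l i := hl i; have h2 : u i ≤ u' i := hu i; omega)

theorem pot_step {l u l' u' : V → ℤ} (h : l ≤ u) (j : V) (hl : ∀ i, i ≠ j → l' i = l i)
    (hu : ∀ i, i ≠ j → u' i = u i)
    (hj : (u' j - l' j + 1) * (Fintype.card V + 1) ≤ (u j - l j + 1) * Fintype.card V) :
    pot l' u' * (Fintype.card V + 1) ≤ pot l u * Fintype.card V := by
  unfold pot
  rw [← Finset.mul_prod_erase Finset.univ _ (Finset.mem_univ j),
    ← Finset.mul_prod_erase Finset.univ (fun i => u i - l i + 1) (Finset.mem_univ j)]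
  have e : ∏ i ∈ Finset.univ.erase j, (u' i - l' i + 1) =
      ∏ i ∈ Finset.univ.erase j, (u i - l i + 1) := by
    refine Finset.prod_congr rfl (fun i hi => ?_)
    have hne := Finset.ne_of_mem_erase hi
    rw [hl i hne, hu i hne]
  rw [e]
  have hp : 0 ≤ ∏ i ∈ Finset.univ.erase j, (u i - l i + 1) :=
    Finset.prod_nonneg (fun i _ => by have : l i ≤ u i := h i; omega)
  nlinarith [mul_le_mul_of_nonneg_right hj hp]

/-- The invariant. -/
structure Inv (D : Set (V → ℤ)) (key : (V → ℤ) → Γ) (z l u : V → ℤ) : Prop where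
  nonneg : 0 ≤ l
  low : l ≤ Ch D key z
  up : Ch D key z ≤ u
  le : u ≤ z

theorem ev_none : (ev none : V → ℤ) = 0 := by
  funext w; simp [ev]

theorem dec_spec {D : Set (V → ℤ)} {key : (V → ℤ) → Γ} (h : Pref D key) {z l u : V → ℤ}
    (hz : 0 ≤ z) (hI : Inv D key z l u) (hm : ∀ i, l + Pi.single i (u i - l i) ∈ D) :
    dec z (mid l u) l u (fun p => orc D key (mid l u - ev p.1 + ev p.2)) =
      Sum.inl (Ch D key z) ∨
    ∃ s : (V → ℤ) × (V → ℤ),
      dec z (mid l u) l u (fun p => orc D key (mid l u - ev p.1 + ev p.2)) = Sum.inr s ∧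
      Inv D key z s.1 s.2 ∧ pot s.1 s.2 * (Fintype.card V + 1) ≤ pot l u * Fintype.card V := by
  have hCD : Ch D key z ∈ D := (ch_spec h hz).1
  have hlu : l ≤ u := hI.low.trans hI.up
  have hn : (0 : ℤ) < Fintype.card V + 1 := by positivity
  have hlD : l ∈ D := h.hered _ hCD l hI.nonneg hI.low
  have hxD : mid l u ∈ D := by
    refine center_mem h (c := fun i => u i - l i) hI.nonneg
      (fun i => sub_nonneg.2 (hlu i)) hm hlD
  have hxl : l ≤ mid l u := fun i => by
    have : 0 ≤ (u i - l i) / (Fintype.card V + 1) :=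
      Int.ediv_nonneg (sub_nonneg.2 (hlu i)) hn.le
    simp only [mid]; omega
  have hdiv : ∀ i, (u i - l i) / (Fintype.card V + 1) ≤ u i - l i := fun i =>
    Int.ediv_le_self _ (sub_nonneg.2 (hlu i))
  have hxu : mid l u ≤ u := fun i => by
    have := hdiv i
    simp only [mid]; omega
  have hxz : mid l u ≤ z := hxu.trans hI.le
  set x := mid l u with hx
  set g : Option V × Option V → WithBot Γ := fun p => orc D key (x - ev p.1 + ev p.2) with hg
  have hval : ∀ a b : Option V, x - ev a + ev b ∈ D → x - ev a + ev b ≤ z →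
      nval z x g (a, b) = (key (x - ev a + ev b) : WithBot Γ) := by
    intro a b h1 h2
    rw [nval, if_pos h2, hg]
    exact orc_of_mem h1
  have hval' : ∀ p : Option V × Option V, nval z x g p ≠ ⊥ →
      x - ev p.1 + ev p.2 ∈ D ∧ x - ev p.1 + ev p.2 ≤ z := by
    intro p hp
    rw [nval] at hp
    split_ifs at hp with h2
    · exact ⟨orc_ne_bot.1 hp, h2⟩
    · exact absurd rfl hp
  have hnn : nval z x g (none, none) = (key x : WithBot Γ) := by
    have e : x - ev none + ev none = x := by rw [ev_none]; simp
    rw [hval none none (by rw [e]; exact hxD) (by rw [e]; exact hxz), e]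
  unfold dec
  split_ifs with hbest
  · left
    congr 1
    refine local_opt h hz hxD hxz (fun a b h1 h2 => ?_)
    have h3 := (best_spec z x g (a, b)).trans hbest
    rw [hval a b h1 h2, hnn] at h3
    exact WithBot.coe_le_coe.1 h3
  · rw [not_le] at hbest
    have hb := best_spec z x g
    obtain ⟨hbD, hbz⟩ := hval' (best z x g) (ne_bot_of_gt hbest)
    have hbv := hval _ _ hbD hbz
    rw [Prod.mk.eta] at hbv
    rw [hnn, hbv] at hbest
    have hgt : key x < key (x - ev (best z x g).1 + ev (best z x g).2) :=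
      WithBot.coe_lt_coe.1 hbest
    have hbb : ∀ a' b' : Option V, x - ev a' + ev b' ∈ D → x - ev a' + ev b' ≤ z →
        key (x - ev a' + ev b') ≤ key (x - ev (best z x g).1 + ev (best z x g).2) := by
      intro a' b' h1 h2
      have h3 := hb (a', b')
      rw [hval a' b' h1 h2, hbv] at h3
      exact WithBot.coe_le_coe.1 h3
    generalize best z x g = q at *
    obtain ⟨a, b⟩ := q
    right
    cases b with
    | some j =>
      refine ⟨_, rfl, ?_, ?_⟩
      · have hc := cut_up h hz hxD hxz hbD hbz hgt hbb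
        refine ⟨fun i => ?_, fun i => ?_, hI.up, hI.le⟩
        · by_cases hij : i = j
          · subst hij
            have h1 : 0 ≤ l i := hI.nonneg i
            have h2 : l i ≤ x i := hxl i
            simp only [Pi.zero_apply, Function.update_self]
            omega
          · simp only [Function.update_of_ne hij]
            exact hI.nonneg i
        · by_cases hij : i = j
          · subst hij
            simpa only [Function.update_self] using hc
          · simp only [Function.update_of_ne hij]
            exact hI.low i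
      · refine pot_step hlu j (fun i hi => Function.update_of_ne hi _ _) (fun i _ => rfl) ?_
        simp only [Function.update_self]
        have e1 : x j = l j + (u j - l j) / (Fintype.card V + 1) := rfl
        have e2 := Int.lt_ediv_add_one_mul_self (u j - l j) hn
        rw [e1]
        generalize (u j - l j) / (Fintype.card V + 1 : ℤ) = t at *
        generalize (Fintype.card V : ℤ) = n at *
        nlinarith
    | none =>
      cases a with
      | some i =>
        refine ⟨_, rfl, ?_, ?_⟩
        · have hc := cut_down h hz hxD hxz hbD hbz hgt hbb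
          refine ⟨hI.nonneg, hI.low, fun k => ?_, fun k => ?_⟩
          · by_cases hik : k = i
            · subst hik
              simpa only [Function.update_self] using hc
            · simp only [Function.update_of_ne hik]
              exact hI.up k
          · by_cases hik : k = i
            · subst hik
              have h2 : x k ≤ z k := hxz k
              simp only [Function.update_self]
              omega
            · simp only [Function.update_of_ne hik]
              exact hI.le k
        · refine pot_step hlu i (fun k _ => rfl) (fun k hk => Function.update_of_ne hk _ _) ?_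
          simp only [Function.update_self]
          have e1 : x i = l i + (u i - l i) / (Fintype.card V + 1) := rfl
          have e2 := Int.ediv_mul_le (u i - l i) hn.ne'
          have e3 : (1 : ℤ) ≤ Fintype.card V := by
            have : 0 < Fintype.card V := Fintype.card_pos_iff.2 ⟨i⟩
            exact_mod_cast this
          have e4 : l i ≤ u i := hlu i
          rw [e1]
          generalize (u i - l i) / (Fintype.card V + 1 : ℤ) = t at *
          generalize (Fintype.card V : ℤ) = n at *
          nlinarith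
      | none =>
        exfalso
        have e : x - ev none + ev none = x := by rw [ev_none]; simp
        simp only at hgt
        rw [e] at hgt
        exact lt_irrefl _ hgt

theorem rounds_spec {D : Set (V → ℤ)} {key : (V → ℤ) → Γ} (h : Pref D key) {ℓ : ℕ}
    {z : V → ℤ} (hz : 0 ≤ z) (hzl : ∀ i, z i < 2 ^ ℓ) (k : ℕ) (l u : V → ℤ)
    (hI : Inv D key z l u)
    (hk : pot l u * (Fintype.card V : ℤ) ^ k < ((Fintype.card V : ℤ) + 1) ^ k) :
    (rounds (Γ := Γ) ℓ z k l u).eval (orc D key) = Ch D key z := by
  induction k generalizing l u with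
  | zero =>
    have := pot_pos (hI.low.trans hI.up)
    simp only [pow_zero, mul_one] at hk
    omega
  | succ k ih =>
    have hCD : Ch D key z ∈ D := (ch_spec h hz).1
    obtain ⟨h1, h2, h3⟩ := tighten_spec (ℓ := ℓ) h hI.nonneg hI.low hI.up hCD (fun i => by
      have a1 := hI.le i
      have a2 := hI.nonneg i
      have a3 := hzl i
      simp only [Pi.zero_apply] at a2
      linarith)
    simp only [rounds, Prog.eval_bind, nbrs_eval]
    generalize (tighten (Γ := Γ) ℓ l u).eval (orc D key) = u' at *
    have hI' : Inv D key z l u' := ⟨hI.nonneg, hI.low, h1, h2.trans hI.le⟩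
    rcases dec_spec h hz hI' h3 with e | ⟨s, e, hs, hp⟩
    · rw [e]
      rfl
    · rw [e]
      simp only
      refine ih s.1 s.2 hs ?_
      have hp2 := pot_mono (hI.low.trans h1) (le_refl l) h2
      have hc0 : (0 : ℤ) ≤ (Fintype.card V : ℤ) := by positivity
      have hn : (0 : ℤ) < Fintype.card V + 1 := by positivity
      have hc1 : (0 : ℤ) ≤ (Fintype.card V : ℤ) ^ k := by positivity
      have c1 : pot s.1 s.2 * (Fintype.card V + 1) * (Fintype.card V : ℤ) ^ k ≤
          pot l u * Fintype.card V * (Fintype.card V : ℤ) ^ k :=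
        mul_le_mul_of_nonneg_right (hp.trans (mul_le_mul_of_nonneg_right hp2 hc0)) hc1
      have c2 : (pot s.1 s.2 * (Fintype.card V : ℤ) ^ k) * (Fintype.card V + 1) <
          ((Fintype.card V : ℤ) + 1) ^ k * (Fintype.card V + 1) := by
        calc (pot s.1 s.2 * (Fintype.card V : ℤ) ^ k) * (Fintype.card V + 1)
            = pot s.1 s.2 * (Fintype.card V + 1) * (Fintype.card V : ℤ) ^ k := by ring
          _ ≤ pot l u * Fintype.card V * (Fintype.card V : ℤ) ^ k := c1
          _ = pot l u * (Fintype.card V : ℤ) ^ (k + 1) := by ring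
          _ < ((Fintype.card V : ℤ) + 1) ^ (k + 1) := hk
          _ = ((Fintype.card V : ℤ) + 1) ^ k * (Fintype.card V + 1) := by ring
      exact lt_of_mul_lt_mul_right c2 hn.le

theorem pow_bound (n ℓ : ℕ) :
    (2 : ℤ) ^ (ℓ * n) * (n : ℤ) ^ (2 * (n + 1) * (ℓ * n + 1)) <
      ((n : ℤ) + 1) ^ (2 * (n + 1) * (ℓ * n + 1)) := by
  rcases Nat.eq_zero_or_pos n with h0 | h0
  · subst h0
    simp
  · have hb : (2 : ℤ) * (n : ℤ) ^ (n + 1) ≤ ((n : ℤ) + 1) ^ (n + 1) := by
      have h1 := one_add_mul_le_pow (a := (1 : ℝ) / n) (by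
        have : (0 : ℝ) < n := by exact_mod_cast h0
        have := one_div_pos.2 this
        linarith) (n + 1)
      have hn : (0 : ℝ) < n := by exact_mod_cast h0
      have h2 : (2 : ℝ) ≤ (1 + 1 / n) ^ (n + 1) := by
        refine le_trans ?_ h1
        push_cast
        have : ((n : ℝ) + 1) * (1 / n) = 1 + 1 / n := by
          field_simp
        rw [this]
        have := one_div_pos.2 hn
        linarith
      have h3 : (2 : ℝ) * (n : ℝ) ^ (n + 1) ≤ ((n : ℝ) + 1) ^ (n + 1) := by
        have e : ((n : ℝ) + 1) = (1 + 1 / n) * n := by field_simp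
        rw [e, mul_pow]
        exact mul_le_mul_of_nonneg_right h2 (by positivity)
      exact_mod_cast h3
    have hnz : (0 : ℤ) < n := by exact_mod_cast h0
    have hp : ((2 : ℤ) * (n : ℤ) ^ (n + 1)) ^ (2 * (ℓ * n + 1)) ≤
        (((n : ℤ) + 1) ^ (n + 1)) ^ (2 * (ℓ * n + 1)) :=
      pow_le_pow_left₀ (by positivity) hb _
    have e1 : (n + 1) * (2 * (ℓ * n + 1)) = 2 * (n + 1) * (ℓ * n + 1) := by ring
    rw [mul_pow, ← pow_mul, ← pow_mul, e1] at hp
    refine lt_of_lt_of_le ?_ hp
    refine mul_lt_mul_of_pos_right ?_ (by positivity)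
    exact pow_lt_pow_right₀ (by norm_num) (by omega)

end Opt

/-- The choice function is computed with polynomially many value queries. -/
theorem opt_prog (V : Type) [Fintype V] [DecidableEq V] (Γ : Type) [AddCommGroup Γ]
    [LinearOrder Γ] [IsOrderedAddMonoid Γ] {B ℓ : ℕ} (hB : B < 2 ^ ℓ) (z : V → ℤ)
    (hz : z ∈ ibox V B) :
    ∃ p : Prog (V → ℤ) (WithBot Γ) (V → ℤ), ∀ (D : Set (V → ℤ)) (key : (V → ℤ) → Γ),
      Pref D key → p.eval (orc D key) = Ch D key z ∧
      p.cost (orc D key) ≤ 2 * (Fintype.card V + 1) * (ℓ * Fintype.card V + 1) *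
        (Fintype.card V * (ℓ + 1) + (Fintype.card V + 1) ^ 2) := by
  refine ⟨rounds ℓ z (2 * (Fintype.card V + 1) * (ℓ * Fintype.card V + 1)) 0 z,
    fun D key h => ⟨?_, rounds_cost _ _ _ _ _ _⟩⟩
  have hz0 : 0 ≤ z := fun i => (hz i).1
  have hB' : (B : ℤ) < 2 ^ ℓ := by exact_mod_cast hB
  have hzl : ∀ i, z i < 2 ^ ℓ := fun i => lt_of_le_of_lt (hz i).2 hB'
  have hC := ch_spec h hz0
  refine rounds_spec h hz0 hzl _ _ _ ⟨le_refl _, h.nonneg _ hC.1, hC.2.1, le_refl _⟩ ?_
  refine lt_of_le_of_lt ?_ (pow_bound (Fintype.card V) ℓ)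
  refine mul_le_mul_of_nonneg_right ?_ (by positivity)
  unfold pot
  calc ∏ i, (z i - (0 : V → ℤ) i + 1) ≤ ∏ _i : V, (2 : ℤ) ^ ℓ := by
        refine Finset.prod_le_prod (fun i _ => ?_) (fun i _ => ?_)
        · have := hz0 i
          simp only [Pi.zero_apply] at this ⊢
          omega
        · have := hzl i
          simp only [Pi.zero_apply]
          omega
    _ = 2 ^ (ℓ * Fintype.card V) := by
        rw [Finset.prod_const, Finset.card_univ, ← pow_mul]

end SAQ
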