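import Pool.Agent.SAQ.Stable
import Pool.Agent.SAQ.Opt
import Pool.Agent.SAQ.IntFix
import Pool.Agent.SAQ.Alg

/-!
# Stable allocations with polynomially many value queries

`agent_prog`: `opt_prog` with the lexicographic key; `hmap_prog`: the map `hmap`; `bounded`:
`intfix` and `stable_of_fix`; `result`: doubling of the bound, with `alg_of_family`.
-/

set_option linter.unusedSectionVars false

namespace SAQ

open Prog

/-- The number of questions of `opt_prog`. -/
def bnd (n ℓ : ℕ) : ℕ := 2 * (n + 1) * (ℓ * n + 1) * (n * (ℓ + 1) + (n + 1) ^ 2)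

theorem bnd_mono {n m ℓ : ℕ} (h : n ≤ m) : bnd n ℓ ≤ bnd m ℓ := by
  unfold bnd
  gcongr

theorem agent_prog {V Q : Type} [Fintype V] [DecidableEq V] (q : (V → ℤ) → Q) {B ℓ : ℕ}
    (hB : B < 2 ^ ℓ) (z : V → ℤ) (hz : z ∈ ibox V B) :
    ∃ p : Prog Q (WithBot ℝ) (V → ℤ), ∀ o : Q → WithBot ℝ,
      Pref (tdom B (fun y => o (q y))) (lkey B (fun y => o (q y))) →
      p.eval o = Ch (tdom B (fun y => o (q y))) (lkey B (fun y => o (q y))) z ∧
      p.cost o ≤ bnd (Fintype.card V) ℓ := by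
  classical
  obtain ⟨p, hp⟩ := opt_prog V (ℝ ×ₗ ℤ) hB z hz
  set s : (V → ℤ) → Prog Q (WithBot ℝ) (WithBot (ℝ ×ₗ ℤ)) := fun y =>
    if (∀ v, y v ≤ B) then one (q y) (fun a => a.map (fun r => toLex (r, tau B y))) else ret ⊥
    with hs
  refine ⟨p.sim s, fun o ho => ?_⟩
  have h1 : (fun y => (s y).eval o) = orc (tdom B (fun y => o (q y)))
      (lkey B (fun y => o (q y))) := by
    funext y
    simp only [hs]
    by_cases h : ∀ v, y v ≤ B
    · rw [if_pos h, eval_one, orc]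
      rcases eq_or_ne (o (q y)) ⊥ with h2 | h2
      · rw [if_neg (fun h3 => h3.1 h2), h2]; rfl
      · rw [if_pos (show y ∈ tdom B (fun y => o (q y)) from ⟨h2, h⟩), lkey]
        obtain ⟨a, ha⟩ := WithBot.ne_bot_iff_exists.1 h2
        rw [← ha]; rfl
    · rw [if_neg h, eval_ret, orc, if_neg (fun h3 => h h3.2)]
  have h2 : ∀ y, (s y).cost o ≤ 1 := fun y => by
    simp only [hs]
    split_ifs <;> simp
  obtain ⟨h3, h4⟩ := hp _ _ ho
  refine ⟨?_, ?_⟩
  · rw [eval_sim, h1, h3]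
  · have h5 := cost_sim_le o s h2 p
    rw [h1, one_mul] at h5
    exact h5.trans h4

section Market

variable {M W : Type} [Fintype M] [Fintype W] [DecidableEq M] [DecidableEq W]

/-- The hypotheses on a market. -/
structure Good (fM : M → (W → ℤ) → WithBot ℝ) (fW : W → (M → ℤ) → WithBot ℝ) : Prop where
  hA : ∀ i, CondA (fM i)
  hA' : ∀ j, CondA (fW j)
  hM : ∀ i, MNatConcave (fM i)
  hM' : ∀ j, MNatConcave (fW j)

theorem chM_prog {B ℓ : ℕ} (hB : B < 2 ^ ℓ) (X : M → W → ℤ)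
    (hX : ∀ i, X i ∈ ibox W B) :
    ∃ p : Prog (Query M W) (WithBot ℝ) (M → W → ℤ), ∀ (fM : M → (W → ℤ) → WithBot ℝ)
      (fW : W → (M → ℤ) → WithBot ℝ), Good fM fW →
      p.eval (val fM fW) = chM B fM X ∧
      p.cost (val fM fW) ≤ Fintype.card M * bnd (Fintype.card W) ℓ := by
  have h1 := fun i => agent_prog (Q := Query M W) (fun y => Sum.inl (i, y)) hB (X i) (hX i)
  choose p hp using h1
  refine ⟨collect p, fun fM fW hG => ?_⟩
  have h2 := fun i => hp i (val fM fW) (pref_of B (hG.hA i) (hG.hM i))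
  constructor
  · rw [eval_collect]
    funext i
    exact (h2 i).1
  · exact cost_collect_le _ _ (fun i => (h2 i).2)

theorem chW_prog {B ℓ : ℕ} (hB : B < 2 ^ ℓ) (X : M → W → ℤ)
    (hX : ∀ j, colW X j ∈ ibox M B) :
    ∃ p : Prog (Query M W) (WithBot ℝ) (M → W → ℤ), ∀ (fM : M → (W → ℤ) → WithBot ℝ)
      (fW : W → (M → ℤ) → WithBot ℝ), Good fM fW →
      p.eval (val fM fW) = chW B fW X ∧
      p.cost (val fM fW) ≤ Fintype.card W * bnd (Fintype.card M) ℓ := by
  have h1 := fun j => agent_prog (Q := Query M W) (fun y => Sum.inr (j, y)) hB (colW X j) (hX j)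
  choose p hp using h1
  refine ⟨(collect p).map (fun g i j => g j i), fun fM fW hG => ?_⟩
  have h2 := fun j => hp j (val fM fW) (pref_of B (hG.hA' j) (hG.hM' j))
  constructor
  · rw [eval_map, eval_collect]
    funext i j
    exact congrFun (h2 j).1 i
  · rw [cost_map]
    exact cost_collect_le _ _ (fun i => (h2 i).2)

theorem hmap_prog {B ℓ : ℕ} (hB : B < 2 ^ ℓ) (X : M × W → ℤ) :
    ∃ p : Prog (Query M W) (WithBot ℝ) (M × W → ℤ), ∀ (fM : M → (W → ℤ) → WithBot ℝ)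
      (fW : W → (M → ℤ) → WithBot ℝ), Good fM fW →
      (X ∈ ibox (M × W) B → p.eval (val fM fW) = hmap B fM fW X) ∧
      p.cost (val fM fW) ≤ Fintype.card M * bnd (Fintype.card W) ℓ +
        Fintype.card W * bnd (Fintype.card M) ℓ := by
  classical
  by_cases hX : X ∈ ibox (M × W) B
  · obtain ⟨p, hp⟩ := chM_prog hB (fun i j => X (i, j)) (fun i j => hX (i, j))
    -- the second phase
    have h2 : ∀ x : M → W → ℤ, ∃ p' : Prog (Query M W) (WithBot ℝ) (M × W → ℤ),
        ∀ (fM : M → (W → ℤ) → WithBot ℝ) (fW : W → (M → ℤ) → WithBot ℝ), Good fM fW →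
        ((∀ i j, 0 ≤ x i j ∧ x i j ≤ X (i, j)) → p'.eval (val fM fW) =
          fun e => B - (B - (X e - x e.1 e.2) - chW B fW
            (fun i j => B - (X (i, j) - x i j)) e.1 e.2)) ∧
        p'.cost (val fM fW) ≤ Fintype.card W * bnd (Fintype.card M) ℓ := by
      intro x
      by_cases hx : ∀ i j, 0 ≤ x i j ∧ x i j ≤ X (i, j)
      · obtain ⟨p', hp'⟩ := chW_prog hB (fun i j => B - (X (i, j) - x i j)) (fun j i => by
          have h3 := hx i j
          have h4 := hX (i, j)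
          simp only [colW]
          constructor <;> linarith)
        refine ⟨p'.map (fun c e => B - (B - (X e - x e.1 e.2) - c e.1 e.2)), fun fM fW hG => ?_⟩
        obtain ⟨h3, h4⟩ := hp' fM fW hG
        refine ⟨fun _ => ?_, ?_⟩
        · rw [eval_map, h3]
        · rw [cost_map]; exact h4
      · exact ⟨ret 0, fun fM fW hG => ⟨fun h => absurd h hx, by simp⟩⟩
    choose p' hp' using h2
    refine ⟨p.bind p', fun fM fW hG => ?_⟩
    obtain ⟨h3, h4⟩ := hp fM fW hG
    obtain ⟨h5, h6⟩ := hp' (chM B fM (fun i j => X (i, j))) fM fW hG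
    refine ⟨fun _ => ?_, ?_⟩
    · rw [eval_bind, h3, h5]
      · rfl
      · intro i j
        have h7 := ch_spec (pref_of B (hG.hA i) (hG.hM i)) (z := fun j => X (i, j))
          (fun j => (hX (i, j)).1)
        exact ⟨(hG.hA i).nonneg _ h7.1.1 j, h7.2.1 j⟩
    · rw [cost_bind, h3]
      exact Nat.add_le_add h4 h6
  · exact ⟨ret 0, fun fM fW hG => ⟨fun h => absurd h hX, by simp⟩⟩

theorem bounded_aux (M W : Type) [Fintype M] [Fintype W] [DecidableEq M] [DecidableEq W]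
    {B ℓ : ℕ} (hB1 : 1 ≤ B) (hB : B < 2 ^ ℓ) :
    ∃ p : Prog (Query M W) (WithBot ℝ) (M → W → ℤ),
    ∀ (fM : M → (W → ℤ) → WithBot ℝ) (fW : W → (M → ℤ) → WithBot ℝ), Good fM fW →
      (∀ i y, fM i y ≠ ⊥ → ∀ j, y j ≤ B) →
      Stable fM fW (p.eval (val fM fW)) ∧
      p.cost (val fM fW) ≤ (Fintype.card M * bnd (Fintype.card W) ℓ +
        Fintype.card W * bnd (Fintype.card M) ℓ) * ((Fintype.card (M × W) + 1) *
        ((Fintype.card (M × W) + 2) *
        (Fintype.card (M × W) * (4 * Fintype.card (M × W) + 7 + 2 * ℓ) + 1))) +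
        Fintype.card M * bnd (Fintype.card W) ℓ := by
  classical
  obtain ⟨p, hp⟩ := intfix (M × W) hB1 hB.le
  have h1 := fun X : M × W → ℤ => hmap_prog hB X
  choose s hs using h1
  -- the last phase
  have h2 : ∀ X : M × W → ℤ, ∃ p' : Prog (Query M W) (WithBot ℝ) (M → W → ℤ),
      ∀ (fM : M → (W → ℤ) → WithBot ℝ) (fW : W → (M → ℤ) → WithBot ℝ), Good fM fW →
      (X ∈ ibox (M × W) B → p'.eval (val fM fW) = chM B fM (fun i j => X (i, j))) ∧
      p'.cost (val fM fW) ≤ Fintype.card M * bnd (Fintype.card W) ℓ := by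
    intro X
    by_cases hX : X ∈ ibox (M × W) B
    · obtain ⟨p', hp'⟩ := chM_prog hB (fun i j => X (i, j)) (fun i j => hX (i, j))
      exact ⟨p', fun fM fW hG => ⟨fun _ => (hp' fM fW hG).1, (hp' fM fW hG).2⟩⟩
    · exact ⟨ret (fun _ _ => 0), fun fM fW hG => ⟨fun h => absurd h hX, by simp⟩⟩
  choose p' hp' using h2
  refine ⟨(p.sim s).bind p', fun fM fW hG hdom => ?_⟩
  set o := val fM fW with ho
  set H : (M × W → ℤ) → M × W → ℤ := fun X => (s X).eval o with hH
  have hHe : ∀ X ∈ ibox (M × W) B, H X = hmap B fM fW X := fun X hX => (hs X fM fW hG).1 hX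
  have hI := hmap_imap B hG.hA hG.hA' hG.hM hG.hM'
  have hHI : IMap B H := by
    refine ⟨fun x hx => ?_, fun x hx y hy hxy => ?_, fun x hx y hy hxy => ?_⟩
    · rw [hHe x hx]; exact hI.maps x hx
    · rw [hHe x hx, hHe y hy]; exact hI.mono x hx y hy hxy
    · rw [hHe x hx, hHe y hy]; exact hI.sum x hx y hy hxy
  obtain ⟨h3, h4, h5⟩ := hp H hHI
  obtain ⟨h6, h7⟩ := hp' (p.eval H) fM fW hG
  have h8 : (p.sim s).eval o = p.eval H := eval_sim _ _ _
  constructor
  · rw [eval_bind, h8, h6 h3]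
    refine stable_of_fix B hG.hA hG.hA' hG.hM hG.hM' hdom h3 ?_
    rw [← hHe _ h3, h4]
  · rw [cost_bind, h8]
    have h9 := cost_sim_le o s (fun X => (hs X fM fW hG).2) p
    exact Nat.add_le_add (h9.trans (Nat.mul_le_mul_left _ h5)) h7

theorem arith_aux {m w n ℓ N : ℕ} (hm : m ≤ n) (hw : w ≤ n) (hN : n + ℓ + 1 ≤ N)
    (hℓ : 1 ≤ ℓ) :
    (m * bnd w ℓ + w * bnd m ℓ) * ((n + 1) * ((n + 2) * (n * (4 * n + 7 + 2 * ℓ) + 1))) +
      m * bnd w ℓ ≤ 68 * N ^ 10 := by
  have hb : bnd n ℓ ≤ 4 * N ^ 5 := by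
    unfold bnd
    have a1 : n + 1 ≤ N := by omega
    have a2 : ℓ * n + 1 ≤ N * N := by nlinarith
    have a3 : n * (ℓ + 1) + (n + 1) ^ 2 ≤ 2 * (N * N) := by
      have b1 : n * (ℓ + 1) ≤ N * N := Nat.mul_le_mul (by omega) (by omega)
      have b2 : (n + 1) ^ 2 ≤ N * N := by rw [sq]; exact Nat.mul_le_mul a1 a1
      omega
    calc 2 * (n + 1) * (ℓ * n + 1) * (n * (ℓ + 1) + (n + 1) ^ 2)
        ≤ 2 * N * (N * N) * (2 * (N * N)) := by gcongr
      _ = 4 * N ^ 5 := by ring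
  have h1 : m * bnd w ℓ ≤ 4 * N ^ 6 := by
    calc m * bnd w ℓ ≤ N * (4 * N ^ 5) :=
          Nat.mul_le_mul (by omega) ((bnd_mono hw).trans hb)
      _ = 4 * N ^ 6 := by ring
  have h2 : w * bnd m ℓ ≤ 4 * N ^ 6 := by
    calc w * bnd m ℓ ≤ N * (4 * N ^ 5) :=
          Nat.mul_le_mul (by omega) ((bnd_mono hm).trans hb)
      _ = 4 * N ^ 6 := by ring
  have h3 : n * (4 * n + 7 + 2 * ℓ) + 1 ≤ 8 * (N * N) := by
    have b1 : 4 * n + 7 + 2 * ℓ ≤ 7 * N := by omega
    have b2 : n * (4 * n + 7 + 2 * ℓ) ≤ N * (7 * N) := Nat.mul_le_mul (by omega) b1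
    have b3 : 1 ≤ N * N := Nat.mul_pos (by omega) (by omega)
    nlinarith
  have hN1 : 1 ≤ N := by omega
  calc (m * bnd w ℓ + w * bnd m ℓ) * ((n + 1) * ((n + 2) * (n * (4 * n + 7 + 2 * ℓ) + 1))) +
      m * bnd w ℓ
      ≤ (4 * N ^ 6 + 4 * N ^ 6) * (N * (N * (8 * (N * N)))) + 4 * N ^ 6 := by
        gcongr <;> omega
    _ = 64 * N ^ 10 + 4 * N ^ 6 := by ring
    _ ≤ 64 * N ^ 10 + 4 * N ^ 10 := by
        have := Nat.pow_le_pow_right hN1 (show 6 ≤ 10 by norm_num)
        omega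
    _ = 68 * N ^ 10 := by ring

/-- The trivial market. -/
theorem stable_empty (h : IsEmpty (M × W)) {fM : M → (W → ℤ) → WithBot ℝ}
    {fW : W → (M → ℤ) → WithBot ℝ} (hG : Good fM fW) : Stable fM fW (fun _ _ => 0) := by
  have hW : ∀ _i : M, ∀ y y' : W → ℤ, y = y' := fun i y y' =>
    funext (fun j => (h.false (i, j)).elim)
  have hM : ∀ _j : W, ∀ y y' : M → ℤ, y = y' := fun j y y' =>
    funext (fun i => (h.false (i, j)).elim)
  refine ⟨⟨fun i => ?_, fun j => ?_⟩, ?_⟩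
  · rw [hW i (fun _ => 0) 0]; exact (hG.hA i).zero_mem
  · rw [hM j (colW (fun _ _ => 0) j) 0]; exact (hG.hA' j).zero_mem
  · rintro (⟨i, y, hy, hlt⟩ | ⟨j, y, hy, hlt⟩ | ⟨i, j, _⟩)
    · rw [hW i y (fun _ => 0)] at hlt; exact lt_irrefl _ hlt
    · rw [hM j y (colW (fun _ _ => 0) j)] at hlt; exact lt_irrefl _ hlt
    · exact h.false (i, j)

end Market

theorem card_le_prod {M W : Type} [Fintype M] [Fintype W] (h : Nonempty (M × W)) :
    Fintype.card M ≤ Fintype.card (M × W) ∧ Fintype.card W ≤ Fintype.card (M × W) := by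
  obtain ⟨⟨i, j⟩⟩ := h
  rw [Fintype.card_prod]
  constructor
  · exact Nat.le_mul_of_pos_right _ (Fintype.card_pos_iff.2 ⟨j⟩)
  · exact Nat.le_mul_of_pos_left _ (Fintype.card_pos_iff.2 ⟨i⟩)

theorem bounded (M W : Type) [Fintype M] [Fintype W] [DecidableEq M]
    [DecidableEq W] (B : ℕ) : ∃ p : Prog (Query M W) (WithBot ℝ) (M → W → ℤ),
    ∀ (fM : M → (W → ℤ) → WithBot ℝ) (fW : W → (M → ℤ) → WithBot ℝ), Good fM fW →
      (∀ i y, fM i y ≠ ⊥ → ∀ j, y j ≤ B) →
      Stable fM fW (p.eval (val fM fW)) ∧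
      p.cost (val fM fW) ≤ 68 * (Fintype.card (M × W) + Nat.log 2 B + 2) ^ 10 := by
  rcases isEmpty_or_nonempty (M × W) with h | h
  · exact ⟨ret (fun _ _ => 0), fun fM fW hG _ => ⟨stable_empty h hG, by simp⟩⟩
  have hB : max B 1 < 2 ^ (Nat.log 2 B + 1) := by
    rw [max_lt_iff]
    exact ⟨Nat.lt_pow_succ_log_self one_lt_two B, Nat.one_lt_two_pow (Nat.succ_ne_zero _)⟩
  obtain ⟨p, hp⟩ := bounded_aux M W (le_max_right B 1) hB
  refine ⟨p, fun fM fW hG hdom => ?_⟩
  obtain ⟨h1, h2⟩ := hp fM fW hG (fun i y hy j => (hdom i y hy j).trans (by simp))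
  refine ⟨h1, h2.trans ?_⟩
  obtain ⟨h3, h4⟩ := card_le_prod h
  exact arith_aux h3 h4 (by omega) (by omega)

/-- The program of `bounded` for the bound `2^t`. -/
noncomputable def bprog (M W : Type) [Fintype M] [Fintype W] [DecidableEq M] [DecidableEq W]
    (t : ℕ) : Prog (Query M W) (WithBot ℝ) (M → W → ℤ) := (bounded M W (2 ^ t)).choose

theorem bprog_spec (M W : Type) [Fintype M] [Fintype W] [DecidableEq M] [DecidableEq W] (t : ℕ)
    (fM : M → (W → ℤ) → WithBot ℝ) (fW : W → (M → ℤ) → WithBot ℝ) (hG : Good fM fW)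
    (hdom : ∀ i y, fM i y ≠ ⊥ → ∀ j, y j ≤ ((2 ^ t : ℕ) : ℤ)) :
    Stable fM fW ((bprog M W t).eval (val fM fW)) ∧
      (bprog M W t).cost (val fM fW) ≤ 68 * (Fintype.card (M × W) + t + 2) ^ 10 := by
  obtain ⟨h1, h2⟩ := (bounded M W (2 ^ t)).choose_spec fM fW hG hdom
  have h3 : Nat.log 2 (2 ^ t) = t := Nat.log_pow one_lt_two t
  refine ⟨h1, h2.trans (le_of_eq ?_)⟩
  exact congrArg (fun u => 68 * (Fintype.card (M × W) + u + 2) ^ 10) h3

theorem pow_aux {a N : ℕ} (h : a ≤ 2 * N) : a ^ 10 ≤ 1024 * N ^ 10 := by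
  have h1 := Nat.pow_le_pow_left h 10
  rw [mul_pow] at h1
  exact h1

theorem arith_main {n t l c : ℕ} (ht : t ≤ l + 1) (hc : c ≤ 68 * (n + t + 2) ^ 10) :
    t * n + (n + c) ≤ 69633 * (n + l + 2) ^ 10 := by
  have b1 : t * n + n ≤ (n + l + 2) ^ 2 := by nlinarith
  have b2 : (n + l + 2) ^ 2 ≤ (n + l + 2) ^ 10 := Nat.pow_le_pow_right (by omega) (by omega)
  have b3 := pow_aux (a := n + t + 2) (N := n + l + 2) (by omega)
  linarith

/-- One round of the doubling search. -/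
noncomputable def round (M W : Type) [Fintype M] [Fintype W] [DecidableEq M] [DecidableEq W]
    (t : ℕ) : Prog (Query M W) (WithBot ℝ) (Option (M → W → ℤ)) :=
  open Classical in
  (collect (fun e : M × W => one (Sum.inl (e.1, Pi.single e.2 ((2 : ℤ) ^ t))) id)).bind
    (fun g => if ∀ e, g e = ⊥ then (bprog M W t).map some else ret none)

theorem main (M W : Type) [Fintype M] [Fintype W] [DecidableEq M] [DecidableEq W] :
    ∃ s : Alg (Query M W) (WithBot ℝ) (M → W → ℤ),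
    ∀ (fM : M → (W → ℤ) → WithBot ℝ) (fW : W → (M → ℤ) → WithBot ℝ), Good fM fW →
      ∀ L : ℕ, (∀ i y, fM i y ≠ ⊥ → ∀ j, y j ≤ L) →
      ∃ x n, s.Returns (val fM fW) x n ∧ Stable fM fW x ∧
        n ≤ 69633 * (Fintype.card (M × W) + Nat.log 2 L + 2) ^ 10 := by
  classical
  rcases isEmpty_or_nonempty (M × W) with h | h
  · refine ⟨fun _ => Sum.inr (fun _ _ => 0), fun fM fW hG L _ => ⟨fun _ _ => 0, 0, ?_,
      stable_empty h hG, by simp⟩⟩
    exact ⟨fun m hm => absurd hm (Nat.not_lt_zero m), rfl⟩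
  have hcard : 1 ≤ Fintype.card (M × W) := Fintype.card_pos
  have hP : ∀ t o, 1 ≤ (round M W t).cost o := by
    intro t o
    rw [round, cost_bind, cost_collect]
    simp only [cost_one, Finset.sum_const, Finset.card_univ, smul_eq_mul, mul_one]
    omega
  obtain ⟨s, hs⟩ := alg_of_family (round M W) hP
  refine ⟨s, fun fM fW hG L hL => ?_⟩
  set o := val fM fW with ho
  -- the test of round `t`
  have htest : ∀ t, (collect (fun e : M × W => one (Q := Query M W)
      (Sum.inl (e.1, Pi.single e.2 ((2 : ℤ) ^ t))) id)).eval o =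
      fun e => fM e.1 (Pi.single e.2 ((2 : ℤ) ^ t)) := by
    intro t
    rw [eval_collect]
    rfl
  have hex : ∃ t, ∀ e : M × W, fM e.1 (Pi.single e.2 ((2 : ℤ) ^ t)) = ⊥ := by
    refine ⟨Nat.log 2 L + 1, fun e => ?_⟩
    by_contra hne
    have h1 := hL e.1 _ hne e.2
    rw [Pi.single_eq_same] at h1
    have h2 := Nat.lt_pow_succ_log_self one_lt_two L
    have h3 : ((2 : ℤ) ^ (Nat.log 2 L + 1)) = ((2 ^ (Nat.log 2 L + 1) : ℕ) : ℤ) := by push_cast; rfl
    rw [h3] at h1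
    omega
  set t := Nat.find hex with ht
  have ht1 := Nat.find_spec hex
  rw [← ht] at ht1
  have ht2 : t ≤ Nat.log 2 L + 1 := by
    refine Nat.find_min' hex (fun e => ?_)
    by_contra hne
    have h1 := hL e.1 _ hne e.2
    rw [Pi.single_eq_same] at h1
    have h2 := Nat.lt_pow_succ_log_self one_lt_two L
    have h3 : ((2 : ℤ) ^ (Nat.log 2 L + 1)) = ((2 ^ (Nat.log 2 L + 1) : ℕ) : ℤ) := by push_cast; rfl
    rw [h3] at h1
    omega
  have hlt : ∀ k < t, (round M W k).eval o = none ∧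
      (round M W k).cost o = Fintype.card (M × W) := by
    intro k hk
    have h1 := Nat.find_min hex hk
    constructor
    · rw [round, eval_bind, htest, if_neg h1, eval_ret]
    · rw [round, cost_bind, htest, if_neg h1, cost_ret, cost_collect]
      simp
  have hdom : ∀ i y, fM i y ≠ ⊥ → ∀ j, y j ≤ ((2 ^ t : ℕ) : ℤ) := by
    intro i y hy j
    by_contra hne
    rw [not_le] at hne
    refine (hG.hA i).hered y (Pi.single j ((2 : ℤ) ^ t)) hy ?_ ?_ (ht1 (i, j))
    · exact Pi.single_nonneg.2 (by positivity)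
    · intro j'
      by_cases h : j' = j
      · subst h
        rw [Pi.single_eq_same]
        push_cast at hne
        exact hne.le
      · rw [Pi.single_eq_of_ne h]
        exact (hG.hA i).nonneg y hy j'
  obtain ⟨h1, h2⟩ := bprog_spec M W t fM fW hG hdom
  have hev : (round M W t).eval o = some ((bprog M W t).eval o) := by
    rw [round, eval_bind, htest, if_pos ht1, eval_map]
  have hco : (round M W t).cost o = Fintype.card (M × W) + (bprog M W t).cost o := by
    rw [round, cost_bind, htest, if_pos ht1, cost_map, cost_collect]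
    simp
  refine ⟨(bprog M W t).eval o, _, hs o t _ (fun k hk => (hlt k hk).1) hev, h1, ?_⟩
  rw [Finset.sum_range_succ, hco,
    Finset.sum_congr rfl (fun k hk => (hlt k (Finset.mem_range.1 hk)).2)]
  simp only [Finset.sum_const, Finset.card_range, smul_eq_mul]
  exact arith_main ht2 h2

end SAQ
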