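import Pool.Agent.SAQ.Pref

/-!
# Augmentation, local optimality and cuts for M♮-concave keys

BLUEPRINT.
`aug`: among `y' ∈ D` with `y' ≤ x ⊔ y`, `∑ x < ∑ y'`, take one with `∑ (x - y')⁺` least.
`center_mem`: see its docstring; one step adds `t_k = ⌊c_k/(n+1)⌋` to the coordinate `k` of
`p = l + ∑_{i ∈ s} t_i e_i` one by one using `aug` against `l + c_k e_k`, which is possible as long
as the total number of added units is `< c_k`, and `∑_{i ∈ s} t_i + t_k ≤ (|s|+1) c_k/(n+1) ≤ c_k`.
`local_opt`: let `x* = Ch z ≠ x`.  If `x w < x* w` for some `w`: `exch (x*, x, w)` gives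
`x* - e_w + e_v ≤ z` with key `≤ key x*`, in fact `<` by injectivity, and the neighbour
`x + e_w - e_v ≤ z` with key `≤ key x`, a contradiction.  If `x* w < x w` use `exch (x, x*, w)`.
`cut_up`: let `x' = x - e_a + e_b`; suppose `x* b ≤ x b < x' b`.  `exch (x', x*, b)`:
`x' - e_b + e_v = x - e_a + e_v` is a neighbour `≤ z` of `x`, `v ≠ b`, so its key is `< key x'`
(injectivity), and `x* + e_b - e_v ≤ z` has key `≤ key x*`, a contradiction.
`cut_down`: suppose `x* a ≥ x a > x' a`.  `exch (x*, x', a)`: `x* - e_a + e_v ≤ z`,
`x' + e_a - e_v = x + e_b - e_v` is a neighbour `≤ z` of `x`.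
-/

set_option linter.all false

namespace SAQ

variable {V : Type} [Fintype V] [DecidableEq V]
variable {Γ : Type} [AddCommGroup Γ] [LinearOrder Γ] [IsOrderedAddMonoid Γ]
variable {D : Set (V → ℤ)} {key : (V → ℤ) → Γ}

theorem evA_cases (a : Option V) (w : V) : (a = some w ∧ ev a w = 1) ∨ (a ≠ some w ∧ ev a w = 0) := by
  unfold ev
  by_cases h : a = some w
  · left; simp [h]
  · right; simp [h]

theorem evA_nonneg (a : Option V) (w : V) : 0 ≤ ev a w := by
  rcases evA_cases a w with ⟨-, h⟩ | ⟨-, h⟩ <;> omega

theorem evA_self (w : V) : ev (some w) w = 1 := by simp [ev]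

theorem evA_some_ne {u w : V} (h : u ≠ w) : ev (some u) w = 0 := by simp [ev, h]

theorem evA_none (w : V) : ev none w = 0 := by simp [ev]

theorem sum_evA_some (u : V) : ∑ i, ev (some u) i = 1 := by
  have : ∀ i, ev (some u) i = if i = u then 1 else 0 := by
    intro i
    unfold ev
    by_cases h : u = i
    · simp [h]
    · have h' : ¬ i = u := fun e => h e.symm
      simp [h, h']
  simp [this]

theorem sum_evA_none : ∑ i : V, ev none i = 0 := by simp [ev]

theorem sum_evA_le (a : Option V) : ∑ i, ev a i ≤ 1 := by
  cases a with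
  | none => rw [sum_evA_none]; norm_num
  | some u => rw [sum_evA_some]

/-- Augmentation: if `x, y ∈ D` and `∑ x < ∑ y` then `x + e_u ∈ D` for some `u` with `x u < y u`.
Proof: among `y' ∈ D` with `y' ≤ x ⊔ y`, `∑ x < ∑ y'`, take one with `∑ (x - y')⁺` least; if that
is `0` then `x ≤ y'` and any `u` with `x u < y' u` works (hereditary); otherwise `y' w < x w` for
some `w` and `exch` for `(x, y', w)` gives the better `y' + e_w - e_v`. -/
theorem aug (h : Pref D key) {x y : V → ℤ} (hx : x ∈ D) (hy : y ∈ D)
    (hs : ∑ i, x i < ∑ i, y i) : ∃ u, x u < y u ∧ x + ev (some u) ∈ D := by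
  suffices H : ∀ n : ℕ, ∀ y' ∈ D, (∀ w, y' w ≤ max (x w) (y w)) → ∑ i, x i < ∑ i, y' i →
      ∑ i, (x i - y' i).toNat = n → ∃ u, x u < y u ∧ x + ev (some u) ∈ D from
    H _ y hy (fun w => le_max_right _ _) hs rfl
  intro n
  induction n using Nat.strong_induction_on with
  | _ n ih =>
    intro y' hy' hmax hs' hn
    by_cases hle : ∀ w, x w ≤ y' w
    · obtain ⟨u, -, hu⟩ := Finset.exists_lt_of_sum_lt hs'
      refine ⟨u, ?_, ?_⟩
      · have := hmax u
        rcases le_max_iff.1 this with h1 | h1 <;> omega
      · refine h.hered y' hy' _ ?_ ?_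
        · intro w
          have h1 : 0 ≤ x w := h.nonneg x hx w
          have h2 := evA_nonneg (some u) w
          simp only [Pi.zero_apply, Pi.add_apply]
          omega
        · intro w
          have h1 := hle w
          simp only [Pi.add_apply]
          rcases evA_cases (some u) w with ⟨e, h2⟩ | ⟨-, h2⟩
          · cases e
            omega
          · omega
    · push Not at hle
      obtain ⟨w, hw⟩ := hle
      obtain ⟨v, hv, -, hD, -⟩ := h.exch x hx y' hy' w hw
      refine ih (∑ i, (x i - (y' + ev (some w) - ev v) i).toNat) ?_ _ hD ?_ ?_ rfl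
      · rw [← hn]
        refine Finset.sum_lt_sum ?_ ⟨w, Finset.mem_univ _, ?_⟩
        · intro i _
          simp only [Pi.add_apply, Pi.sub_apply]
          have h2 := evA_nonneg (some w) i
          rcases evA_cases v i with ⟨e, h3⟩ | ⟨-, h3⟩
          · have := hv i e
            omega
          · omega
        · simp only [Pi.add_apply, Pi.sub_apply, evA_self]
          rcases evA_cases v w with ⟨e, h3⟩ | ⟨-, h3⟩
          · have := hv w e
            omega
          · omega
      · intro i
        simp only [Pi.add_apply, Pi.sub_apply]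
        have h0 := hmax i
        have h4 := evA_nonneg v i
        rcases evA_cases (some w) i with ⟨e, h3⟩ | ⟨-, h3⟩
        · cases e
          rw [le_max_iff]
          left
          omega
        · rw [le_max_iff] at h0 ⊢
          omega
      · simp only [Pi.add_apply, Pi.sub_apply, Finset.sum_sub_distrib, Finset.sum_add_distrib,
          sum_evA_some]
        have := sum_evA_le v
        omega

/-- If `l + c_i e_i ∈ D` for all `i` then `l + ∑ ⌊c_i/(n+1)⌋ e_i ∈ D` (add the coordinates in the
order of increasing `c_i`, `Finset.induction_on_max_value`, using `aug`). -/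
theorem center_mem (h : Pref D key) {l c : V → ℤ} (hl : 0 ≤ l) (hc : 0 ≤ c)
    (hm : ∀ i, l + Pi.single i (c i) ∈ D) (hlD : l ∈ D) :
    (fun i => l i + c i / (Fintype.card V + 1)) ∈ D := by
  have hn1 : (0 : ℤ) < (Fintype.card V : ℤ) + 1 := by positivity
  have ht0 : ∀ i, 0 ≤ c i / ((Fintype.card V : ℤ) + 1) := fun i => Int.ediv_nonneg (hc i) hn1.le
  have key1 : ∀ s : Finset V, (fun i => l i + if i ∈ s then c i / ((Fintype.card V : ℤ) + 1) else 0) ∈ D := by
    intro s
    induction s using Finset.induction_on_max_value (f := c) with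
    | empty => simpa using hlD
    | insert a s ha hmax ih =>
      set t : V → ℤ := fun i => c i / ((Fintype.card V : ℤ) + 1) with ht
      have step : ∀ j : ℕ, (j : ℤ) ≤ t a →
          (fun i => (l i + if i ∈ s then t i else 0) + if i = a then (j : ℤ) else 0) ∈ D := by
        intro j
        induction j with
        | zero => intro _; simpa using ih
        | succ j ihj =>
          intro hj
          have hj' : (j : ℤ) < t a := by push_cast at hj; omega
          have h1 := ihj hj'.le
          obtain ⟨u, hu, huD⟩ := aug h h1 (hm a) (by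
            have e1 : ∑ i, ((l i + if i ∈ s then t i else 0) + if i = a then (j : ℤ) else 0) =
                ∑ i, l i + ∑ i ∈ s, t i + j := by
              rw [Finset.sum_add_distrib, Finset.sum_add_distrib]
              simp
            have e2 : ∑ i, (l + Pi.single a (c a) : V → ℤ) i = ∑ i, l i + c a := by
              simp [Finset.sum_add_distrib]
            rw [e1, e2]
            have e3 : ∑ i ∈ s, t i ≤ s.card * t a := by
              have : ∑ i ∈ s, t i ≤ ∑ i ∈ s, t a := Finset.sum_le_sum (fun i hi =>
                Int.ediv_le_ediv hn1 (hmax i hi))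
              simpa using this
            have e4 : (s.card : ℤ) + 1 ≤ Fintype.card V := by
              have := Finset.card_le_univ (insert a s)
              rw [Finset.card_insert_of_notMem ha] at this
              exact_mod_cast this
            have e5 : ((Fintype.card V : ℤ) + 1) * t a ≤ c a := Int.mul_ediv_self_le hn1.ne'
            have e6 : 0 ≤ t a := ht0 a
            nlinarith [mul_le_mul_of_nonneg_right e4 e6])
          have hua : u = a := by
            by_contra hne
            have h3 : (l + Pi.single a (c a) : V → ℤ) u = l u := by simp [hne]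
            rw [h3] at hu
            simp only [hne, if_false, add_zero] at hu
            have : 0 ≤ t u := ht0 u
            split_ifs at hu <;> omega
          subst hua
          convert huD using 1
          funext i
          simp only [Pi.add_apply]
          rcases evA_cases (some u) i with ⟨e, h3⟩ | ⟨e, h3⟩
          · cases e
            rw [h3]
            simp only [if_true]
            push_cast
            ring
          · have hne : i ≠ u := fun e' => e (by rw [e'])
            rw [h3]
            simp [hne]
      have h2 := step (t a).toNat (by rw [Int.toNat_of_nonneg (ht0 a)])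
      convert h2 using 1
      funext i
      by_cases hia : i = a
      · subst hia
        simp only [Finset.mem_insert, true_or, if_true, ha, if_false]
        rw [Int.toNat_of_nonneg (ht0 i)]
        ring
      · simp [hia, ht]
  simpa using key1 Finset.univ

/-- equality case of the exchange inequality -/
theorem exchA_eq (h : Pref D key) {x x' y y' : V → ℤ} (hx : x ∈ D) (hx' : x' ∈ D) (h1 : key x' ≤ key x)
    (h2 : key y' ≤ key y) (hs : key x + key y ≤ key x' + key y') : x' = x := by
  apply h.inj _ hx' _ hx
  refine le_antisymm h1 ?_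
  by_contra hcon
  push Not at hcon
  exact absurd hs (not_le.2 (add_lt_add_of_lt_of_le hcon h2))

/-- Local optimality implies optimality. -/
theorem local_opt (h : Pref D key) {z x : V → ℤ} (hz : 0 ≤ z) (hx : x ∈ D) (hxz : x ≤ z)
    (hloc : ∀ a b : Option V, x - ev a + ev b ∈ D → x - ev a + ev b ≤ z →
      key (x - ev a + ev b) ≤ key x) : x = Ch D key z := by
  obtain ⟨sD, sz, sbest⟩ := ch_spec h hz
  set s := Ch D key z with hs
  by_contra hne
  have : ∃ w, x w ≠ s w := by
    by_contra hcon
    push Not at hcon
    exact hne (funext hcon)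
  obtain ⟨w, hw⟩ := this
  rcases lt_or_gt_of_ne hw with hw | hw
  · obtain ⟨v, hv, hD1, hD2, hk⟩ := h.exch s sD x hx w hw
    have hrw : x + ev (some w) - ev v = x - ev v + ev (some w) := by abel
    rw [hrw] at hD2 hk
    have hle1 : s - ev (some w) + ev v ≤ z := by
      intro i
      have h1 : s i ≤ z i := sz i
      have h2 : x i ≤ z i := hxz i
      simp only [Pi.add_apply, Pi.sub_apply]
      have h3 := evA_nonneg (some w) i
      rcases evA_cases v i with ⟨e, h4⟩ | ⟨-, h4⟩
      · have := hv i e
        omega
      · omega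
    have hle2 : x - ev v + ev (some w) ≤ z := by
      intro i
      have h1 : s i ≤ z i := sz i
      have h2 : x i ≤ z i := hxz i
      simp only [Pi.add_apply, Pi.sub_apply]
      have h3 := evA_nonneg v i
      rcases evA_cases (some w) i with ⟨e, h4⟩ | ⟨-, h4⟩
      · cases e
        omega
      · omega
    have e := exchA_eq h sD hD1 (sbest _ hD1 hle1) (hloc v (some w) hD2 hle2) hk
    have e' := congrFun e w
    simp only [Pi.add_apply, Pi.sub_apply, evA_self] at e'
    rcases evA_cases v w with ⟨e2, h4⟩ | ⟨-, h4⟩
    · have := hv w e2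
      omega
    · omega
  · obtain ⟨v, hv, hD1, hD2, hk⟩ := h.exch x hx s sD w hw
    have hle1 : s + ev (some w) - ev v ≤ z := by
      intro i
      have h1 : s i ≤ z i := sz i
      have h2 : x i ≤ z i := hxz i
      simp only [Pi.add_apply, Pi.sub_apply]
      have h3 := evA_nonneg v i
      rcases evA_cases (some w) i with ⟨e, h4⟩ | ⟨-, h4⟩
      · cases e
        omega
      · omega
    have hle2 : x - ev (some w) + ev v ≤ z := by
      intro i
      have h1 : s i ≤ z i := sz i
      have h2 : x i ≤ z i := hxz i
      simp only [Pi.add_apply, Pi.sub_apply]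
      have h3 := evA_nonneg (some w) i
      rcases evA_cases v i with ⟨e, h4⟩ | ⟨-, h4⟩
      · have := hv i e
        omega
      · omega
    have e := exchA_eq h sD hD2 (sbest _ hD2 hle1) (hloc (some w) v hD1 hle2)
      (by rw [add_comm, add_comm (key (s + ev (some w) - ev v))]; exact hk)
    have e' := congrFun e w
    simp only [Pi.add_apply, Pi.sub_apply, evA_self] at e'
    rcases evA_cases v w with ⟨e2, h4⟩ | ⟨-, h4⟩
    · have := hv w e2
      omega
    · omega

/-- The best neighbour gives a lower cut. -/
theorem cut_up (h : Pref D key) {z x : V → ℤ} (hz : 0 ≤ z) (hx : x ∈ D) (hxz : x ≤ z)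
    {a : Option V} {b : V} (hD : x - ev a + ev (some b) ∈ D) (hle : x - ev a + ev (some b) ≤ z)
    (hgt : key x < key (x - ev a + ev (some b)))
    (hbest : ∀ a' b' : Option V, x - ev a' + ev b' ∈ D → x - ev a' + ev b' ≤ z →
      key (x - ev a' + ev b') ≤ key (x - ev a + ev (some b))) : x b + 1 ≤ Ch D key z b := by
  obtain ⟨sD, sz, sbest⟩ := ch_spec h hz
  set s := Ch D key z with hs
  by_contra hcon
  push Not at hcon
  set x' := x - ev a + ev (some b) with hx'
  have hab : a ≠ some b := by
    rintro rfl
    apply hgt.ne
    rw [hx']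
    congr 1
    abel
  have hab0 : ev a b = 0 := by
    rcases evA_cases a b with ⟨e, -⟩ | ⟨-, e⟩
    · exact absurd e hab
    · exact e
  have hx'b : x' b = x b + 1 := by
    simp [hx', hab0, evA_self]
  obtain ⟨v, hv, hD1, hD2, hk⟩ := h.exch x' hD s sD b (by omega)
  have hrw : x' - ev (some b) + ev v = x - ev a + ev v := by rw [hx']; abel
  rw [hrw] at hD1 hk
  have hvb : ev v b = 0 := by
    rcases evA_cases v b with ⟨e, -⟩ | ⟨-, e⟩
    · have := hv b e
      omega
    · exact e
  have hle1 : x - ev a + ev v ≤ z := by
    intro i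
    have h1 : s i ≤ z i := sz i
    have h2 : x i ≤ z i := hxz i
    simp only [Pi.add_apply, Pi.sub_apply]
    have h3 := evA_nonneg a i
    rcases evA_cases v i with ⟨e, h4⟩ | ⟨-, h4⟩
    · have h5 := hv i e
      have hib : b ≠ i := by
        rintro rfl
        omega
      have h6 : x' i = x i - ev a i := by
        simp [hx', evA_some_ne hib]
      omega
    · omega
  have hle2 : s + ev (some b) - ev v ≤ z := by
    intro i
    have h1 : s i ≤ z i := sz i
    have h2 : x' i ≤ z i := hle i
    simp only [Pi.add_apply, Pi.sub_apply]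
    have h3 := evA_nonneg v i
    rcases evA_cases (some b) i with ⟨e, h4⟩ | ⟨-, h4⟩
    · cases e
      omega
    · omega
  have e := exchA_eq h hD hD1 (hbest a v hD1 hle1) (sbest _ hD2 hle2) hk
  have e' := congrFun e b
  simp only [Pi.add_apply, Pi.sub_apply] at e'
  omega

/-- The best neighbour gives an upper cut. -/
theorem cut_down (h : Pref D key) {z x : V → ℤ} (hz : 0 ≤ z) (hx : x ∈ D) (hxz : x ≤ z)
    {a : V} {b : Option V} (hD : x - ev (some a) + ev b ∈ D) (hle : x - ev (some a) + ev b ≤ z)
    (hgt : key x < key (x - ev (some a) + ev b))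
    (hbest : ∀ a' b' : Option V, x - ev a' + ev b' ∈ D → x - ev a' + ev b' ≤ z →
      key (x - ev a' + ev b') ≤ key (x - ev (some a) + ev b)) : Ch D key z a ≤ x a - 1 := by
  obtain ⟨sD, sz, sbest⟩ := ch_spec h hz
  set s := Ch D key z with hs
  by_contra hcon
  push Not at hcon
  set x' := x - ev (some a) + ev b with hx'
  have hab : b ≠ some a := by
    rintro rfl
    apply hgt.ne
    rw [hx']
    congr 1
    abel
  have hab0 : ev b a = 0 := by
    rcases evA_cases b a with ⟨e, -⟩ | ⟨-, e⟩
    · exact absurd e hab
    · exact e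
  have hx'a : x' a = x a - 1 := by
    simp [hx', hab0, evA_self]
  obtain ⟨v, hv, hD1, hD2, hk⟩ := h.exch s sD x' hD a (by omega)
  have hrw : x' + ev (some a) - ev v = x - ev v + ev b := by rw [hx']; abel
  rw [hrw] at hD2 hk
  have hva : ev v a = 0 := by
    rcases evA_cases v a with ⟨e, -⟩ | ⟨-, e⟩
    · have := hv a e
      omega
    · exact e
  have hle1 : s - ev (some a) + ev v ≤ z := by
    intro i
    have h1 : s i ≤ z i := sz i
    have h2 : x' i ≤ z i := hle i
    simp only [Pi.add_apply, Pi.sub_apply]
    have h3 := evA_nonneg (some a) i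
    rcases evA_cases v i with ⟨e, h4⟩ | ⟨-, h4⟩
    · have h5 := hv i e
      omega
    · omega
  have hle2 : x - ev v + ev b ≤ z := by
    intro i
    have h1 : x' i ≤ z i := hle i
    have h2 : x i ≤ z i := hxz i
    simp only [Pi.add_apply, Pi.sub_apply]
    have h3 := evA_nonneg v i
    rcases evA_cases b i with ⟨e, h4⟩ | ⟨-, h4⟩
    · have hia : a ≠ i := by
        rintro rfl
        exact hab e
      have h6 : x' i = x i + ev b i := by
        simp [hx', evA_some_ne hia]
      omega
    · omega
  have e := exchA_eq h sD hD1 (sbest _ hD1 hle1) (hbest v b hD2 hle2) hk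
  have e' := congrFun e a
  simp only [Pi.add_apply, Pi.sub_apply, evA_self] at e'
  omega

end SAQ
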