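import Pool.Agent.SAQ.Defs

/-!
# The choice function of an injective M♮-concave key

`ch_spec`: `D` is finite and contains `0 ≤ z`.  `ch_unique` by injectivity.
`ch_step`: let `x = Ch z`, `y = Ch (z + e_a)`, `y ≠ x`.  Then `y a = z a + 1` (otherwise `y ≤ z`,
so `key y ≤ key x ≤ key y`), so `x a < y a`; exchange `(y, x, a)`: `y' = y - e_a + e_v ≤ z` and
`x' = x + e_a - e_v ≤ z + e_a` (`v` has `y v < x v`, or `v = none`), so `key y' ≤ key x`,
`key x' ≤ key y`, and `key y + key x ≤ key y' + key x'` forces `key x' = key y`, so `y = x'`.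
`rej_mono`, `rej_sum`: by `ch_step` the rejection `z ↦ z - Ch z` changes by a unit vector or `0`
when `z` increases by a unit vector (`z + e_a - (x + e_a - e_v) = (z - x) + e_v`); induct on
`∑ (z' - z)`.
`no_gain`: if `x = Ch X` and `x e < X e` then `Ch (X + k e_e) = x` for all `k : ℕ` (by `ch_step`,
if `Ch (z + e_e) ≠ Ch z` then `Ch z e = z e`), and `y ≤ X + k e_e` for large `k`.
-/

namespace SAQ

variable {V : Type} [Fintype V] [DecidableEq V]
variable {Γ : Type} [AddCommGroup Γ] [LinearOrder Γ] [IsOrderedAddMonoid Γ]
variable {D : Set (V → ℤ)} {key : (V → ℤ) → Γ}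

omit [Fintype V] in
theorem ev_some_self (a : V) : (ev (some a) : V → ℤ) a = 1 := by simp [ev]

omit [Fintype V] in
theorem ev_some_ne {a w : V} (h : w ≠ a) : (ev (some a) : V → ℤ) w = 0 := by
  simp only [ev, Option.some.injEq, ite_eq_right_iff]
  intro h'
  exact absurd h'.symm h

omit [Fintype V] in
theorem ev_nonneg (u : Option V) (w : V) : 0 ≤ (ev u : V → ℤ) w := by
  unfold ev
  split_ifs <;> norm_num

omit [Fintype V] in
theorem ev_none_apply (w : V) : (ev (none : Option V) : V → ℤ) w = 0 := by simp [ev]

theorem sum_ev_le (u : Option V) : ∑ w, (ev u : V → ℤ) w ≤ 1 := by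
  cases u with
  | none => simp [ev]
  | some a => simp [ev]

theorem sum_ev_some (a : V) : ∑ w, (ev (some a) : V → ℤ) w = 1 := by simp [ev]

omit [Fintype V] in
theorem ch_exists (h : Pref D key) {z : V → ℤ} (hz : 0 ≤ z) : ∃ x, IsC D key z x := by
  have hfin : (D ∩ {y | y ≤ z}).Finite := h.fin.subset Set.inter_subset_left
  have hne : (D ∩ {y | y ≤ z}).Nonempty := ⟨0, h.zero, hz⟩
  obtain ⟨x, hx, hmax⟩ := Set.exists_max_image _ key hfin hne
  exact ⟨x, hx.1, hx.2, fun y hy hyz => hmax y ⟨hy, hyz⟩⟩

omit [Fintype V] in
theorem ch_unique' (h : Pref D key) {z x y : V → ℤ} (hx : IsC D key z x) (hy : IsC D key z y) :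
    x = y :=
  h.inj x hx.1 y hy.1 (le_antisymm (hy.2.2 x hx.1 hx.2.1) (hx.2.2 y hy.1 hy.2.1))

theorem ch_spec (h : Pref D key) {z : V → ℤ} (hz : 0 ≤ z) : IsC D key z (Ch D key z) := by
  have hex := ch_exists h hz
  unfold Ch
  rw [dif_pos hex]
  exact hex.choose_spec

theorem ch_unique (h : Pref D key) {z x : V → ℤ} (hx : IsC D key z x) : Ch D key z = x := by
  have hex : ∃ x, IsC D key z x := ⟨x, hx⟩
  unfold Ch
  rw [dif_pos hex]
  exact ch_unique' h hex.choose_spec hx

theorem ch_step (h : Pref D key) {z : V → ℤ} (hz : 0 ≤ z) (a : V) :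
    Ch D key (z + ev (some a)) = Ch D key z ∨
    ∃ v : Option V, v ≠ some a ∧ Ch D key z a = z a ∧
      Ch D key (z + ev (some a)) = Ch D key z + ev (some a) - ev v := by
  have hz' : 0 ≤ z + ev (some a) := fun w => add_nonneg (hz w) (ev_nonneg _ w)
  obtain ⟨hxD, hxz, hxm⟩ := ch_spec h hz
  obtain ⟨hyD, hyz, hym⟩ := ch_spec h hz'
  set x := Ch D key z with hx
  set y := Ch D key (z + ev (some a)) with hy
  by_cases hyx : y = x
  · exact Or.inl hyx
  · right
    have hxz' : x ≤ z + ev (some a) := fun w => by
      have := hxz w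
      have := ev_nonneg (some a) w
      simp only [Pi.add_apply]
      linarith
    have hya : y a = z a + 1 := by
      by_contra hne
      apply hyx
      have hyz1 : y ≤ z := by
        intro w
        have h1 := hyz w
        rw [Pi.add_apply] at h1
        by_cases hw : w = a
        · subst hw
          rw [ev_some_self] at h1
          show (y w : ℤ) ≤ z w
          have h1' : (y w : ℤ) ≤ z w + 1 := h1
          omega
        · rw [ev_some_ne hw] at h1
          linarith
      exact h.inj y hyD x hxD (le_antisymm (hxm y hyD hyz1) (hym x hxD hxz'))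
    have hxa : x a ≤ z a := hxz a
    obtain ⟨v, hv, hD1, hD2, hkey⟩ := h.exch y hyD x hxD a (by omega)
    have hva : v ≠ some a := by
      intro hva
      have := hv a hva
      omega
    have hy'z : y - ev (some a) + ev v ≤ z := by
      intro w
      simp only [Pi.add_apply, Pi.sub_apply]
      by_cases hw : w = a
      · subst hw
        rw [ev_some_self]
        have : (ev v : V → ℤ) w = 0 := by
          cases v with
          | none => exact ev_none_apply w
          | some b =>
            apply ev_some_ne
            intro hb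
            exact hva (by rw [hb])
        rw [this]
        omega
      · rw [ev_some_ne hw]
        have h1 := hyz w
        rw [Pi.add_apply, ev_some_ne hw] at h1
        cases v with
        | none =>
          rw [ev_none_apply]
          linarith
        | some b =>
          by_cases hb : w = b
          · subst hb
            rw [ev_some_self]
            have h2 : (y w : ℤ) < x w := hv w rfl
            have h3 : (x w : ℤ) ≤ z w := hxz w
            show (y w : ℤ) - 0 + 1 ≤ z w
            omega
          · rw [ev_some_ne hb]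
            linarith
    have hx'z : x + ev (some a) - ev v ≤ z + ev (some a) := by
      intro w
      simp only [Pi.add_apply, Pi.sub_apply]
      have := ev_nonneg v w
      have := hxz w
      linarith
    have k1 := hxm _ hD1 hy'z
    have k2 := hym _ hD2 hx'z
    have k3 : key (x + ev (some a) - ev v) = key y := by
      apply le_antisymm k2
      by_contra hlt
      push Not at hlt
      have : key (y - ev (some a) + ev v) + key (x + ev (some a) - ev v) < key y + key x := by
        rw [add_comm (key y)]
        exact add_lt_add_of_le_of_lt k1 hlt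
      exact absurd hkey (not_le.mpr this)
    have k4 : x + ev (some a) - ev v = y := h.inj _ hD2 _ hyD k3
    refine ⟨v, hva, ?_, k4.symm⟩
    have h5 := congrFun k4 a
    simp only [Pi.add_apply, Pi.sub_apply] at h5
    rw [ev_some_self] at h5
    have : (ev v : V → ℤ) a = 0 := by
      cases v with
      | none => exact ev_none_apply a
      | some b =>
        apply ev_some_ne
        intro hb
        exact hva (by rw [hb])
    rw [this] at h5
    omega

theorem rej_step (h : Pref D key) {z : V → ℤ} (hz : 0 ≤ z) (a : V) :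
    ∃ u : Option V, z + ev (some a) - Ch D key (z + ev (some a)) = z - Ch D key z + ev u := by
  rcases ch_step h hz a with h1 | ⟨v, -, -, h1⟩
  · refine ⟨some a, ?_⟩
    rw [h1]
    abel
  · refine ⟨v, ?_⟩
    rw [h1]
    abel

theorem rej_aux (h : Pref D key) (n : ℕ) : ∀ {z z' : V → ℤ}, 0 ≤ z → z ≤ z' →
    ∑ i, (z' i - z i) = n → z - Ch D key z ≤ z' - Ch D key z' ∧
      ∑ i, ((z' i - Ch D key z' i) - (z i - Ch D key z i)) ≤ n := by
  induction n with
  | zero =>
    intro z z' hz hzz hs
    have heq : z' = z := by
      have h0 : ∀ i ∈ Finset.univ, z' i - z i = 0 := by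
        rw [← Finset.sum_eq_zero_iff_of_nonneg]
        · simpa using hs
        · intro i _
          have := hzz i
          linarith
      funext i
      have := h0 i (Finset.mem_univ i)
      linarith
    subst heq
    simp
  | succ n ih =>
    intro z z' hz hzz hs
    have hex : ∃ a, z a < z' a := by
      by_contra hcon
      push Not at hcon
      have : ∑ i, (z' i - z i) ≤ 0 := Finset.sum_nonpos (fun i _ => by
        have := hcon i
        linarith)
      rw [hs] at this
      push_cast at this
      have : (0 : ℤ) ≤ n := Int.natCast_nonneg n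
      omega
    obtain ⟨a, ha⟩ := hex
    have hz1 : 0 ≤ z + ev (some a) := fun w => add_nonneg (hz w) (ev_nonneg _ w)
    have hzz1 : z + ev (some a) ≤ z' := by
      intro w
      rw [Pi.add_apply]
      by_cases hw : w = a
      · subst hw
        rw [ev_some_self]
        show (z w : ℤ) + 1 ≤ z' w
        omega
      · rw [ev_some_ne hw]
        have := hzz w
        linarith
    have hs1 : ∑ i, (z' i - (z + ev (some a)) i) = n := by
      have : ∑ i, (z' i - (z + ev (some a)) i) = ∑ i, (z' i - z i) - ∑ i, (ev (some a) : V → ℤ) i := by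
        rw [← Finset.sum_sub_distrib]
        refine Finset.sum_congr rfl fun i _ => ?_
        rw [Pi.add_apply]
        ring
      rw [this, hs, sum_ev_some]
      push_cast
      ring
    obtain ⟨h1, h2⟩ := ih hz1 hzz1 hs1
    obtain ⟨u, hu⟩ := rej_step h hz a
    constructor
    · refine le_trans ?_ h1
      rw [hu]
      intro w
      rw [Pi.add_apply]
      have := ev_nonneg u w
      linarith
    · have h3 : ∑ i, ((z' i - Ch D key z' i) - (z i - Ch D key z i)) =
          ∑ i, ((z' i - Ch D key z' i) -
            ((z + ev (some a)) i - Ch D key (z + ev (some a)) i)) + ∑ i, (ev u : V → ℤ) i := by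
        rw [← Finset.sum_add_distrib]
        refine Finset.sum_congr rfl fun i _ => ?_
        have := congrFun hu i
        simp only [Pi.add_apply, Pi.sub_apply] at this ⊢
        linarith
      rw [h3]
      have := sum_ev_le u
      push_cast
      linarith

theorem rej_mono (h : Pref D key) {z z' : V → ℤ} (hz : 0 ≤ z) (hzz : z ≤ z') :
    z - Ch D key z ≤ z' - Ch D key z' := by
  have hn : 0 ≤ ∑ i, (z' i - z i) := Finset.sum_nonneg (fun i _ => by
    have := hzz i
    linarith)
  obtain ⟨n, hn'⟩ := Int.eq_ofNat_of_zero_le hn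
  exact (rej_aux h n hz hzz hn').1

theorem rej_sum (h : Pref D key) {z z' : V → ℤ} (hz : 0 ≤ z) (hzz : z ≤ z') :
    ∑ i, ((z' i - Ch D key z' i) - (z i - Ch D key z i)) ≤ ∑ i, (z' i - z i) := by
  have hn : 0 ≤ ∑ i, (z' i - z i) := Finset.sum_nonneg (fun i _ => by
    have := hzz i
    linarith)
  obtain ⟨n, hn'⟩ := Int.eq_ofNat_of_zero_le hn
  rw [hn']
  exact (rej_aux h n hz hzz hn').2

theorem ch_add_mul (h : Pref D key) {X : V → ℤ} (hX : 0 ≤ X) {e : V} (he : Ch D key X e < X e)
    (k : ℕ) : Ch D key (X + fun w => (k : ℤ) * (ev (some e) : V → ℤ) w) = Ch D key X := by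
  induction k with
  | zero =>
    congr 1
    funext w
    simp
  | succ k ih =>
    set Y : V → ℤ := X + fun w => (k : ℤ) * (ev (some e) : V → ℤ) w with hY
    have hY0 : 0 ≤ Y := by
      intro w
      rw [hY]
      simp only [Pi.add_apply, Pi.zero_apply]
      have h1 := hX w
      have h2 : 0 ≤ (k : ℤ) * (ev (some e) : V → ℤ) w :=
        mul_nonneg (Int.natCast_nonneg k) (ev_nonneg _ w)
      simp only [Pi.zero_apply] at h1
      linarith
    have hYs : (X + fun w => ((k + 1 : ℕ) : ℤ) * (ev (some e) : V → ℤ) w) = Y + ev (some e) := by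
      funext w
      simp only [hY, Pi.add_apply]
      push_cast
      ring
    rw [hYs]
    rcases ch_step h hY0 e with h1 | ⟨v, -, h1, -⟩
    · rw [h1, ih]
    · exfalso
      rw [ih] at h1
      rw [h1, hY] at he
      simp only [Pi.add_apply, ev_some_self, mul_one] at he
      have : (0 : ℤ) ≤ k := Int.natCast_nonneg k
      linarith

theorem no_gain (h : Pref D key) {X y : V → ℤ} (hX : 0 ≤ X) {e : V} (he : Ch D key X e < X e)
    (hy : y ∈ D) (hle : ∀ w, w ≠ e → y w ≤ Ch D key X w) : key y ≤ key (Ch D key X) := by
  set k : ℕ := (y e - X e).toNat with hk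
  have h1 := ch_add_mul h hX he k
  have hY0 : 0 ≤ (X + fun w => (k : ℤ) * (ev (some e) : V → ℤ) w) := by
    intro w
    simp only [Pi.add_apply, Pi.zero_apply]
    have h1 := hX w
    have h2 : 0 ≤ (k : ℤ) * (ev (some e) : V → ℤ) w :=
      mul_nonneg (Int.natCast_nonneg k) (ev_nonneg _ w)
    simp only [Pi.zero_apply] at h1
    linarith
  have h2 := (ch_spec h hY0).2.2 y hy (by
    intro w
    simp only [Pi.add_apply]
    by_cases hw : w = e
    · subst hw
      rw [ev_some_self, mul_one]
      have : y w - X w ≤ (k : ℤ) := Int.self_le_toNat _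
      linarith
    · rw [ev_some_ne hw, mul_zero, add_zero]
      exact (hle w hw).trans ((ch_spec h hX).2.1 w))
  rwa [h1] at h2

end SAQ
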